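import Pool.Agent.MP_3ee8cb_gt.G76.Spec

open Filter Topology

namespace Pool.Agent.MP_3ee8cb_gt.G76

/-- The lifting statement for nonempty spaces. -/
def SpLift' : Prop := ∀ (n : ℕ) (X Y Γ Λ : Type) [MetricSpace X] [ProperSpace X] [MetricSpace Y]
  [ProperSpace Y] [Group Γ] [Group Λ] [MulAction Γ X] [MulAction Λ Y], 3 ≤ n → Nonempty X →
  Hadamard n X → Hadamard n Y → Deck Γ X → Deck Λ Y → ∀ h : UT Γ X ≃ₜ UT Λ Y,
  (∀ (t : ℝ) (c : Line X) (c' : Line Y), h (Quotient.mk _ c) = Quotient.mk _ c' →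
    h (Quotient.mk _ (flow t c)) = Quotient.mk _ (flow t c')) →
  ∃ (ρ : Γ ≃* Λ) (F : Line X → Line Y), Conj Γ (fun γ (y : Y) => ρ γ • y) F

theorem lift_star {V L B : Type} [NormedAddCommGroup V] [NormedSpace ℝ V] [TopologicalSpace L]
    [TopologicalSpace B] {p : L → B} (cov : IsCoveringMap p) {U : Set V} (hU : IsOpen U) {x : V}
    (hs : StarConvex ℝ x U) {f : V → B} (hf : ContinuousOn f U) {a : V} (ha : a ∈ U) (e : L)
    (he : p e = f a) : ∃ G : V → L, ContinuousOn G U ∧ G a = e ∧ ∀ y ∈ U, p (G y) = f y := by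
  classical
  have := hs.contractibleSpace ⟨a, ha⟩
  have := hU.locallyPathConnectedSpace
  obtain ⟨F, ⟨hF0, hF⟩, -⟩ := cov.existsUnique_continuousMap_lifts
    (⟨U.restrict f, hf.restrict⟩ : C(U, B)) ⟨a, ha⟩ e he
  refine ⟨fun y => if h : y ∈ U then F ⟨y, h⟩ else e, ?_, ?_, fun y hy => ?_⟩
  · rw [continuousOn_iff_continuous_restrict]
    refine F.continuous.congr fun y => ?_
    simp [y.2]
  · simp [ha, hF0]
  · simp only [hy, dif_pos]
    exact congrFun hF ⟨y, hy⟩

/-- The complement of the ray in direction `N`, in the second factor. -/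
def lift_U {n : ℕ} (N : E n) : Set (E n × E n) := {x | inner ℝ x.2 N < ‖x.2‖}

theorem lift_U_open {n : ℕ} (N : E n) : IsOpen (lift_U N) :=
  isOpen_lt (continuous_snd.inner continuous_const) continuous_snd.norm

theorem lift_U_star {n : ℕ} {N : E n} (hN : ‖N‖ = 1) :
    StarConvex ℝ ((0 : E n), -N) (lift_U N) := by
  intro y hy a b ha hb hab
  have hNN : inner ℝ N N = (1 : ℝ) := by rw [real_inner_self_eq_norm_sq, hN]; norm_num
  have hy' : inner ℝ y.2 N < ‖y.2‖ := hy
  change inner ℝ (a • (-N) + b • y.2) N < ‖a • (-N) + b • y.2‖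
  rcases hb.eq_or_lt with rfl | hb
  · have ha1 : a = 1 := by linarith
    simp [ha1, hN]
  · have h1 : ‖b • y.2‖ ≤ ‖a • (-N) + b • y.2‖ + ‖a • N‖ := by
      have := norm_add_le (a • (-N) + b • y.2) (a • N)
      rwa [show a • (-N) + b • y.2 + a • N = b • y.2 by module] at this
    rw [norm_smul, norm_smul, hN, Real.norm_eq_abs, Real.norm_eq_abs, abs_of_pos hb,
      abs_of_nonneg ha] at h1
    rw [inner_add_left, real_inner_smul_left, real_inner_smul_left, inner_neg_left, hNN]
    nlinarith [mul_lt_mul_of_pos_left hy' hb]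

theorem lift_U_union {n : ℕ} (N : E n) :
    lift_U N ∪ lift_U (-N) = {x : E n × E n | x.2 ≠ 0} := by
  ext x
  simp only [lift_U, Set.mem_union, Set.mem_ofPred_eq, inner_neg_right]
  constructor
  · rintro (h | h) h0 <;> simp [h0] at h
  · intro h
    have := norm_pos_iff.2 h
    by_contra hc
    rw [not_or, not_lt, not_lt] at hc
    linarith [hc.1, hc.2]

theorem lift_U_inter {n : ℕ} {N : E n} (hN : ‖N‖ = 1) :
    lift_U N ∩ lift_U (-N) = Set.univ ×ˢ (Submodule.span ℝ {N} : Set (E n))ᶜ := by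
  have hNN : inner ℝ N N = (1 : ℝ) := by rw [real_inner_self_eq_norm_sq, hN]; norm_num
  ext x
  simp only [lift_U, Set.mem_inter_iff, Set.mem_ofPred_eq, inner_neg_right, Set.mem_prod,
    Set.mem_univ, true_and, Set.mem_compl_iff, SetLike.mem_coe, Submodule.mem_span_singleton]
  constructor
  · rintro ⟨h1, h2⟩ ⟨s, hs⟩
    rw [← hs, real_inner_smul_left, hNN, norm_smul, hN, Real.norm_eq_abs] at h1 h2
    rcases abs_cases s with h | h <;> linarith [h.1]
  · intro h
    have key : ∀ M : E n, ‖M‖ = 1 → ¬ inner ℝ x.2 M < ‖x.2‖ → x.2 = ‖x.2‖ • M := by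
      intro M hM h1
      have h2 := real_inner_le_norm x.2 M
      have h3 : inner ℝ x.2 M = ‖x.2‖ * ‖M‖ := by
        rw [hM, mul_one] at h2 ⊢
        linarith [not_lt.1 h1]
      have h4 := inner_eq_norm_mul_iff_real.1 h3
      rwa [hM, one_smul] at h4
    constructor
    · by_contra h1
      exact h ⟨_, (key N hN h1).symm⟩
    · by_contra h1
      have h2 := key (-N) (by rw [norm_neg, hN]) (by rwa [inner_neg_right])
      exact h ⟨-‖x.2‖, by rw [neg_smul, ← smul_neg]; exact h2.symm⟩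

theorem lift_D {n : ℕ} (hn : 3 ≤ n) : IsPreconnected {x : E n × E n | x.2 ≠ 0} ∧
    ∀ (L B : Type) [TopologicalSpace L] [TopologicalSpace B] (p : L → B), IsCoveringMap p →
      Function.Surjective p → ∀ f : E n × E n → B, ContinuousOn f {x | x.2 ≠ 0} →
      ∃ G : E n × E n → L, ContinuousOn G {x | x.2 ≠ 0} ∧ ∀ y, y.2 ≠ 0 → p (G y) = f y := by
  classical
  obtain ⟨N, hN⟩ : ∃ N : E n, ‖N‖ = 1 := ⟨EuclideanSpace.single ⟨0, by omega⟩ 1, by simp⟩
  have hN' : ‖-N‖ = 1 := by rw [norm_neg, hN]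
  have hN0 : N ≠ 0 := fun h => by simp [h] at hN
  have hrank : 1 < Module.rank ℝ (E n ⧸ Submodule.span ℝ {N}) := by
    have h1 := Submodule.finrank_quotient_add_finrank (Submodule.span ℝ {N})
    rw [finrank_span_singleton hN0, finrank_euclideanSpace_fin] at h1
    rw [← Module.finrank_eq_rank]
    exact_mod_cast (by omega : 1 < Module.finrank ℝ (E n ⧸ Submodule.span ℝ {N}))
  have hpc := isPathConnected_compl_of_one_lt_codim hrank
  have hI : IsPreconnected (lift_U N ∩ lift_U (-N)) := by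
    rw [lift_U_inter hN]
    exact isPreconnected_univ.prod hpc.isConnected.isPreconnected
  obtain ⟨a, ha1, ha2⟩ : (lift_U N ∩ lift_U (-N)).Nonempty := by
    rw [lift_U_inter hN]
    exact Set.univ_nonempty.prod hpc.nonempty
  have s1 := lift_U_star hN
  have s2 := lift_U_star hN'
  refine ⟨?_, fun L B _ _ p cov hp f hf => ?_⟩
  · rw [← lift_U_union N]
    exact IsPreconnected.union a ha1 ha2
      (s1.isPathConnected (s1.mem ⟨a, ha1⟩)).isConnected.isPreconnected
      (s2.isPathConnected (s2.mem ⟨a, ha2⟩)).isConnected.isPreconnected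
  · rw [← lift_U_union N] at hf
    obtain ⟨e, he⟩ := hp (f a)
    obtain ⟨G₁, c1, e1, l1⟩ :=
      lift_star cov (lift_U_open N) s1 (hf.mono Set.subset_union_left) ha1 e he
    obtain ⟨G₂, c2, e2, l2⟩ :=
      lift_star cov (lift_U_open (-N)) s2 (hf.mono Set.subset_union_right) ha2 e he
    have hE : Set.EqOn G₁ G₂ (lift_U N ∩ lift_U (-N)) :=
      cov.eqOn_of_comp_eqOn hI (c1.mono Set.inter_subset_left) (c2.mono Set.inter_subset_right)
        (fun y hy => (l1 y hy.1).trans (l2 y hy.2).symm) ⟨ha1, ha2⟩ (e1.trans e2.symm)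
    have g1 : Set.EqOn (fun y => if y ∈ lift_U N then G₁ y else G₂ y) G₁ (lift_U N) :=
      fun y hy => if_pos hy
    have g2 : Set.EqOn (fun y => if y ∈ lift_U N then G₁ y else G₂ y) G₂ (lift_U (-N)) := by
      intro y hy
      by_cases h : y ∈ lift_U N
      · exact (if_pos h).trans (hE ⟨h, hy⟩)
      · exact if_neg h
    refine ⟨fun y => if y ∈ lift_U N then G₁ y else G₂ y, ?_, fun y hy => ?_⟩
    · rw [← lift_U_union N]
      exact (c1.congr g1).union_of_isOpen (c2.congr g2) (lift_U_open N) (lift_U_open (-N))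
    · have h : y ∈ lift_U N ∪ lift_U (-N) := by rw [lift_U_union N]; exact hy
      rcases h with h | h
      · exact (congrArg p (g1 h)).trans (l1 y h)
      · exact (congrArg p (g2 h)).trans (l2 y h)

theorem lift_two {n : ℕ} {X : Type} [MetricSpace X] [ProperSpace X] (H : Hadamard n X)
    (hn : 0 < n) : ∃ Φ : X × X → Line X, ContinuousOn Φ {x | x.1 ≠ x.2} ∧
      ∀ c : Line X, Φ (c.1 0, c.1 1) = c := by
  choose Φ h0 h1 using fun x : X × X => exists_line H hn x.1 x.2
  refine ⟨Φ, fun x hx => ContinuousAt.continuousWithinAt ?_, fun c => ?_⟩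
  · have hd : (0 : ℝ) ≠ dist x.1 x.2 := (dist_pos.2 hx).ne
    refine (lines_compact (isCompact_closedBall x.1 1)).tendsto_nhds_of_unique_mapClusterPt ?_ ?_
    · have h2 : ∀ᶠ y : X × X in 𝓝 x, y.1 ∈ Metric.closedBall x.1 1 :=
        continuous_fst.continuousAt (Metric.closedBall_mem_nhds x.1 one_pos)
      filter_upwards [h2] with y hy
      change (Φ y).1 0 ∈ _
      rwa [h0 y]
    · intro c _ hc
      have key : ∀ (t : ℝ) (z : X), Tendsto (fun y => (Φ y).1 t) (𝓝 x) (𝓝 z) → c.1 t = z := by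
        intro t z hz
        have h2 : MapClusterPt (c.1 t) (𝓝 x) ((fun d : Line X => d.1 t) ∘ Φ) :=
          hc.continuousAt_comp (line_eval_cont t).continuousAt
        exact eq_of_nhds_neBot (ClusterPt.mono h2 hz)
      refine line_ext H hd ?_ ?_
      · rw [h0 x]
        refine key 0 _ ?_
        simp only [h0]
        exact continuous_fst.tendsto x
      · rw [h1 x]
        refine key _ _ ?_
        rw [tendsto_iff_dist_tendsto_zero]
        have h2 : Continuous fun y : X × X => dist (dist x.1 x.2) (dist y.1 y.2) + dist y.2 x.2 :=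
          by fun_prop
        have h3 := h2.tendsto x
        simp only [dist_self, add_zero] at h3
        refine squeeze_zero (fun _ => dist_nonneg) (fun y => ?_) h3
        rw [← (Φ y).2.dist_eq, h1 y]
        exact dist_triangle _ _ _
  · refine line_ext H (s := 0) (t := 1) zero_ne_one (h0 _) ?_
    have h2 := h1 (c.1 0, c.1 1)
    rwa [Line.dist_eq, zero_sub, abs_neg, abs_one] at h2

theorem lift_line {n : ℕ} (hn : 3 ≤ n) {X : Type} [MetricSpace X] [ProperSpace X]
    (H : Hadamard n X) (o : X) : PreconnectedSpace (Line X) ∧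
    ∀ (L B : Type) [TopologicalSpace L] [TopologicalSpace B] (p : L → B), IsCoveringMap p →
      Function.Surjective p → ∀ f : Line X → B, Continuous f →
      ∃ F : Line X → L, Continuous F ∧ ∀ c, p (F c) = f c := by
  obtain ⟨Φ, hΦ, hc⟩ := lift_two H (by omega)
  obtain ⟨hD, hL⟩ := lift_D hn
  have hΨ : ContinuousOn (fun x : E n × E n => Φ (ex H o x.1, ex H o (x.1 + x.2)))
      {x | x.2 ≠ 0} := by
    refine hΦ.comp (Continuous.continuousOn ?_) fun x hx h => hx ?_
    · exact ((ex_cont H o).comp continuous_fst).prodMk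
        ((ex_cont H o).comp (continuous_fst.add continuous_snd))
    · have := ex_inj H o h
      simpa using this
  have hσ : Continuous fun c : Line X => (lg H o (c.1 0), lg H o (c.1 1) - lg H o (c.1 0)) :=
    ((lg_cont H o).comp (line_eval_cont 0)).prodMk
      (((lg_cont H o).comp (line_eval_cont 1)).sub ((lg_cont H o).comp (line_eval_cont 0)))
  have hσD : ∀ c : Line X, lg H o (c.1 1) - lg H o (c.1 0) ≠ 0 := by
    intro c h
    have h1 := congrArg (ex H o) (sub_eq_zero.1 h)
    rw [ex_lg, ex_lg] at h1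
    exact one_ne_zero (c.2.injective h1)
  have hσΨ : ∀ c : Line X, Φ (ex H o (lg H o (c.1 0)),
      ex H o (lg H o (c.1 0) + (lg H o (c.1 1) - lg H o (c.1 0)))) = c := by
    intro c
    rw [add_sub_cancel, ex_lg, ex_lg, hc]
  refine ⟨⟨?_⟩, fun L B _ _ p cov hp f hf => ?_⟩
  · have h1 := hD.image _ hΨ
    rwa [Set.eq_univ_of_forall (s := _ '' _) fun c =>
      ⟨(lg H o (c.1 0), lg H o (c.1 1) - lg H o (c.1 0)), hσD c, hσΨ c⟩] at h1
  · obtain ⟨G, hG, hl⟩ := hL L B p cov hp _ (hf.comp_continuousOn hΨ)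
    refine ⟨fun c => G (lg H o (c.1 0), lg H o (c.1 1) - lg H o (c.1 0)),
      hG.comp_continuous hσ hσD, fun c => ?_⟩
    rw [hl _ (hσD c)]
    exact congrArg f (hσΨ c)

theorem lift_abs {Γ Λ A B P Q : Type} [Group Γ] [Group Λ] [TopologicalSpace A]
    [TopologicalSpace B] [TopologicalSpace P] [TopologicalSpace Q] [MulAction Γ A] [MulAction Λ B]
    [PreconnectedSpace A] [PreconnectedSpace B] {p : A → P} {q : B → Q}
    (hp : IsQuotientCoveringMap p Γ) (hq : IsQuotientCoveringMap q Λ) (h : P ≃ₜ Q) (a₀ : A)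
    {F : A → B} (hF : Continuous F) (hFl : ∀ a, q (F a) = h (p a))
    {G : B → A} (hG : Continuous G) (hGl : ∀ b, p (G b) = h.symm (q b)) :
    Function.Surjective F ∧ ∃ ρ : Γ ≃* Λ, ∀ γ a, F (γ • a) = ρ γ • F a := by
  have := hp.isCancelSMul
  have := hq.isCancelSMul
  have hinj : Function.Injective F := by
    have h1 : ∀ a, p (G (F a)) = p a := fun a => by rw [hGl, hFl, h.symm_apply_apply]
    obtain ⟨γ, hγ⟩ := hp.apply_eq_iff_mem_orbit.1 (h1 a₀)
    have h2 : G ∘ F = fun a => γ • a :=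
      hp.isCoveringMap.eq_of_comp_eq (hG.comp hF) (hp.continuous_const_smul γ)
        (funext fun a => (h1 a).trans (hp.map_smul γ).symm) a₀ hγ.symm
    exact Function.Injective.of_comp (f := G) (h2 ▸ MulAction.injective γ)
  have hsurj : Function.Surjective F := by
    have h1 : ∀ b, q (F (G b)) = q b := fun b => by rw [hFl, hGl, h.apply_symm_apply]
    obtain ⟨l, hl⟩ := hq.apply_eq_iff_mem_orbit.1 (h1 (F a₀))
    have h2 : F ∘ G = fun b => l • b :=
      hq.isCoveringMap.eq_of_comp_eq (hF.comp hG) (hq.continuous_const_smul l)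
        (funext fun b => (h1 b).trans (hq.map_smul l).symm) (F a₀) hl.symm
    exact Function.Surjective.of_comp (g := G) (h2 ▸ MulAction.surjective l)
  have hr : ∀ γ : Γ, ∃ l : Λ, ∀ a, F (γ • a) = l • F a := by
    intro γ
    have h1 : ∀ a, q (F (γ • a)) = q (F a) := fun a => by rw [hFl, hFl, hp.map_smul]
    obtain ⟨l, hl⟩ := hq.apply_eq_iff_mem_orbit.1 (h1 a₀)
    have h2 : (fun a => F (γ • a)) = fun a => l • F a :=
      hq.isCoveringMap.eq_of_comp_eq (hF.comp (hp.continuous_const_smul γ))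
        ((hq.continuous_const_smul l).comp hF)
        (funext fun a => (h1 a).trans (hq.map_smul l).symm) a₀ hl.symm
    exact ⟨l, congrFun h2⟩
  choose r hr using hr
  have hmul : ∀ γ δ, r (γ * δ) = r γ * r δ := fun γ δ =>
    IsCancelSMul.right_cancel _ _ (F a₀) (by rw [← hr, mul_smul, hr, hr, mul_smul])
  have hbij : Function.Bijective (MonoidHom.mk' r hmul) := by
    constructor
    · intro γ δ hγ
      have h1 : r γ = r δ := hγ
      exact IsCancelSMul.right_cancel _ _ a₀ (hinj (by rw [hr, hr, h1]))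
    · intro l
      obtain ⟨a, ha⟩ := hsurj (l • F a₀)
      have h1 : p a = p a₀ := h.injective (by rw [← hFl, ← hFl, ha, hq.map_smul])
      obtain ⟨γ, hγ⟩ := hp.apply_eq_iff_mem_orbit.1 h1
      have h2 : γ • a₀ = a := hγ
      exact ⟨γ, IsCancelSMul.right_cancel (r γ) l (F a₀) (by rw [← hr, h2, ha])⟩
  exact ⟨hsurj, MulEquiv.ofBijective _ hbij, hr⟩

/-- The action on lines. -/
@[reducible] def lift_act {Γ X : Type} [Group Γ] [MetricSpace X] [MulAction Γ X]
    (hi : ∀ γ : Γ, Isometry fun x : X => γ • x) : MulAction Γ (Line X) where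
  smul γ c := mapL (hi γ) c
  one_smul c := Subtype.ext (funext fun t => one_smul Γ (c.1 t))
  mul_smul γ δ c := Subtype.ext (funext fun t => mul_smul γ δ (c.1 t))

theorem lift_cov {Γ X : Type} [Group Γ] [MetricSpace X] [ProperSpace X] [MulAction Γ X]
    (d : Deck Γ X) : letI := lift_act d.1
    IsQuotientCoveringMap (Quotient.mk (orb Γ X)) Γ := by
  letI := lift_act d.1
  have := d.2.2.1
  have : ContinuousConstSMul Γ X := ⟨fun γ => (d.1 γ).continuous⟩
  refine
    { toIsQuotientMap := isQuotientMap_quot_mk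
      continuous_const_smul := fun γ => Continuous.subtype_mk
        (continuous_pi fun t => (d.1 γ).continuous.comp (line_eval_cont t)) _
      apply_eq_iff_mem_orbit := ?_
      disjoint := fun c => ?_ }
  · intro c c'
    rw [eq_comm, Quotient.eq]
    constructor
    · rintro ⟨γ, hγ⟩
      exact ⟨γ, Subtype.ext (funext fun t => (hγ t).symm)⟩
    · rintro ⟨γ, rfl⟩
      exact ⟨γ, fun _ => rfl⟩
  · obtain ⟨U, hU, h⟩ := ProperlyDiscontinuousSMul.exists_nhds_image_smul_eq_self Γ (c.1 0)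
    refine ⟨(fun e : Line X => e.1 0) ⁻¹' U, (line_eval_cont 0).continuousAt hU, ?_⟩
    rintro γ ⟨_, ⟨e, he, rfl⟩, he'⟩
    exact d.2.1 γ _ (h γ ⟨γ • e.1 0, ⟨e.1 0, he, rfl⟩, he'⟩)

theorem lift_flow_cont {X : Type} [MetricSpace X] (c : Line X) :
    Continuous fun t : ℝ => flow t c :=
  Continuous.subtype_mk (continuous_pi fun s =>
    c.2.continuous.comp (continuous_const.add continuous_id : Continuous fun t : ℝ => s + t)) _

theorem lift_flow_zero {X : Type} [MetricSpace X] (c : Line X) : flow 0 c = c :=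
  Subtype.ext (funext fun s => congrArg c.1 (add_zero s))

theorem lift_main : SpLift' := by
  rintro n X Y Γ Λ _ _ _ _ _ _ _ _ hn ⟨o⟩ H H' dX dY h hh
  letI := lift_act dX.1
  letI := lift_act dY.1
  have hp := lift_cov dX
  have hq := lift_cov dY
  obtain ⟨c₀, -⟩ := exists_line H (by omega) o o
  obtain ⟨c₁, -⟩ := hq.surjective (h (Quotient.mk _ c₀))
  obtain ⟨cX, lX⟩ := lift_line hn H o
  obtain ⟨cY, lY⟩ := lift_line hn H' (c₁.1 0)
  obtain ⟨F, hF, hFl⟩ := lX _ _ _ hq.isCoveringMap hq.surjective (fun c => h (Quotient.mk _ c))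
    (h.continuous.comp hp.isCoveringMap.continuous)
  obtain ⟨G, hG, hGl⟩ := lY _ _ _ hp.isCoveringMap hp.surjective
    (fun c => h.symm (Quotient.mk _ c)) (h.symm.continuous.comp hq.isCoveringMap.continuous)
  obtain ⟨hs, ρ, hρ⟩ := lift_abs hp hq h c₀ hF hFl hG hGl
  refine ⟨ρ, F, dX.1, dX.2.2.2, fun γ => dY.1 (ρ γ), hF, hs, fun t c => ?_, hρ⟩
  have h1 : (fun t : ℝ => F (flow t c)) = fun t : ℝ => flow t (F c) :=
    hq.isCoveringMap.eq_of_comp_eq (hF.comp (lift_flow_cont c)) (lift_flow_cont (F c))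
      (funext fun t => (hFl _).trans (hh t c (F c) (hFl c).symm)) 0
      (by rw [lift_flow_zero, lift_flow_zero])
  exact congrFun h1 t

end Pool.Agent.MP_3ee8cb_gt.G76
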