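import Pool.Agent.MP_3ee8cb_gt.G76.Defs

open Filter Topology

namespace Pool.Agent.MP_3ee8cb_gt.G76

variable {n : ℕ} {X : Type} [MetricSpace X]

/-- The chosen exponential map. -/
noncomputable def ex (H : Hadamard n X) (x : X) : E n → X := (H x).choose

theorem ex_zero (H : Hadamard n X) (x : X) : ex H x 0 = x := (H x).choose_spec.1

theorem ex_surj (H : Hadamard n X) (x : X) : Function.Surjective (ex H x) := (H x).choose_spec.2.1

theorem ex_rad (H : Hadamard n X) (x : X) (a : E n) (s t : ℝ) :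
    dist (ex H x (s • a)) (ex H x (t • a)) = |s - t| * ‖a‖ := (H x).choose_spec.2.2.1 a s t

theorem ex_exp (H : Hadamard n X) (x : X) (a b : E n) :
    ‖a - b‖ ≤ dist (ex H x a) (ex H x b) := (H x).choose_spec.2.2.2.1 a b

theorem ex_lim (H : Hadamard n X) (x : X) (a b : E n) :
    Tendsto (fun t : ℝ => dist (ex H x (t • a)) (ex H x (t • b)) / t) (𝓝[>] 0) (𝓝 ‖a - b‖) :=
  (H x).choose_spec.2.2.2.2 a b

theorem ex_inj (H : Hadamard n X) (x : X) : Function.Injective (ex H x) := by
  intro a b h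
  have := ex_exp H x a b
  rw [h, dist_self] at this
  exact sub_eq_zero.1 (norm_le_zero_iff.1 this)

/-- The inverse of the exponential map. -/
noncomputable def lg (H : Hadamard n X) (x y : X) : E n := Function.surjInv (ex_surj H x) y

@[simp] theorem ex_lg (H : Hadamard n X) (x y : X) : ex H x (lg H x y) = y :=
  Function.surjInv_eq _ _

@[simp] theorem lg_ex (H : Hadamard n X) (x : X) (a : E n) : lg H x (ex H x a) = a :=
  ex_inj H x (ex_lg H x _)

theorem dist_ex (H : Hadamard n X) (x : X) (a : E n) : dist x (ex H x a) = ‖a‖ := by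
  have := ex_rad H x a 0 1
  simpa [ex_zero] using this

theorem norm_lg (H : Hadamard n X) (x y : X) : ‖lg H x y‖ = dist x y := by
  rw [← dist_ex H x, ex_lg]

@[simp] theorem lg_self (H : Hadamard n X) (x : X) : lg H x x = 0 := by
  rw [← norm_eq_zero, norm_lg, dist_self]

theorem lg_lip (H : Hadamard n X) (x y z : X) : ‖lg H x y - lg H x z‖ ≤ dist y z := by
  simpa using ex_exp H x (lg H x y) (lg H x z)

theorem lg_cont (H : Hadamard n X) (x : X) : Continuous (lg H x) :=
  (LipschitzWith.of_dist_le_mul (K := 1) fun y z => by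
    simpa [dist_eq_norm] using lg_lip H x y z).continuous

theorem ex_cont [ProperSpace X] (H : Hadamard n X) (x : X) : Continuous (ex H x) := by
  rw [continuous_iff_isClosed]
  intro s hs
  have h1 : ex H x ⁻¹' s = lg H x '' s := by
    ext a
    constructor
    · intro ha
      exact ⟨_, ha, lg_ex H x a⟩
    · rintro ⟨y, hy, rfl⟩
      simpa using hy
  rw [h1]
  have hp : IsProperMap (lg H x) := by
    rw [isProperMap_iff_tendsto_cocompact]
    refine ⟨lg_cont H x, ?_⟩
    rw [← Metric.cobounded_eq_cocompact, ← Metric.cobounded_eq_cocompact,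
      ← tendsto_norm_atTop_iff_cobounded]
    simp only [norm_lg]
    exact Metric.tendsto_dist_left_cobounded_atTop x
  exact hp.isClosedMap s hs

/-- The point at fraction `s` on the line from `p` to `q`. -/
noncomputable def pt (H : Hadamard n X) (p q : X) (s : ℝ) : X := ex H p (s • lg H p q)

@[simp] theorem pt_zero (H : Hadamard n X) (p q : X) : pt H p q 0 = p := by
  simp [pt, ex_zero]

@[simp] theorem pt_one (H : Hadamard n X) (p q : X) : pt H p q 1 = q := by simp [pt]

theorem dist_pt (H : Hadamard n X) (p q : X) (s t : ℝ) :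
    dist (pt H p q s) (pt H p q t) = |s - t| * dist p q := by
  rw [pt, pt, ex_rad, norm_lg]

theorem dist_pt_left (H : Hadamard n X) (p q : X) {s : ℝ} (h : 0 ≤ s) :
    dist p (pt H p q s) = s * dist p q := by
  have := dist_pt H p q 0 s
  rwa [pt_zero, zero_sub, abs_neg, abs_of_nonneg h] at this

theorem dist_pt_right (H : Hadamard n X) (p q : X) {s : ℝ} (h : s ≤ 1) :
    dist (pt H p q s) q = (1 - s) * dist p q := by
  have := dist_pt H p q s 1
  rwa [pt_one, abs_sub_comm, abs_of_nonneg (by linarith)] at this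

/-- Uniqueness of geodesics. -/
theorem pt_unique (H : Hadamard n X) {p q x : X} {s : ℝ} (h0 : 0 ≤ s) (h1 : s ≤ 1)
    (hp : dist p x = s * dist p q) (hq : dist x q = (1 - s) * dist p q) : x = pt H p q s := by
  have ha : ‖lg H p x‖ = s * ‖lg H p q‖ := by rw [norm_lg, norm_lg, hp]
  have hb : ‖lg H p x - lg H p q‖ ≤ (1 - s) * ‖lg H p q‖ := by
    rw [norm_lg, ← hq]; exact lg_lip H p x q
  have hb2 : ‖lg H p x - lg H p q‖ ^ 2 ≤ ((1 - s) * ‖lg H p q‖) ^ 2 :=
    pow_le_pow_left₀ (norm_nonneg _) hb 2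
  rw [norm_sub_sq_real, ha] at hb2
  have h3 : ‖lg H p x - s • lg H p q‖ ^ 2 ≤ 0 := by
    rw [norm_sub_sq_real, inner_smul_right, norm_smul, ha, Real.norm_eq_abs, abs_of_nonneg h0]
    nlinarith [mul_nonneg h0 (sub_nonneg.2 hb2)]
  have h4 : lg H p x = s • lg H p q := by
    have : ‖lg H p x - s • lg H p q‖ = 0 := by
      have := sq_nonneg ‖lg H p x - s • lg H p q‖
      exact pow_eq_zero_iff two_ne_zero |>.1 (le_antisymm h3 this)
    exact sub_eq_zero.1 (norm_eq_zero.1 this)
  rw [pt, ← h4, ex_lg]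

theorem btw_pt (H : Hadamard n X) (p q : X) {s : ℝ} (h0 : 0 ≤ s) (h1 : s ≤ 1) :
    Btw p (pt H p q s) q := by
  rw [Btw, dist_pt_left H p q h0, dist_pt_right H p q h1]; ring

theorem Btw.exists_pt (H : Hadamard n X) {p x q : X} (h : Btw p x q) :
    ∃ s, 0 ≤ s ∧ s ≤ 1 ∧ x = pt H p q s := by
  rcases eq_or_ne p q with rfl | hpq
  · have : dist p x = 0 := by
      have h1 : dist p x + dist x p = 0 := by simpa [Btw] using h
      linarith [dist_nonneg (x := p) (y := x), dist_nonneg (x := x) (y := p)]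
    exact ⟨0, le_rfl, zero_le_one, by rw [pt_zero, dist_eq_zero.1 this]⟩
  · have hd : 0 < dist p q := dist_pos.2 hpq
    have h' : dist p x + dist x q = dist p q := h
    have h0 : 0 ≤ dist p x / dist p q := by positivity
    have h1 : dist p x / dist p q ≤ 1 := by
      rw [div_le_one hd]; linarith [dist_nonneg (x := x) (y := q)]
    refine ⟨_, h0, h1, pt_unique H h0 h1 (by field_simp) ?_⟩
    field_simp
    linarith

theorem Btw.symm {p x q : X} (h : Btw p x q) : Btw q x p := by
  unfold Btw at *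
  rw [dist_comm q x, dist_comm x p, dist_comm q p]; linarith

theorem pt_symm (H : Hadamard n X) (p q : X) {s : ℝ} (h0 : 0 ≤ s) (h1 : s ≤ 1) :
    pt H p q s = pt H q p (1 - s) := by
  refine pt_unique H (by linarith) (by linarith) ?_ ?_
  · rw [dist_comm, dist_pt_right H p q h1, dist_comm]
  · rw [dist_comm, dist_pt_left H p q h0, dist_comm]; ring

theorem lg_pt_opp (H : Hadamard n X) (p q : X) {s : ℝ} (h0 : 0 < s) (h1 : s ≤ 1) :
    lg H (pt H p q s) q = (-((1 - s) / s)) • lg H (pt H p q s) p := by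
  set m := pt H p q s with hm
  set a := lg H m p with ha
  have hna : ‖a‖ = s * dist p q := by rw [ha, norm_lg, dist_comm, hm, dist_pt_left H p q h0.le]
  set r := ex H m ((-((1 - s) / s)) • a) with hr
  have hp : p = ex H m ((1 : ℝ) • a) := by rw [one_smul, ha, ex_lg]
  have hd : dist p r = dist p q := by
    have := ex_rad H m a 1 (-((1 - s) / s))
    rw [← hp, ← hr, hna, abs_of_nonneg (by
      have : 0 ≤ (1 - s) / s := div_nonneg (by linarith) h0.le
      linarith)] at this
    rw [this]; field_simp; ring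
  have hmr : dist m r = (1 - s) * dist p r := by
    rw [hr, dist_ex, norm_smul, hna, Real.norm_eq_abs, abs_neg,
      abs_of_nonneg (div_nonneg (by linarith) h0.le), ← hr, hd]
    field_simp
  have h2 : m = pt H p r s := pt_unique H h0.le h1
    (by rw [hd, hm, dist_pt_left H p q h0.le]) hmr
  have h3 : s • lg H p q = s • lg H p r := ex_inj H p (by rw [← pt, ← pt, ← h2])
  have h4 : lg H p q = lg H p r := smul_right_injective _ h0.ne' h3
  have h5 : q = r := by rw [← ex_lg H p q, h4, ex_lg]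
  rw [h5, hr, lg_ex]

/-- The CN inequality. -/
theorem cn (H : Hadamard n X) (x p q : X) {s : ℝ} (h0 : 0 ≤ s) (h1 : s ≤ 1) :
    dist x (pt H p q s) ^ 2 ≤ (1 - s) * dist x p ^ 2 + s * dist x q ^ 2
      - s * (1 - s) * dist p q ^ 2 := by
  rcases h0.eq_or_lt with rfl | h0
  · simp
  set m := pt H p q s with hm
  set a := lg H m p with ha
  set c := lg H m x with hc
  have hna : ‖a‖ = s * dist p q := by rw [ha, norm_lg, dist_comm, hm, dist_pt_left H p q h0.le]
  have hnc : ‖c‖ = dist x m := by rw [hc, norm_lg, dist_comm]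
  have e1 : ‖c - a‖ ^ 2 ≤ dist x p ^ 2 :=
    pow_le_pow_left₀ (norm_nonneg _) (lg_lip H m x p) 2
  have e2 : ‖c - (-((1 - s) / s)) • a‖ ^ 2 ≤ dist x q ^ 2 := by
    rw [ha, hm, ← lg_pt_opp H p q h0 h1]
    exact pow_le_pow_left₀ (norm_nonneg _) (lg_lip H _ x q) 2
  rw [norm_sub_sq_real, hna, hnc] at e1
  rw [norm_sub_sq_real, inner_smul_right, norm_smul, hna, hnc, Real.norm_eq_abs, mul_pow,
    sq_abs] at e2
  have e3 : s * (dist x m ^ 2 - 2 * (-((1 - s) / s) * inner ℝ c a) +
      (-((1 - s) / s)) ^ 2 * (s * dist p q) ^ 2) = s * dist x m ^ 2 + 2 * (1 - s) * inner ℝ c a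
        + s * (1 - s) ^ 2 * dist p q ^ 2 := by field_simp; ring
  have e4 := mul_le_mul_of_nonneg_left e2 h0.le
  have e5 := mul_le_mul_of_nonneg_left e1 (sub_nonneg.2 h1)
  rw [e3] at e4
  nlinarith

theorem pt_conv_same (H : Hadamard n X) (x y z : X) {s : ℝ} (h0 : 0 ≤ s) (h1 : s ≤ 1) :
    dist (pt H x y s) (pt H x z s) ≤ s * dist y z := by
  have e1 := cn H (pt H x y s) x z h0 h1
  have e2 := cn H z x y h0 h1
  rw [dist_comm (pt H x y s) x, dist_pt_left H x y h0, dist_comm (pt H x y s) z] at e1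
  rw [dist_comm z x, dist_comm z y] at e2
  refine abs_le_of_sq_le_sq' ?_ (mul_nonneg h0 dist_nonneg) |>.2
  nlinarith [mul_le_mul_of_nonneg_left e2 h0]

/-- Convexity of the metric. -/
theorem pt_conv (H : Hadamard n X) (p q p' q' : X) {s : ℝ} (h0 : 0 ≤ s) (h1 : s ≤ 1) :
    dist (pt H p q s) (pt H p' q' s) ≤ (1 - s) * dist p p' + s * dist q q' := by
  have e1 := pt_conv_same H p q q' h0 h1
  have e2 := pt_conv_same H q' p p' (s := 1 - s) (by linarith) (by linarith)
  rw [← pt_symm H p q' h0 h1, ← pt_symm H p' q' h0 h1] at e2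
  linarith [dist_triangle (pt H p q s) (pt H p q' s) (pt H p' q' s)]

theorem pt_self (H : Hadamard n X) (p : X) (s : ℝ) : pt H p p s = p := by
  simp [pt, ex_zero]

theorem dist_pt_conv (H : Hadamard n X) (x p q : X) {s : ℝ} (h0 : 0 ≤ s) (h1 : s ≤ 1) :
    dist x (pt H p q s) ≤ (1 - s) * dist x p + s * dist x q := by
  simpa [pt_self] using pt_conv H x x p q h0 h1

/-- The quadrilateral inequality. -/
theorem quad (H : Hadamard n X) (p q x y : X) :
    dist p x ^ 2 + dist q y ^ 2 ≤ dist p q ^ 2 + dist q x ^ 2 + dist x y ^ 2 + dist y p ^ 2 := by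
  have e1 := cn H q p x (s := 1 / 2) (by norm_num) (by norm_num)
  have e2 := cn H y p x (s := 1 / 2) (by norm_num) (by norm_num)
  have e3 := dist_triangle_right q y (pt H p x (1 / 2))
  rw [dist_comm q p] at e1
  rw [dist_comm y x] at e2
  have e4 : dist q y ^ 2 ≤ (dist q (pt H p x (1 / 2)) + dist y (pt H p x (1 / 2))) ^ 2 :=
    pow_le_pow_left₀ dist_nonneg e3 2
  nlinarith [sq_nonneg (dist q (pt H p x (1 / 2)) - dist y (pt H p x (1 / 2)))]

theorem Line.dist_eq (c : Line X) (s t : ℝ) : dist (c.1 s) (c.1 t) = |s - t| := by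
  rw [c.2.dist_eq, Real.dist_eq]

/-- Points of a line are the interpolated points. -/
theorem pt_line (H : Hadamard n X) (c : Line X) (a b : ℝ) {s : ℝ} (h0 : 0 ≤ s) (h1 : s ≤ 1) :
    pt H (c.1 a) (c.1 b) s = c.1 ((1 - s) * a + s * b) := by
  refine (pt_unique H h0 h1 ?_ ?_).symm
  · rw [Line.dist_eq, Line.dist_eq, show a - ((1 - s) * a + s * b) = s * (a - b) by ring, abs_mul,
      abs_of_nonneg h0]
  · rw [Line.dist_eq, Line.dist_eq, show (1 - s) * a + s * b - b = (1 - s) * (a - b) by ring,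
      abs_mul, abs_of_nonneg (by linarith : 0 ≤ 1 - s)]

/-- The radial line in a unit direction. -/
noncomputable def rad (H : Hadamard n X) (x : X) (u : E n) (hu : ‖u‖ = 1) : Line X :=
  ⟨fun t => ex H x (t • u), Isometry.of_dist_eq fun s t => by
    rw [ex_rad, hu, mul_one, Real.dist_eq]⟩

/-- The reversed line. -/
def rev (c : Line X) : Line X :=
  ⟨fun t => c.1 (-t), Isometry.of_dist_eq fun s t => by
    rw [c.2.dist_eq, dist_neg_neg]⟩

@[simp] theorem rev_rev (c : Line X) : rev (rev c) = c := by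
  apply Subtype.ext; funext t; simp [rev]

@[simp] theorem rev_apply (c : Line X) (t : ℝ) : (rev c).1 t = c.1 (-t) := rfl

@[simp] theorem flow_apply (s : ℝ) (c : Line X) (t : ℝ) : (flow s c).1 t = c.1 (t + s) := rfl

/-- Every line through `x` is radial. -/
theorem line_radial (H : Hadamard n X) (c : Line X) :
    ‖lg H (c.1 0) (c.1 1)‖ = 1 ∧ ∀ t : ℝ, c.1 t = ex H (c.1 0) (t • lg H (c.1 0) (c.1 1)) := by
  have key : ∀ (c : Line X) (t : ℝ), 0 ≤ t →
      c.1 t = ex H (c.1 0) (t • lg H (c.1 0) (c.1 1)) := by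
    intro c t ht
    rcases le_total t 1 with h1 | h1
    · have := pt_line H c 0 1 ht h1
      rw [pt] at this
      rw [this]; simp
    · have ht' : 0 < t := by linarith
      have := pt_line H c 0 t (s := 1 / t) (by positivity) (by rw [div_le_one ht']; exact h1)
      rw [show (1 - 1 / t) * 0 + 1 / t * t = 1 by field_simp; ring, pt] at this
      rw [← this, lg_ex, smul_smul, mul_one_div_cancel ht'.ne', one_smul, ex_lg]
  refine ⟨by rw [norm_lg, Line.dist_eq]; norm_num, fun t => ?_⟩
  rcases le_total 0 t with ht | ht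
  · exact key c t ht
  · have h1 := key (rev c) (-t) (by linarith)
    simp only [rev_apply, neg_neg, neg_zero] at h1
    have h2 := lg_pt_opp H (c.1 1) (c.1 (-1)) (s := 1 / 2) (by norm_num) (by norm_num)
    rw [pt_line H c 1 (-1) (by norm_num) (by norm_num)] at h2
    norm_num at h2
    rw [h1, h2, smul_neg, neg_smul, neg_neg]

/-- Two lines that agree at two times are equal. -/
theorem line_ext (H : Hadamard n X) {c c' : Line X} {s t : ℝ} (hst : s ≠ t)
    (hs : c.1 s = c'.1 s) (ht : c.1 t = c'.1 t) : c = c' := by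
  have e1 := (line_radial H (flow s c)).2
  have e2 := (line_radial H (flow s c')).2
  simp only [flow_apply, zero_add] at e1 e2
  have e3 := e1 (t - s)
  have e4 := e2 (t - s)
  rw [sub_add_cancel] at e3 e4
  rw [← hs, ← ht] at e4
  have e5 := smul_right_injective _ (sub_ne_zero.2 hst.symm) (ex_inj H _ (e3.symm.trans e4))
  apply Subtype.ext
  funext u
  have e6 := e1 (u - s)
  have e7 := e2 (u - s)
  rw [sub_add_cancel] at e6 e7
  rw [e6, e7, ← hs, e5]

/-- A line through two points. -/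
theorem exists_line (H : Hadamard n X) (hn : 0 < n) (p q : X) :
    ∃ c : Line X, c.1 0 = p ∧ c.1 (dist p q) = q := by
  rcases eq_or_ne p q with rfl | hpq
  · refine ⟨rad H p (EuclideanSpace.single ⟨0, hn⟩ 1) (by simp), ?_, ?_⟩ <;>
      simp [rad, ex_zero]
  · have hd : 0 < dist p q := dist_pos.2 hpq
    refine ⟨rad H p ((dist p q)⁻¹ • lg H p q) ?_, ?_, ?_⟩
    · rw [norm_smul, norm_lg, Real.norm_eq_abs, abs_of_pos (inv_pos.2 hd), inv_mul_cancel₀ hd.ne']
    · simp [rad, ex_zero]
    · simp [rad, smul_smul, mul_inv_cancel₀ hd.ne']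

theorem line_conv (H : Hadamard n X) (c c' : Line X) (a b a' b' : ℝ) {s : ℝ} (h0 : 0 ≤ s)
    (h1 : s ≤ 1) : dist (c.1 ((1 - s) * a + s * b)) (c'.1 ((1 - s) * a' + s * b')) ≤
      (1 - s) * dist (c.1 a) (c'.1 a') + s * dist (c.1 b) (c'.1 b') := by
  rw [← pt_line H c a b h0 h1, ← pt_line H c' a' b' h0 h1]
  exact pt_conv H _ _ _ _ h0 h1

theorem Btw.line (H : Hadamard n X) (c : Line X) {s t : ℝ} (hst : s ≤ t) {x : X}
    (h : Btw (c.1 s) x (c.1 t)) : ∃ u, s ≤ u ∧ u ≤ t ∧ x = c.1 u := by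
  obtain ⟨r, h0, h1, rfl⟩ := h.exists_pt H
  refine ⟨_, ?_, ?_, pt_line H c s t h0 h1⟩ <;> nlinarith

theorem btw_line (c : Line X) {s u t : ℝ} (h1 : s ≤ u) (h2 : u ≤ t) :
    Btw (c.1 s) (c.1 u) (c.1 t) := by
  rw [Btw, Line.dist_eq, Line.dist_eq, Line.dist_eq, abs_of_nonpos (by linarith),
    abs_of_nonpos (by linarith), abs_of_nonpos (by linarith)]
  ring

theorem line_eval_cont (t : ℝ) : Continuous fun c : Line X => c.1 t :=
  (continuous_apply t).comp continuous_subtype_val

theorem line_eval_cont₂ : Continuous fun x : Line X × ℝ => x.1.1 x.2 := by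
  rw [continuous_iff_continuousAt]
  rintro ⟨c, t⟩
  rw [ContinuousAt, tendsto_iff_dist_tendsto_zero]
  have h1 : Tendsto (fun x : Line X × ℝ => dist x.2 t + dist (x.1.1 t) (c.1 t)) (𝓝 (c, t))
      (𝓝 0) := by
    have : Continuous fun x : Line X × ℝ => dist x.2 t + dist (x.1.1 t) (c.1 t) :=
      (continuous_snd.dist continuous_const).add
        (((line_eval_cont t).comp continuous_fst).dist continuous_const)
    simpa using this.tendsto (c, t)
  refine squeeze_zero (fun _ => dist_nonneg) (fun x => ?_) h1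
  rw [← x.1.2.dist_eq x.2 t]
  exact dist_triangle _ _ _

theorem rev_cont : Continuous (rev : Line X → Line X) :=
  Continuous.subtype_mk (continuous_pi fun t => line_eval_cont (-t)) _

theorem flow_cont (s : ℝ) : Continuous (flow s : Line X → Line X) :=
  Continuous.subtype_mk (continuous_pi fun t => line_eval_cont (t + s)) _

/-- Lines through a compact set form a compact set. -/
theorem lines_compact [ProperSpace X] {K : Set X} (hK : IsCompact K) :
    IsCompact {c : Line X | c.1 0 ∈ K} := by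
  obtain ⟨R, hR⟩ : ∃ R : ℝ → Set X, ∀ t, IsCompact (R t) ∧
      ∀ c : Line X, c.1 0 ∈ K → c.1 t ∈ R t :=
    ⟨fun t => Metric.cthickening |t| K, fun t => ⟨hK.cthickening, fun c hc =>
      Metric.mem_cthickening_of_dist_le _ _ _ _ hc (by rw [Line.dist_eq, sub_zero])⟩⟩
  rw [Subtype.isCompact_iff]
  refine (isCompact_univ_pi fun t => (hR t).1).of_isClosed_subset ?_ ?_
  · have : Subtype.val '' {c : Line X | c.1 0 ∈ K} =
        {c : ℝ → X | c 0 ∈ K} ∩ ⋂ s, ⋂ t, {c : ℝ → X | dist (c s) (c t) = dist s t} := by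
      ext c
      simp only [Set.mem_image, Set.mem_ofPred_eq, Set.mem_inter_iff, Set.mem_iInter]
      constructor
      · rintro ⟨c, hc, rfl⟩
        exact ⟨hc, c.2.dist_eq⟩
      · rintro ⟨h1, h2⟩
        exact ⟨⟨c, Isometry.of_dist_eq h2⟩, h1, rfl⟩
    rw [this]
    exact (hK.isClosed.preimage (continuous_apply 0)).inter (isClosed_iInter fun s =>
      isClosed_iInter fun t => isClosed_eq ((continuous_apply s).dist (continuous_apply t))
        continuous_const)
  · rintro _ ⟨c, hc, rfl⟩ t -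
    exact (hR t).2 c hc

/-- Image of a line under an isometric map. -/
def mapL {Y : Type} [MetricSpace Y] {f : X → Y} (hf : Isometry f) (c : Line X) : Line Y :=
  ⟨fun t => f (c.1 t), hf.comp c.2⟩

@[simp] theorem mapL_apply {Y : Type} [MetricSpace Y] {f : X → Y} (hf : Isometry f) (c : Line X)
    (t : ℝ) : (mapL hf c).1 t = f (c.1 t) := rfl

/-- A ray extends to a line. -/
theorem ray_extend (H : Hadamard n X) {r : ℝ → X}
    (hr : ∀ s t, 0 ≤ s → 0 ≤ t → dist (r s) (r t) = |s - t|) :
    ∃ c : Line X, ∀ t, 0 ≤ t → c.1 t = r t := by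
  have h1 : ‖lg H (r 0) (r 1)‖ = 1 := by rw [norm_lg, hr 0 1 le_rfl zero_le_one]; norm_num
  refine ⟨rad H (r 0) _ h1, fun t ht => ?_⟩
  change ex H (r 0) (t • lg H (r 0) (r 1)) = r t
  rcases le_total t 1 with h | h
  · refine (pt_unique H ht h ?_ ?_).symm
    · rw [hr 0 t le_rfl ht, hr 0 1 le_rfl zero_le_one, zero_sub, abs_neg, abs_of_nonneg ht]
      norm_num
    · rw [hr t 1 ht zero_le_one, hr 0 1 le_rfl zero_le_one, abs_of_nonpos (by linarith)]
      norm_num
  · have ht' : 0 < t := by linarith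
    have : r 1 = pt H (r 0) (r t) (1 / t) := by
      refine pt_unique H (by positivity) (by rw [div_le_one ht']; exact h) ?_ ?_
      · rw [hr 0 t le_rfl ht, hr 0 1 le_rfl zero_le_one, zero_sub, zero_sub, abs_neg, abs_neg,
          abs_of_nonneg ht, abs_one]
        field_simp
      · rw [hr 1 t zero_le_one ht, hr 0 t le_rfl ht, zero_sub, abs_neg, abs_of_nonneg ht,
          abs_of_nonpos (by linarith)]
        field_simp
        ring
    rw [this, pt, lg_ex, smul_smul, mul_one_div_cancel ht'.ne', one_smul, ex_lg]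

/-- Busemann function of a line. -/
noncomputable def bus (c : Line X) (p : X) : ℝ := ⨅ S : ℝ, (dist p (c.1 S) - S)

/-- Forward asymptotic lines. -/
def Asym (c c' : Line X) : Prop := ∃ D : ℝ, ∀ t, 0 ≤ t → dist (c.1 t) (c'.1 t) ≤ D

end Pool.Agent.MP_3ee8cb_gt.G76
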