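import Pool.Agent.MP_3ee8cb_gt.G76.Spec

open Filter Topology

namespace Pool.Agent.MP_3ee8cb_gt.G76

variable {n : ℕ} {X : Type} [MetricSpace X]

theorem bus_near (c : Line X) (p : X) (S : ℝ) :
    abs (dist p (c.1 S) - |S|) ≤ dist p (c.1 0) := by
  have h := abs_dist_sub_le p (c.1 0) (c.1 S)
  rwa [Line.dist_eq, zero_sub, abs_neg] at h

theorem bus_bdd (c : Line X) (p : X) :
    BddBelow (Set.range fun S : ℝ => dist p (c.1 S) - S) := by
  refine ⟨-dist p (c.1 0), ?_⟩
  rintro _ ⟨S, rfl⟩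
  have := (abs_le.1 (bus_near c p S)).1
  have := le_abs_self S
  linarith

theorem bus_tend (c : Line X) (p : X) :
    Tendsto (fun S : ℝ => dist p (c.1 S) - S) atTop (𝓝 (bus c p)) := by
  refine tendsto_atTop_ciInf (fun S T h => ?_) (bus_bdd c p)
  have h1 := dist_triangle p (c.1 S) (c.1 T)
  rw [Line.dist_eq, abs_of_nonpos (by linarith)] at h1
  linarith

theorem bus_le (c : Line X) (p : X) (S : ℝ) : bus c p ≤ dist p (c.1 S) - S :=
  ciInf_le (bus_bdd c p) S

theorem bus_lip' (c : Line X) (p q : X) : bus c p - dist p q ≤ bus c q := by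
  refine le_ciInf fun S => ?_
  have := bus_le c p S
  have := dist_triangle p q (c.1 S)
  linarith

theorem bus_lip (c : Line X) (p q : X) : |bus c p - bus c q| ≤ dist p q := by
  have h1 := bus_lip' c p q
  have h2 := bus_lip' c q p
  rw [dist_comm] at h2
  rw [abs_le]
  constructor <;> linarith

theorem bus_self (c : Line X) (t : ℝ) : bus c (c.1 t) = -t := by
  refine tendsto_nhds_unique (bus_tend c _) (tendsto_const_nhds.congr' ?_)
  filter_upwards [eventually_ge_atTop t] with S hS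
  rw [Line.dist_eq, abs_of_nonpos (by linarith)]
  ring

theorem bus_cvx (H : Hadamard n X) (c : Line X) (p q : X) (s : ℝ) (h0 : 0 ≤ s) (h1 : s ≤ 1) :
    bus c (pt H p q s) ≤ (1 - s) * bus c p + s * bus c q := by
  refine le_of_tendsto_of_tendsto' (bus_tend c _)
    (((bus_tend c p).const_mul (1 - s)).add ((bus_tend c q).const_mul s)) fun S => ?_
  have := dist_pt_conv H (c.1 S) p q h0 h1
  rw [dist_comm, dist_comm (c.1 S) p, dist_comm (c.1 S) q] at this
  linarith

theorem bus_div (a : ℝ) : Tendsto (fun S : ℝ => a / S) atTop (𝓝 0) :=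
  tendsto_const_nhds.div_atTop tendsto_id

theorem bus_sq (c : Line X) (p : X) :
    Tendsto (fun S : ℝ => (dist p (c.1 S) ^ 2 - S ^ 2) / (2 * S)) atTop (𝓝 (bus c p)) := by
  have h := (bus_tend c p).add (((bus_tend c p).pow 2).mul (bus_div (1 / 2)))
  rw [mul_zero, add_zero] at h
  refine h.congr' ?_
  filter_upwards [eventually_gt_atTop 0] with S hS
  field_simp
  ring

theorem bus_rate (H : Hadamard n X) (c : Line X) (p : X) {S : ℝ} (hS : 0 < S) :
    dist p (c.1 S) - S - bus c p ≤ dist p (c.1 0) ^ 2 / (2 * S) := by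
  have key : dist p (c.1 S) ^ 2 - S ^ 2 ≤ dist p (c.1 0) ^ 2 + 2 * S * bus c p := by
    refine ge_of_tendsto (((bus_sq c p).const_mul (2 * S)).const_add _) ?_
    filter_upwards [eventually_ge_atTop S] with T hT
    have hT0 : 0 < T := hS.trans_le hT
    have s0 : 0 ≤ S / T := by positivity
    have s1 : S / T ≤ 1 := (div_le_one hT0).2 hT
    have h := cn H p (c.1 0) (c.1 T) s0 s1
    rw [pt_line H c 0 T s0 s1, Line.dist_eq, sq_abs,
      show (1 - S / T) * 0 + S / T * T = S by field_simp; ring] at h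
    have e1 : 2 * S * ((dist p (c.1 T) ^ 2 - T ^ 2) / (2 * T)) =
        S / T * dist p (c.1 T) ^ 2 - S * T := by
      field_simp
    have e2 : S / T * (1 - S / T) * (0 - T) ^ 2 = S * T - S ^ 2 := by
      field_simp
      ring
    rw [e1]
    rw [e2] at h
    nlinarith [mul_nonneg s0 (sq_nonneg (dist p (c.1 0)))]
  rw [le_div_iff₀ (by positivity)]
  nlinarith [sq_nonneg (dist p (c.1 S) - S)]

theorem bus_cont (H : Hadamard n X) : Continuous fun x : Line X × X => bus x.1 x.2 := by
  rw [continuous_iff_continuousAt]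
  intro x₀
  rw [ContinuousAt, Metric.tendsto_nhds]
  intro ε hε
  have hc : ∀ S : ℝ, Continuous fun x : Line X × X => dist x.2 (x.1.1 S) := fun S =>
    continuous_snd.dist ((line_eval_cont S).comp continuous_fst)
  obtain ⟨S, hS, hS'⟩ := ((eventually_gt_atTop 0).and
    ((bus_div ((dist x₀.2 (x₀.1.1 0) ^ 2 + 1) / 2)).eventually_lt_const (half_pos hε))).exists
  have h1 : ∀ᶠ x : Line X × X in 𝓝 x₀, dist x.2 (x.1.1 0) ^ 2 < dist x₀.2 (x₀.1.1 0) ^ 2 + 1 :=
    (((hc 0).pow 2).tendsto x₀).eventually_lt_const (lt_add_one _)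
  have h2 := Metric.tendsto_nhds.1 ((hc S).tendsto x₀) _ (half_pos hε)
  have r : ∀ x : Line X × X, dist x.2 (x.1.1 0) ^ 2 < dist x₀.2 (x₀.1.1 0) ^ 2 + 1 →
      dist x.2 (x.1.1 S) - S - bus x.1 x.2 < ε / 2 := by
    intro x hx
    refine (bus_rate H x.1 x.2 hS).trans_lt (lt_trans ?_ hS')
    rw [div_div]
    exact div_lt_div_of_pos_right hx (by positivity)
  filter_upwards [h1, h2] with x hx hx'
  have a1 := r x hx
  have a2 := r x₀ (lt_add_one _)
  have a3 := bus_le x.1 x.2 S
  have a4 := bus_le x₀.1 x₀.2 S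
  rw [Real.dist_eq, abs_lt] at hx' ⊢
  constructor <;> linarith [hx'.1, hx'.2]

theorem bus_four (H : Hadamard n X) {c c' : Line X} (h : Asym c c') (p q : X) :
    bus c p + bus c' q ≤ bus c q + bus c' p := by
  obtain ⟨D, hD⟩ := h
  have t := ((bus_sq c q).add (bus_sq c' p)).add (bus_div ((dist p q ^ 2 + D ^ 2) / 2))
  rw [add_zero] at t
  refine le_of_tendsto_of_tendsto ((bus_sq c p).add (bus_sq c' q)) t ?_
  filter_upwards [eventually_gt_atTop 0] with S hS
  have h1 := quad H p q (c.1 S) (c'.1 S)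
  have h2 : dist (c.1 S) (c'.1 S) ^ 2 ≤ D ^ 2 := pow_le_pow_left₀ dist_nonneg (hD S hS.le) 2
  rw [dist_comm (c'.1 S) p] at h1
  rw [div_div, ← add_div, ← add_div, ← add_div]
  exact div_le_div_of_nonneg_right (by linarith) (by positivity)

theorem bus_cocycle (H : Hadamard n X) (c c' : Line X) (h : Asym c c') (p : X) :
    bus c p = bus c' p + bus c (c'.1 0) := by
  have h1 := bus_four H h p (c'.1 0)
  have h2 := bus_four H h (c'.1 0) p
  have h3 := bus_self c' 0
  linarith

theorem bus_sum (c : Line X) (p : X) : 0 ≤ bus c p + bus (rev c) p := by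
  refine ge_of_tendsto' ((bus_tend c p).add (bus_tend (rev c) p)) fun S => ?_
  have h := dist_triangle_left (c.1 S) (c.1 (-S)) p
  rw [Line.dist_eq] at h
  have := le_abs_self (S - -S)
  rw [rev_apply]
  linarith

theorem bus_mono (H : Hadamard n X) (c c' : Line X) (h : Asym c c') (t : ℝ) (ht : 0 ≤ t) :
    dist (c.1 t) (c'.1 t) ≤ dist (c.1 0) (c'.1 0) := by
  obtain ⟨D, hD⟩ := h
  have l := (bus_div (t * D)).const_add (dist (c.1 0) (c'.1 0))
  rw [add_zero] at l
  refine ge_of_tendsto l ?_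
  filter_upwards [eventually_ge_atTop t, eventually_gt_atTop 0] with T hT hT0
  have s0 : 0 ≤ t / T := by positivity
  have s1 : t / T ≤ 1 := (div_le_one hT0).2 hT
  have h := line_conv H c c' 0 T 0 T s0 s1
  rw [show (1 - t / T) * 0 + t / T * T = t by field_simp; ring] at h
  have h2 := mul_le_mul_of_nonneg_left (hD T hT0.le) s0
  have h3 := mul_nonneg s0 (dist_nonneg (x := c.1 0) (y := c'.1 0))
  rw [show t * D / T = t / T * D by ring]
  nlinarith

theorem bus_uniq (H : Hadamard n X) (c c' : Line X) (h : Asym c c') (h0 : c.1 0 = c'.1 0) :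
    c = c' := by
  have h1 := bus_mono H c c' h 1 zero_le_one
  rw [h0, dist_self, dist_le_zero] at h1
  exact line_ext H zero_ne_one h0 h1

theorem bus_exi [ProperSpace X] (H : Hadamard n X) (hn : 0 < n) (c : Line X) (p : X) :
    ∃ c' : Line X, c'.1 0 = p ∧ Asym c c' ∧ ∀ Q : Set X, IsClosed Q →
    Cvx Q → p ∈ Q → (∀ t, 0 ≤ t → c.1 t ∈ Q) → ∀ t, 0 ≤ t → c'.1 t ∈ Q := by
  choose l l0 l1 using fun S : ℝ => exists_line H hn p (c.1 S)
  have hU : (Ultrafilter.of (atTop : Filter ℝ) : Filter ℝ) ≤ atTop := Ultrafilter.of_le _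
  obtain ⟨c', h0, hc'⟩ := (lines_compact (isCompact_singleton (x := p))).ultrafilter_le_nhds
    ((Ultrafilter.of (atTop : Filter ℝ)).map l) (by
      rw [Ultrafilter.coe_map, le_principal_iff, mem_map]
      exact univ_mem' fun S => l0 S)
  have lim : ∀ t, Tendsto (fun S => (l S).1 t) (Ultrafilter.of (atTop : Filter ℝ) : Filter ℝ)
      (𝓝 (c'.1 t)) := fun t => ((line_eval_cont t).tendsto c').comp hc'
  have big : ∀ t : ℝ, ∀ᶠ S : ℝ in atTop, 0 ≤ S ∧ t < dist p (c.1 S) := by
    intro t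
    filter_upwards [eventually_ge_atTop 0, eventually_gt_atTop (t + dist p (c.1 0))] with S a b
    have := (abs_le.1 (bus_near c p S)).1
    rw [abs_of_nonneg a] at this
    exact ⟨a, by linarith⟩
  refine ⟨c', h0, ⟨2 * dist p (c.1 0), fun t ht => ?_⟩, fun Q hQ hC hp hr t ht => ?_⟩
  · refine le_of_tendsto (tendsto_const_nhds.dist (lim t)) (hU ?_)
    filter_upwards [big t] with S hS
    have hd : 0 < dist p (c.1 S) := ht.trans_lt hS.2
    have s0 : 0 ≤ t / dist p (c.1 S) := by positivity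
    have s1 : t / dist p (c.1 S) ≤ 1 := (div_le_one hd).2 hS.2.le
    have h := line_conv H c (l S) 0 S 0 (dist p (c.1 S)) s0 s1
    rw [l0, l1, dist_self, mul_zero, zero_add, zero_add, mul_zero, add_zero,
      div_mul_cancel₀ _ hd.ne', dist_comm (c.1 0) p] at h
    have h2 := dist_triangle (c.1 t) (c.1 (t / dist p (c.1 S) * S)) ((l S).1 t)
    have h3 := bus_near c p S
    rw [abs_of_nonneg hS.1] at h3
    rw [Line.dist_eq, show t - t / dist p (c.1 S) * S =
      t / dist p (c.1 S) * (dist p (c.1 S) - S) by field_simp, abs_mul, abs_of_nonneg s0] at h2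
    have h4 := mul_le_mul s1 h3 (abs_nonneg _) zero_le_one
    have h5 := mul_nonneg s0 (dist_nonneg (x := p) (y := c.1 0))
    show dist (c.1 t) ((l S).1 t) ≤ 2 * dist p (c.1 0)
    nlinarith
  · refine hQ.mem_of_tendsto (lim t) (hU ?_)
    filter_upwards [big t] with S hS
    have h := btw_line (l S) ht hS.2.le
    rw [l0, l1] at h
    exact hC p hp _ (hr S hS.1) _ h

theorem bus_var (H : Hadamard n X) (c : Line X) (u : E n) :
    Tendsto (fun t : ℝ => bus c (ex H (c.1 0) (t • u)) / t) (𝓝[>] 0)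
      (𝓝 (-inner ℝ u (lg H (c.1 0) (c.1 1)))) := by
  obtain ⟨hθ, hc⟩ := line_radial H c
  generalize lg H (c.1 0) (c.1 1) = θ at hθ hc
  generalize c.1 0 = x at hc
  rw [tendsto_order]
  constructor
  · intro y hy
    filter_upwards [self_mem_nhdsWithin] with t ht
    have ht : 0 < t := ht
    refine hy.trans_le ?_
    rw [le_div_iff₀ ht]
    refine le_ciInf fun S => ?_
    have h1 := ex_exp H x (S • θ) (t • u)
    have h2 := real_inner_le_norm (S • θ - t • u) θ
    rw [inner_sub_left, real_inner_smul_left, real_inner_smul_left, real_inner_self_eq_norm_sq,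
      hθ] at h2
    rw [hc S, dist_comm]
    linarith
  · intro y hy
    obtain ⟨δ, hδ, hy'⟩ : ∃ δ : ℝ, 0 < δ ∧ -inner ℝ u θ + δ < y :=
      ⟨(y + inner ℝ u θ) / 2, by linarith, by linarith⟩
    obtain ⟨M, hM⟩ : ∃ M : ℝ, M = inner ℝ u θ + ‖u‖ ^ 2 / (2 * δ) := ⟨_, rfl⟩
    have h0 : 0 ≤ ‖u‖ ^ 2 / (2 * δ) := by positivity
    have h1 : ‖u - M • θ‖ ≤ M - inner ℝ u θ + δ := by
      refine abs_le_of_sq_le_sq' ?_ (by linarith) |>.2
      rw [norm_sub_sq_real, real_inner_smul_right, norm_smul, hθ, mul_one, Real.norm_eq_abs, sq_abs]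
      have e : 2 * δ * (M - inner ℝ u θ) = ‖u‖ ^ 2 := by
        rw [hM]
        field_simp
        ring
      nlinarith [sq_nonneg (inner ℝ u θ), sq_nonneg δ]
    have h2 := (ex_lim H x u (M • θ)).eventually_lt_const (u := y + M) (by linarith)
    filter_upwards [self_mem_nhdsWithin, h2] with t ht h3
    have ht : 0 < t := ht
    have h4 := bus_le c (ex H x (t • u)) (t * M)
    rw [hc (t * M), mul_smul] at h4
    rw [div_lt_iff₀ ht] at h3 ⊢
    linarith

theorem bus_main : SpBus := fun _ _ _ _ H hn =>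
  { tend := bus_tend
    le := bus_le
    lip := bus_lip
    self := bus_self
    cvx := bus_cvx H
    cont := bus_cont H
    cocycle := bus_cocycle H
    sum := bus_sum
    mono := bus_mono H
    uniq := bus_uniq H
    exi := bus_exi H hn
    var := bus_var H }

end Pool.Agent.MP_3ee8cb_gt.G76
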