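import Pool.Agent.MP_3ee8cb_gt.G76.Spec

open Filter Topology

namespace Pool.Agent.MP_3ee8cb_gt.G76

section con

variable {n : ℕ} {X Y Γ : Type} [MetricSpace X] [MetricSpace Y] [Group Γ] [MulAction Γ X]
  {b : Γ → Y → Y} {F : Line X → Line Y}

theorem con_flo (C : Conj Γ b F) (c : Line X) (t : ℝ) : (F (flow t c)).1 0 = (F c).1 t := by
  rw [C.flo, flow_apply, zero_add]

theorem con_equi (C : Conj Γ b F) (γ : Γ) (c c' : Line X) :
    dist ((F (mapL (C.isoX γ) c)).1 0) ((F (mapL (C.isoX γ) c')).1 0) =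
      dist ((F c).1 0) ((F c').1 0) := by
  rw [C.equi, C.equi, mapL_apply, mapL_apply, (C.isoY γ).dist_eq]

theorem con_cont (C : Conj Γ b F) : Continuous fun c : Line X => (F c).1 0 :=
  (line_eval_cont 0).comp C.cont

theorem con_same [ProperSpace X] (C : Conj Γ b F) :
    ∃ M : ℝ, ∀ c c' : Line X, c.1 0 = c'.1 0 → dist ((F c).1 0) ((F c').1 0) ≤ M := by
  obtain ⟨K, hK, hcov⟩ := C.cpt
  have h1 := ((lines_compact hK).image (con_cont C)).isBounded
  obtain ⟨M, hM⟩ := Metric.isBounded_iff.1 h1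
  refine ⟨M, fun c c' h => ?_⟩
  obtain ⟨γ, hγ⟩ := hcov (c.1 0)
  rw [← con_equi C γ]
  refine hM ⟨mapL (C.isoX γ) c, hγ, rfl⟩ ⟨mapL (C.isoX γ) c', ?_, rfl⟩
  change γ • c'.1 0 ∈ K
  rwa [← h]

theorem con_rough [ProperSpace X] (H : Hadamard n X) (hn : 0 < n) (C : Conj Γ b F) :
    ∃ K : ℝ, ∀ c c' : Line X,
      |dist ((F c).1 0) ((F c').1 0) - dist (c.1 0) (c'.1 0)| ≤ K := by
  obtain ⟨M, hM⟩ := con_same C
  refine ⟨2 * M, fun c c' => ?_⟩
  obtain ⟨w, h0, h1⟩ := exists_line H hn (c.1 0) (c'.1 0)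
  set L := dist (c.1 0) (c'.1 0) with hL
  have hL0 : 0 ≤ L := dist_nonneg
  have e1 := hM c w h0.symm
  have e2 := hM c' (flow L w) (by rw [flow_apply, zero_add, h1])
  rw [con_flo C] at e2
  have e3 : dist ((F w).1 0) ((F w).1 L) = L := by
    rw [Line.dist_eq, zero_sub, abs_neg, abs_of_nonneg hL0]
  have e6 := dist_triangle4 ((F c).1 0) ((F w).1 0) ((F w).1 L) ((F c').1 0)
  have e7 := dist_triangle4 ((F w).1 0) ((F c).1 0) ((F c').1 0) ((F w).1 L)
  rw [dist_comm ((F w).1 L) ((F c').1 0)] at e6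
  rw [dist_comm ((F w).1 0) ((F c).1 0)] at e7
  rw [abs_le]
  constructor <;> linarith

theorem con_uc [ProperSpace X] (H : Hadamard n X) (C : Conj Γ b F) (ε : ℝ) (hε : 0 < ε) :
    ∃ δ : ℝ, 0 < δ ∧ ∀ (c c' : Line X) (τ : ℝ), τ = 1 ∨ τ = -1 →
      dist (c.1 0) (c'.1 0) ≤ δ → dist (c.1 τ) (c'.1 τ) ≤ δ →
      dist ((F c).1 0) ((F c').1 0) ≤ ε := by
  obtain ⟨K, hK, hcov⟩ := C.cpt
  have hK1 : IsCompact (Metric.cthickening 1 K) := hK.cthickening
  let f : Line X × Line X → ℝ := fun z => dist (z.1.1 0) (z.2.1 0) +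
    min (dist (z.1.1 1) (z.2.1 1)) (dist (z.1.1 (-1)) (z.2.1 (-1)))
  have hd : ∀ t : ℝ, Continuous fun z : Line X × Line X => dist (z.1.1 t) (z.2.1 t) := fun t =>
    ((line_eval_cont t).comp continuous_fst).dist ((line_eval_cont t).comp continuous_snd)
  have hf : Continuous f := (hd 0).add ((hd 1).min (hd (-1)))
  have hg : Continuous fun z : Line X × Line X => dist ((F z.1).1 0) ((F z.2).1 0) :=
    ((con_cont C).comp continuous_fst).dist ((con_cont C).comp continuous_snd)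
  have hS : IsCompact ((({c : Line X | c.1 0 ∈ K} ×ˢ
      {c : Line X | c.1 0 ∈ Metric.cthickening 1 K}) : Set (Line X × Line X)) ∩
      {z | ε ≤ dist ((F z.1).1 0) ((F z.2).1 0)}) :=
    ((lines_compact hK).prod (lines_compact hK1)).inter_right (isClosed_le continuous_const hg)
  obtain ⟨a, ha, hmin⟩ := hS.exists_forall_le' hf.continuousOn (a := 0) (by
    rintro ⟨c, c'⟩ ⟨-, hz⟩
    have hz' : ε ≤ dist ((F c).1 0) ((F c').1 0) := hz
    by_contra hle
    have hle' : dist (c.1 0) (c'.1 0) +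
      min (dist (c.1 1) (c'.1 1)) (dist (c.1 (-1)) (c'.1 (-1))) ≤ 0 := not_lt.1 hle
    have p0 : 0 ≤ dist (c.1 0) (c'.1 0) := dist_nonneg
    have p1 : 0 ≤ min (dist (c.1 1) (c'.1 1)) (dist (c.1 (-1)) (c'.1 (-1))) :=
      le_min dist_nonneg dist_nonneg
    have q0 : c.1 0 = c'.1 0 := dist_le_zero.1 (by linarith)
    have q1 : min (dist (c.1 1) (c'.1 1)) (dist (c.1 (-1)) (c'.1 (-1))) ≤ 0 := by linarith
    have : c = c' := by
      rcases min_le_iff.1 q1 with q | q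
      · exact line_ext H (by norm_num : (0 : ℝ) ≠ 1) q0 (dist_le_zero.1 q)
      · exact line_ext H (by norm_num : (0 : ℝ) ≠ -1) q0 (dist_le_zero.1 q)
    rw [this, dist_self] at hz'
    linarith)
  refine ⟨min (a / 3) 1, lt_min (by linarith) one_pos, fun c c' τ hτ h0 h1 => ?_⟩
  obtain ⟨γ, hγ⟩ := hcov (c.1 0)
  rw [← con_equi C γ]
  by_contra hlt
  have hi : ∀ t, dist ((mapL (C.isoX γ) c).1 t) ((mapL (C.isoX γ) c').1 t) =
      dist (c.1 t) (c'.1 t) := fun t => (C.isoX γ).dist_eq _ _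
  have hmem : (mapL (C.isoX γ) c').1 0 ∈ Metric.cthickening 1 K :=
    Metric.mem_cthickening_of_dist_le _ ((mapL (C.isoX γ) c).1 0) _ _ hγ (by
      rw [dist_comm, hi]; exact h0.trans (min_le_right _ _))
  have h2 := hmin (mapL (C.isoX γ) c, mapL (C.isoX γ) c') ⟨⟨hγ, hmem⟩, (not_le.1 hlt).le⟩
  simp only [f, hi] at h2
  have h3 : min (dist (c.1 1) (c'.1 1)) (dist (c.1 (-1)) (c'.1 (-1))) ≤ dist (c.1 τ) (c'.1 τ) := by
    rcases hτ with rfl | rfl
    · exact min_le_left _ _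
    · exact min_le_right _ _
  have h4 := min_le_left (a / 3) 1
  linarith

/-- Two lines through one point that are still close after a long time have close images. -/
theorem con_shadow [ProperSpace X] (H : Hadamard n X) (C : Conj Γ b F) (ε : ℝ) (hε : 0 < ε)
    (D : ℝ) : ∃ T₀ : ℝ, 0 ≤ T₀ ∧ ∀ (w d : Line X) (a a' τ T : ℝ), τ = 1 ∨ τ = -1 → T₀ ≤ T →
      w.1 a = d.1 a' → dist (w.1 (τ * T + a)) (d.1 (τ * T + a')) ≤ D →
      dist ((F w).1 a) ((F d).1 a') ≤ ε := by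
  obtain ⟨δ, hδ, h⟩ := con_uc H C ε hε
  refine ⟨1 + |D| / δ, by positivity, fun w d a a' τ T hτ hT h0 h1 => ?_⟩
  have hq : 0 ≤ |D| / δ := by positivity
  have hT0 : 0 < T := by linarith
  rw [← con_flo C w, ← con_flo C d]
  refine h _ _ τ hτ ?_ ?_
  · rw [flow_apply, flow_apply, zero_add, zero_add, h0, dist_self]; exact hδ.le
  · have e := line_conv H w d a (τ * T + a) a' (τ * T + a') (s := 1 / T) (by positivity)
      (by rw [div_le_one hT0]; linarith)
    rw [h0, dist_self, show (1 - 1 / T) * a + 1 / T * (τ * T + a) = τ + a by field_simp; ring,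
      show (1 - 1 / T) * a' + 1 / T * (τ * T + a') = τ + a' by field_simp; ring] at e
    rw [flow_apply, flow_apply]
    refine e.trans ?_
    rw [mul_zero, zero_add, one_div, inv_mul_le_iff₀ hT0]
    have e2 : |D| / δ ≤ T := by linarith
    rw [div_le_iff₀ hδ] at e2
    exact h1.trans ((le_abs_self D).trans e2)

/-- The line from `c 0` to `c' h` has ends whose images are close to those of `c` and `c'`. -/
theorem con_ends [ProperSpace X] (H : Hadamard n X) (C : Conj Γ b F) (ε : ℝ) (hε : 0 < ε)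
    (c c' : Line X) (D : ℝ) (hD : ∀ t, 0 ≤ t → dist (c.1 t) (c'.1 t) ≤ D) :
    ∃ h₀ : ℝ, 0 ≤ h₀ ∧ ∀ h, h₀ ≤ h → |dist (c.1 0) (c'.1 h) - h| ≤ D ∧ ∀ w : Line X,
      w.1 0 = c.1 0 → w.1 (dist (c.1 0) (c'.1 h)) = c'.1 h →
      dist ((F w).1 0) ((F c).1 0) ≤ ε ∧
        dist ((F w).1 (dist (c.1 0) (c'.1 h))) ((F c').1 h) ≤ ε := by
  obtain ⟨T₀, hT₀, hT⟩ := con_shadow H C ε hε (2 * D)
  have hD0 := hD 0 le_rfl
  have hD1 : 0 ≤ D := dist_nonneg.trans hD0
  refine ⟨T₀ + D, by linarith, fun h hh => ?_⟩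
  have hh0 : 0 ≤ h := by linarith
  set L := dist (c.1 0) (c'.1 h) with hL
  have e1 : |L - h| ≤ D := by
    have := abs_dist_sub_le (c.1 0) (c'.1 0) (c'.1 h)
    rw [Line.dist_eq, zero_sub, abs_neg, abs_of_nonneg hh0] at this
    exact this.trans hD0
  have e2 : T₀ ≤ L := by linarith [(abs_le.1 e1).1]
  refine ⟨e1, fun w h0 h1 => ⟨?_, ?_⟩⟩
  · refine hT w c 0 0 1 L (Or.inl rfl) e2 h0 ?_
    rw [one_mul, add_zero, h1]
    have := dist_triangle (c'.1 h) (c.1 h) (c.1 L)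
    rw [Line.dist_eq, abs_sub_comm, dist_comm (c'.1 h) (c.1 h)] at this
    linarith [hD h hh0]
  · refine hT w c' L h (-1) L (Or.inr rfl) e2 h1 ?_
    rw [show -1 * L + L = 0 by ring, h0]
    have := dist_triangle (c.1 0) (c'.1 0) (c'.1 (-1 * L + h))
    rw [Line.dist_eq, show 0 - (-1 * L + h) = L - h by ring] at this
    linarith

theorem con_asym_symm {c c' : Line X} (h : Asym c c') : Asym c' c :=
  let ⟨D, hD⟩ := h
  ⟨D, fun t ht => by rw [dist_comm]; exact hD t ht⟩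

theorem con_near_symm {c c' : Line X} (h : Near c.1 c'.1) : Near c'.1 c.1 :=
  let ⟨D, hD⟩ := h
  ⟨D, fun t => by rw [dist_comm]; exact hD t⟩

theorem con_near_trans {c c' c'' : Line X} (h : Near c.1 c'.1) (h' : Near c'.1 c''.1) :
    Near c.1 c''.1 :=
  let ⟨D, hD⟩ := h
  let ⟨D', hD'⟩ := h'
  ⟨D + D', fun t => (dist_triangle _ _ _).trans (add_le_add (hD t) (hD' t))⟩

theorem con_near_asym {c c' : Line X} (h : Near c.1 c'.1) : Asym c c' :=
  let ⟨D, hD⟩ := h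
  ⟨D, fun t _ => hD t⟩

theorem con_time [ProperSpace X] (H : Hadamard n X) (hn : 0 < n) (C : Conj Γ b F) :
    ∃ K : ℝ, ∀ (c c' : Line X) (t : ℝ),
      dist ((F c).1 t) ((F c').1 t) ≤ dist (c.1 t) (c'.1 t) + K := by
  obtain ⟨K, hK⟩ := con_rough H hn C
  refine ⟨K, fun c c' t => ?_⟩
  have := (abs_le.1 (hK (flow t c) (flow t c'))).2
  rw [con_flo C, con_flo C, flow_apply, flow_apply, zero_add] at this
  linarith

theorem con_near [ProperSpace X] (H : Hadamard n X) (hn : 0 < n) (C : Conj Γ b F)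
    (c c' : Line X) (h : Near c.1 c'.1) : Near (F c).1 (F c').1 := by
  obtain ⟨K, hK⟩ := con_time H hn C
  obtain ⟨D, hD⟩ := h
  exact ⟨D + K, fun t => (hK c c' t).trans (by linarith [hD t])⟩

theorem con_sync [ProperSpace X] (H : Hadamard n X) (H' : Hadamard n Y) (hn : 0 < n)
    (B : BusF H) (B' : BusF H') (C : Conj Γ b F) (c c' : Line X) (h : Asym c c') :
    Asym (F c) (F c') ∧ bus (F c) ((F c').1 0) = bus c (c'.1 0) := by
  constructor
  · obtain ⟨K, hK⟩ := con_time H hn C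
    obtain ⟨D, hD⟩ := h
    exact ⟨D + K, fun t ht => (hK c c' t).trans (by linarith [hD t ht])⟩
  obtain ⟨D, hD⟩ := con_asym_symm h
  have ht := ((B'.tend (F c) ((F c').1 0)).sub (B.tend c (c'.1 0))).abs
  rw [← sub_eq_zero, ← abs_nonpos_iff]
  refine le_of_forall_pos_le_add fun ε hε => ?_
  obtain ⟨h₀, -, hh⟩ := con_ends H C (ε / 2) (by linarith) c' c D hD
  refine le_of_tendsto ht ?_
  filter_upwards [eventually_ge_atTop h₀] with S hS
  obtain ⟨w, h0, h1⟩ := exists_line H hn (c'.1 0) (c.1 S)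
  obtain ⟨e1, e2⟩ := (hh S hS).2 w h0 h1
  set L := dist (c'.1 0) (c.1 S) with hL
  have hL0 : 0 ≤ L := dist_nonneg
  have e3 : dist ((F w).1 0) ((F w).1 L) = L := by
    rw [Line.dist_eq, zero_sub, abs_neg, abs_of_nonneg hL0]
  have e6 := dist_triangle4 ((F c').1 0) ((F w).1 0) ((F w).1 L) ((F c).1 S)
  have e7 := dist_triangle4 ((F w).1 0) ((F c').1 0) ((F c).1 S) ((F w).1 L)
  rw [dist_comm ((F c').1 0) ((F w).1 0)] at e6
  rw [dist_comm ((F c).1 S) ((F w).1 L)] at e7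
  rw [abs_le]
  constructor <;> linarith

theorem con_aff [ProperSpace X] (H : Hadamard n X) (H' : Hadamard n Y) (hn : 0 < n)
    (B : BusF H) (P : ParF H) (P' : ParF H') (C : Conj Γ b F) (c c' d : Line X)
    (hc : Near c.1 c'.1) (hd : Near c.1 d.1) (s : ℝ) (s0 : 0 ≤ s) (s1 : s ≤ 1)
    (h0 : d.1 0 = pt H (c.1 0) (c'.1 0) s) :
    (F d).1 0 = pt H' ((F c).1 0) ((F c').1 0) s := by
  have hdc : Near d.1 c'.1 := con_near_trans (con_near_symm hd) hc
  rcases s1.eq_or_lt with rfl | s1'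
  · rw [pt_one] at h0 ⊢
    rw [B.uniq d c' (con_near_asym hdc) h0]
  obtain ⟨e, he, -, hpe⟩ := P.mid c c' hc s s0 s1
  have hde : d = e := by
    refine B.uniq d e (con_near_asym (con_near_trans (con_near_symm hd) he)) ?_
    rw [h0, hpe]; simp
  subst hde
  obtain ⟨e', he', -, hpe'⟩ := P'.mid (F c) (F c') (con_near H hn C c c' hc) s s0 s1
  have hne : Near (F d).1 e'.1 :=
    con_near_trans (con_near_symm (con_near H hn C c d hd)) he'
  rw [hpe', show (1 - s) * 0 + s * 0 = (0 : ℝ) by ring, ← dist_le_zero]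
  refine le_of_forall_pos_le_add fun ε hε => ?_
  obtain ⟨D, hD⟩ := hc
  obtain ⟨D', hD'⟩ := hdc
  obtain ⟨h₀, hh₀, hh⟩ := con_ends H C (ε / 2) (by linarith) c c' D fun t _ => hD t
  obtain ⟨T₀, hT₀, hT⟩ := con_shadow H C (ε / 2) (by linarith) (D' + D)
  have hD1 : 0 ≤ D := dist_nonneg.trans (hD 0)
  have hs : 0 < 1 - s := by linarith
  have hq : 0 ≤ T₀ / (1 - s) := by positivity
  obtain ⟨h, hdef⟩ : ∃ h : ℝ, h = h₀ + D + T₀ / (1 - s) := ⟨_, rfl⟩
  obtain ⟨e0, hw⟩ := hh h (by linarith)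
  obtain ⟨w, w0, w1⟩ := exists_line H hn (c.1 0) (c'.1 h)
  obtain ⟨e1, e2⟩ := hw w w0 w1
  set L := dist (c.1 0) (c'.1 h) with hL
  have hLT : T₀ ≤ (1 - s) * L := by
    have : T₀ / (1 - s) ≤ L := by linarith [(abs_le.1 e0).1]
    rw [div_le_iff₀ hs] at this
    linarith
  have m1 : w.1 ((1 - s) * 0 + s * L) = d.1 ((1 - s) * 0 + s * h) := by
    rw [← pt_line H w 0 L s0 s1, w0, w1, hpe]
  have m2 := hT w d _ _ 1 ((1 - s) * L) (Or.inl rfl) hLT m1 (by
    rw [show 1 * ((1 - s) * L) + ((1 - s) * 0 + s * L) = L by ring, w1]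
    have := dist_triangle (c'.1 h) (d.1 h) (d.1 (1 * ((1 - s) * L) + ((1 - s) * 0 + s * h)))
    rw [Line.dist_eq, show h - (1 * ((1 - s) * L) + ((1 - s) * 0 + s * h)) =
      -((1 - s) * (L - h)) by ring, abs_neg, abs_mul, abs_of_pos hs,
      dist_comm (c'.1 h) (d.1 h)] at this
    have h2 : (1 - s) * |L - h| ≤ D := by nlinarith [abs_nonneg (L - h)]
    linarith [hD' h])
  have m3 := pt_conv H' ((F w).1 0) ((F w).1 L) ((F c).1 0) ((F c').1 h) s0 s1
  rw [pt_line H' (F w) 0 L s0 s1, hpe'] at m3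
  have m4 : (1 - s) * dist ((F w).1 0) ((F c).1 0) + s * dist ((F w).1 L) ((F c').1 h) ≤ ε / 2 := by
    nlinarith [mul_le_mul_of_nonneg_left e1 hs.le, mul_le_mul_of_nonneg_left e2 s0]
  rw [← P'.const _ _ hne ((1 - s) * 0 + s * h)]
  have m5 := dist_triangle_left ((F d).1 ((1 - s) * 0 + s * h)) (e'.1 ((1 - s) * 0 + s * h))
    ((F w).1 ((1 - s) * 0 + s * L))
  linarith

theorem con_rev_flow (t : ℝ) (c : Line X) : rev (flow t c) = flow (-t) (rev c) := by
  apply Subtype.ext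
  funext s
  simp only [rev_apply, flow_apply]
  rw [show -(s + -t) = -s + t by ring]

theorem con_rev (C : Conj Γ b F) : Conj Γ b fun c => rev (F (rev c)) where
  isoX := C.isoX
  cpt := C.cpt
  isoY := C.isoY
  cont := rev_cont.comp (C.cont.comp rev_cont)
  surj := fun d => by
    obtain ⟨c, hc⟩ := C.surj (rev d)
    exact ⟨rev c, by simp only [rev_rev, hc]⟩
  flo := fun t c => by rw [con_rev_flow, C.flo, con_rev_flow, neg_neg]
  equi := fun γ c => by
    have : rev (mapL (C.isoX γ) c) = mapL (C.isoX γ) (rev c) := rfl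
    rw [this, C.equi]
    rfl

end con

theorem con_main : SpCon := by
  intro n X Y Γ _ _ _ _ _ H H' hn B P B' P' b F C
  refine ⟨con_rough H hn C, con_uc H C, con_near H hn C, con_aff H H' hn B P P' C,
    con_sync H H' hn B B' C, fun c c' h => ?_⟩
  have := con_sync H H' hn B B' (con_rev C) (rev c) (rev c') h
  simpa only [rev_rev, rev_apply, neg_zero] using this

end Pool.Agent.MP_3ee8cb_gt.G76
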