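import Mathlib

open Filter Topology

namespace Pool.Agent.MP_3ee8cb_gt.G76

/-- Euclidean `n`-space. -/
abbrev E (n : ℕ) := EuclideanSpace ℝ (Fin n)

/-- `X` has at every point an exponential map with the properties of the exponential map of a
complete simply connected `n`-manifold of nonpositive curvature. -/
def Hadamard (n : ℕ) (X : Type) [MetricSpace X] : Prop :=
  ∀ x : X, ∃ e : E n → X, e 0 = x ∧ Function.Surjective e ∧
    (∀ (a : E n) (s t : ℝ), dist (e (s • a)) (e (t • a)) = |s - t| * ‖a‖) ∧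
    (∀ a b : E n, ‖a - b‖ ≤ dist (e a) (e b)) ∧
    ∀ a b : E n, Tendsto (fun t : ℝ => dist (e (t • a)) (e (t • b)) / t) (𝓝[>] 0) (𝓝 ‖a - b‖)

/-- Unit speed geodesic lines, with the topology of pointwise convergence. -/
abbrev Line (X : Type) [MetricSpace X] := {c : ℝ → X // Isometry c}

/-- The geodesic flow. -/
def flow {X : Type} [MetricSpace X] (t : ℝ) (c : Line X) : Line X :=
  ⟨fun s => c.1 (s + t), c.2.comp (isometry_add_right t)⟩

/-- Two lines in one orbit of `Γ`. -/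
def orb (Γ X : Type) [Group Γ] [MetricSpace X] [MulAction Γ X] : Setoid (Line X) where
  r c c' := ∃ γ : Γ, ∀ t, c'.1 t = γ • c.1 t
  iseqv := ⟨fun _ => ⟨1, fun _ => (one_smul _ _).symm⟩,
    fun ⟨γ, h⟩ => ⟨γ⁻¹, fun t => by rw [h t, inv_smul_smul]⟩,
    fun ⟨γ, h⟩ ⟨δ, k⟩ => ⟨δ * γ, fun t => by rw [k t, h t, mul_smul]⟩⟩

/-- The unit tangent bundle of `X / Γ`: lines modulo `Γ`. -/
abbrev UT (Γ X : Type) [Group Γ] [MetricSpace X] [MulAction Γ X] := Quotient (orb Γ X)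

/-- A free, properly discontinuous, cocompact action by isometries. -/
def Deck (Γ X : Type) [Group Γ] [MetricSpace X] [MulAction Γ X] : Prop :=
  (∀ γ : Γ, Isometry fun x : X => γ • x) ∧ (∀ (γ : Γ) (x : X), γ • x = x → γ = 1) ∧
    ProperlyDiscontinuousSMul Γ X ∧ ∃ K : Set X, IsCompact K ∧ ∀ x : X, ∃ γ : Γ, γ • x ∈ K

/-- Maps at bounded distance. -/
def Near {α X : Type} [MetricSpace X] (f g : α → X) : Prop := ∃ D : ℝ, ∀ a, dist (f a) (g a) ≤ D

/-- `x` lies between `p` and `q`. -/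
def Btw {X : Type} [MetricSpace X] (p x q : X) : Prop := dist p x + dist x q = dist p q

/-- The component of `z` orthogonal to the unit vector `v`. -/
noncomputable def perp {m : ℕ} (v z : E m) : E m := z - inner ℝ z v • v

/-- The union of the segments from `j z` to `k z`. -/
def slab {m : ℕ} {X : Type} [MetricSpace X] (j k : E m → X) : Set X :=
  {x | ∃ z, Btw (j z) x (k z)}

/-- A geometric graph manifold structure with one dimensional fibres and flat walls. -/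
structure Graph (m : ℕ) (Γ X : Type) [Group Γ] [MetricSpace X] [MulAction Γ X] where
  I : Type
  A : Type
  Q : I → Set X
  L : I → Line X
  pc : A → I
  op : A → A
  j : A → E m → X
  v : A → E m
  ne : Nonempty A
  op_op : ∀ a, op (op a) = a
  closed : ∀ i, IsClosed (Q i)
  convex : ∀ i, ∀ p ∈ Q i, ∀ q ∈ Q i, ∀ x, Btw p x q → x ∈ Q i
  base : ∀ i t, (L i).1 t ∈ Q i
  fibre : ∀ i, ∀ p ∈ Q i, ∃ c : Line X, c.1 0 = p ∧ Near c.1 (L i).1 ∧ ∀ t, c.1 t ∈ Q i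
  flat : ∀ a, Isometry (j a)
  mem : ∀ a z, j a z ∈ Q (pc a)
  unit : ∀ a, ‖v a‖ = 1
  dir : ∀ a, Near (fun t : ℝ => j a (t • v a)) (L (pc a)).1
  width : ∀ a, ∃ w : ℝ, ∀ y z, dist (j a y) (j (op a) z) ^ 2 = ‖z - y‖ ^ 2 + w ^ 2
  trans : ∀ a, v (op a) ≠ v a ∧ v (op a) ≠ -v a
  sep : ∀ a, ∀ p ∈ Q (pc a), ∀ q ∈ Q (pc (op a)), ∃ z, Btw p (j a z) q
  front : ∀ i, ∀ x ∈ frontier (Q i), ∃ a z, pc a = i ∧ x = j a z
  torus : ∀ a, ∃ R : ℝ, ∀ z, ∃ (γ : Γ) (y : E m), ‖z + y‖ ≤ R ∧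
    (∀ u, γ • j a u = j a (u + y)) ∧ ∀ p ∈ Q (pc a), γ • p ∈ Q (pc a)
  thin : ∀ a (k : E m → X), Isometry k → Near k (j a) → (∀ z, k z ∈ Q (pc a)) →
    ∀ z, k z ∈ Set.range (j a)
  visible : ∀ a, ∃ (a' : A) (C : ℝ), pc a' = pc a ∧ ∀ z z',
    ‖perp (v a) z‖ + ‖perp (v a') z'‖ ≤ dist (j a z) (j a' z') + C
  cover : ∀ x, ∃ r, x ∈ Sum.elim Q (fun a => slab (j a) (j (op a))) r
  locfin : LocallyFinite (Sum.elim Q fun a => slab (j a) (j (op a)))
  meet : ∀ r r', (Sum.elim Q (fun a => slab (j a) (j (op a))) r ∩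
      Sum.elim Q (fun a => slab (j a) (j (op a))) r').Nonempty → r = r' ∨ ∃ a,
    ({r, r'} : Set (I ⊕ A)) ⊆ {.inl (pc a), .inl (pc (op a)), .inr a, .inr (op a)}

end Pool.Agent.MP_3ee8cb_gt.G76
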