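import Pool.Agent.MP_3ee8cb_gt.G76.Lift

open Filter Topology

namespace Pool.Agent.MP_3ee8cb_gt.G76

theorem fin_main (hB : SpBus) (hP : SpPar) (hF : SpFla) (hL : SpLift') (hC : SpCon) (hW : SpWal)
    (hI : SpIso) (hS : SpSep) (hT : SpTwi) (hG : SpGlu) (hU : SpUni)
    (m : ℕ) (hm : 3 ≤ m) (X Y Γ Λ : Type) [MetricSpace X] [ProperSpace X] [MetricSpace Y]
    [ProperSpace Y] [Group Γ] [Group Λ] [MulAction Γ X] [MulAction Λ Y]
    (H : Hadamard (m + 1) X) (H' : Hadamard (m + 1) Y) (dX : Deck Γ X) (dY : Deck Λ Y)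
    (G : Graph m Γ X) (h : UT Γ X ≃ₜ UT Λ Y)
    (hh : ∀ (t : ℝ) (c : Line X) (c' : Line Y), h (Quotient.mk _ c) = Quotient.mk _ c' →
      h (Quotient.mk _ (flow t c)) = Quotient.mk _ (flow t c')) :
    ∃ (φ : X ≃ᵢ Y) (ρ : Γ ≃* Λ), ∀ (γ : Γ) (x : X), φ (γ • x) = ρ γ • φ x := by
  have bx := hB _ X H m.succ_pos
  have by' := hB _ Y H' m.succ_pos
  have px := hP _ X H m.succ_pos bx
  have py := hP _ Y H' m.succ_pos by'
  have gx : Geo H := ⟨bx, px, hF m X H⟩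
  have gy : Geo H' := ⟨by', py, hF m Y H'⟩
  obtain ⟨ρ, F, cj⟩ := hL (m + 1) X Y Γ Λ (by omega) ⟨G.j G.ne.some 0⟩ H H' dX dY h hh
  have wal := hW m Γ X H hm gx G
  have M : Main H H' G _ F :=
    ⟨hm, gx, gy, cj, hC _ X Y Γ H H' m.succ_pos bx px by' py _ F cj, wal⟩
  have i1 := hI m Γ X Y H H' G _ F M
  have i2 := hS m Γ X Y H H' G _ F M i1
  have i3 := hT m Γ X Y H H' G _ F M i1 i2
  obtain ⟨φ, D, hD⟩ := hG m Γ X Y H H' G _ F M i1 i2 i3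
  refine ⟨φ, ρ, fun γ x => ?_⟩
  have key := hU m Γ X H hm gx G wal (fun x => φ.symm (ρ γ • φ (γ⁻¹ • x)))
    (φ.symm.isometry.comp ((cj.isoY γ).comp (φ.isometry.comp (cj.isoX γ⁻¹)))) ⟨D + D, fun z => ?_⟩
    (γ • x)
  · simp only [inv_smul_smul] at key
    rw [← key, IsometryEquiv.apply_symm_apply]
  · obtain ⟨c, hc, -⟩ := exists_line H m.succ_pos (γ⁻¹ • z) (γ⁻¹ • z)
    have e1 := hD c
    have e2 := hD (mapL (cj.isoX γ) c)
    beta_reduce at e1 e2 ⊢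
    rw [cj.equi] at e2
    simp only [mapL_apply, hc, smul_inv_smul] at e1 e2
    rw [← (cj.isoY γ).dist_eq] at e1
    rw [← φ.isometry.dist_eq, IsometryEquiv.apply_symm_apply, id]
    exact (dist_triangle_right _ _ _).trans (add_le_add e1 e2)

end Pool.Agent.MP_3ee8cb_gt.G76
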