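import Pool.Agent.MP_3ee8cb_gt.G76.Spec

open Filter Topology

namespace Pool.Agent.MP_3ee8cb_gt.G76

variable {m n : ℕ} {X : Type} [MetricSpace X]

theorem fla_pt (H : Hadamard n X) {j : E m → X} (hj : Isometry j) (z u : E m) {t : ℝ}
    (h0 : 0 ≤ t) (h1 : t ≤ 1) : j (z + t • u) = pt H (j z) (j (z + u)) t := by
  refine pt_unique H h0 h1 ?_ ?_
  · simp [hj.dist_eq, norm_smul, abs_of_nonneg h0]
  · rw [hj.dist_eq, hj.dist_eq, dist_add_left, dist_self_add_right, dist_comm, dist_eq_norm,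
      show u - t • u = (1 - t) • u by module, norm_smul, Real.norm_of_nonneg (by linarith)]

theorem fla_lin (H : Hadamard n X) {j : E m → X} (hj : Isometry j) (z : E m) :
    ∃ L : E m →ₗᵢ[ℝ] E n, ∀ u, ex H (j z) (L u) = j (z + u) := by
  have hi : Isometry fun u => lg H (j z) (j (z + u)) := Isometry.of_dist_eq fun u v => by
    rw [dist_eq_norm, dist_eq_norm]
    refine tendsto_nhds_unique (ex_lim H (j z) _ _) (tendsto_const_nhds.congr' ?_)
    filter_upwards [Ioc_mem_nhdsGT (zero_lt_one' ℝ)] with t ht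
    change _ = dist (pt H _ _ t) (pt H _ _ t) / t
    rw [← fla_pt H hj z u ht.1.le ht.2, ← fla_pt H hj z v ht.1.le ht.2, hj.dist_eq, dist_add_left,
      dist_eq_norm, ← smul_sub, norm_smul, Real.norm_of_nonneg ht.1.le,
      mul_div_cancel_left₀ _ ht.1.ne']
  refine ⟨hi.affineIsometryOfStrictConvexSpace.linearIsometry, fun u => ?_⟩
  have h := hi.affineIsometryOfStrictConvexSpace.map_vadd 0 u
  simp only [Isometry.affineIsometryOfStrictConvexSpace_apply, vadd_eq_add, add_zero, lg_self] at h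
  rw [← h, ex_lg]

theorem fla_nu (L : E m →ₗᵢ[ℝ] E (m + 1)) :
    ∃ ν : E (m + 1), ‖ν‖ = 1 ∧ ∀ a, inner ℝ ν a = 0 ↔ a ∈ Set.range L := by
  have h1 : Module.finrank ℝ (LinearMap.range L.toLinearMap)ᗮ = 1 :=
    Submodule.finrank_add_finrank_orthogonal' (by
      rw [LinearMap.finrank_range_of_inj L.injective]
      simp)
  obtain ⟨v, hv, h⟩ := finrank_eq_one_iff'.1 h1
  have hv' : ‖(v : E (m + 1))‖ ≠ 0 := norm_ne_zero_iff.2 fun h0 => hv (Subtype.ext h0)
  refine ⟨‖(v : E (m + 1))‖⁻¹ • (v : E (m + 1)), by simp [norm_smul, hv'], fun a => ?_⟩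
  have h2 : a ∈ Set.range L ↔ a ∈ (LinearMap.range L.toLinearMap)ᗮᗮ := by
    rw [Submodule.orthogonal_orthogonal]
    rfl
  rw [h2, Submodule.mem_orthogonal, inner_smul_left]
  simp only [conj_trivial, mul_eq_zero, inv_eq_zero, hv', false_or]
  refine ⟨fun h0 w hw => ?_, fun h0 => h0 _ v.2⟩
  obtain ⟨c, hc⟩ := h ⟨w, hw⟩
  have : w = c • (v : E (m + 1)) := (congrArg Subtype.val hc).symm
  rw [this, inner_smul_left, h0, mul_zero]

theorem fla_fun (H : Hadamard (m + 1) X) {j : E m → X} (hj : Isometry j) (z : E m) :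
    ∃ ν : E (m + 1), ‖ν‖ = 1 ∧ ∀ x, inner ℝ ν (lg H (j z) x) = 0 ↔ x ∈ Set.range j := by
  obtain ⟨L, hL⟩ := fla_lin H hj z
  obtain ⟨ν, h1, h2⟩ := fla_nu L
  refine ⟨ν, h1, fun x => (h2 _).trans ⟨?_, ?_⟩⟩
  · rintro ⟨u, hu⟩
    exact ⟨z + u, by rw [← hL, hu, ex_lg]⟩
  · rintro ⟨y, rfl⟩
    exact ⟨y - z, by rw [← lg_ex H (j z) (L (y - z)), hL, add_sub_cancel]⟩

theorem fla_ivt {Y : Type} [TopologicalSpace Y] {A : Set Y} (hA : IsPreconnected A) {s : Y → ℝ}
    (hs : Continuous s) {a b : Y} (ha : a ∈ A) (hb : b ∈ A) (h : s a * s b ≤ 0) :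
    ∃ x ∈ A, s x = 0 := by
  rcases mul_nonpos_iff.1 h with h | h
  · exact hA.intermediate_value hb ha hs.continuousOn ⟨h.2, h.1⟩
  · exact hA.intermediate_value ha hb hs.continuousOn ⟨h.1, h.2⟩

theorem fla_half {s : E n → ℝ} (hs : Continuous s) {μ : E n}
    (h : ∀ a, s a = 0 → inner ℝ μ a = 0) {a b : E n} (hab : 0 < inner ℝ μ a * inner ℝ μ b) :
    0 < s a * s b := by
  by_contra hn
  have hl : IsLinearMap ℝ fun a : E n => inner ℝ μ a := (innerSL ℝ μ).toLinearMap.isLinear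
  rcases mul_pos_iff.1 hab with k | k
  · obtain ⟨x, hx, h0⟩ := fla_ivt (convex_halfSpace_gt hl 0).isPreconnected hs k.1 k.2
      (not_lt.1 hn)
    exact hx.ne' (h x h0)
  · obtain ⟨x, hx, h0⟩ := fla_ivt (convex_halfSpace_lt hl 0).isPreconnected hs k.1 k.2
      (not_lt.1 hn)
    exact hx.ne (h x h0)

theorem fla_side [ProperSpace X] (H : Hadamard (m + 1) X) {j : E m → X} (hj : Isometry j) :
    ∃ s, Side j s := by
  obtain ⟨ν, hν, h⟩ := fla_fun H hj 0
  have hc : Continuous fun x => inner ℝ ν (lg H (j 0) x) :=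
    continuous_const.inner (lg_cont H (j 0))
  refine ⟨_, hc, h, fun p q z hpq hb => ?_, fun p q hpq => ?_, fun c c' h0 h0' hcc D => ?_⟩
  · obtain ⟨μ, -, h'⟩ := fla_fun H hj z
    obtain ⟨r, r0, r1, hr⟩ := hb.exists_pt H
    have hp : p ∉ Set.range j := fun k => by simp [(h p).2 k] at hpq
    have hq : q ∉ Set.range j := fun k => by simp [(h q).2 k] at hpq
    have r0' : 0 < r := lt_of_le_of_ne r0 fun k => hp ⟨z, by rw [hr, ← k, pt_zero]⟩
    have r1' : r < 1 := lt_of_le_of_ne r1 fun k => hq ⟨z, by rw [hr, k, pt_one]⟩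
    have ho := lg_pt_opp H p q r0' r1
    rw [← hr] at ho
    have hα : inner ℝ μ (lg H (j z) p) ≠ 0 := fun k => hp ((h' p).1 k)
    have key : ∀ x, inner ℝ ν (lg H (j 0) x) ≠ 0 →
        0 < inner ℝ ν (lg H (j 0) x) * inner ℝ ν (lg H (j 0) p) := fun x hx => by
      have hβ : inner ℝ μ (lg H (j z) x) ≠ 0 := fun k => hx ((h x).2 ((h' x).1 k))
      have half := @fla_half _ _ (hc.comp (ex_cont H (j z))) μ fun a ha => by
        simpa using (h' _).2 ((h _).1 ha)
      rcases (mul_ne_zero hβ hα).lt_or_gt with k | k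
      · have k1 : 0 < inner ℝ μ (lg H (j z) x) * inner ℝ μ (lg H (j z) q) := by
          rw [ho, real_inner_smul_right]
          nlinarith [mul_pos (div_pos (sub_pos.2 r1') r0') (neg_pos.2 k)]
        have k2 := half k1
        simp only [Function.comp, ex_lg] at k2
        have k3 := mul_pos k2 hpq
        have k4 := mul_self_pos.2 (right_ne_zero_of_mul hpq.ne')
        exact (mul_pos_iff_of_pos_right k4).1 (by linarith)
      · simpa only [Function.comp, ex_lg] using half k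
    have k1 := key (ex H (j 0) ν) (by simp [hν])
    have k2 := key (ex H (j 0) (-ν)) (by simp [hν])
    simp only [lg_ex, inner_neg_right] at k1 k2
    linarith
  · have hpt : Continuous (pt H p q) :=
      (ex_cont H p).comp (continuous_id.smul continuous_const)
    obtain ⟨t, ht, h0⟩ := fla_ivt isPreconnected_Icc (hc.comp hpt)
      (Set.left_mem_Icc.2 zero_le_one) (Set.right_mem_Icc.2 zero_le_one) (by simpa using hpq)
    obtain ⟨z, hz⟩ := (h _).1 h0
    exact ⟨z, hz ▸ btw_pt H p q ht.1 ht.2⟩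
  · have e := (line_radial H c).2
    have e' := (line_radial H c').2
    rw [h0] at e
    rw [h0'] at e'
    generalize lg H (j 0) (c.1 1) = a at e hcc
    generalize lg H (j 0) (c'.1 1) = a' at e' hcc
    have hμ : 0 < min |inner ℝ ν a| |inner ℝ ν a'| :=
      lt_min (abs_pos.2 (left_ne_zero_of_mul hcc.ne')) (abs_pos.2 (right_ne_zero_of_mul hcc.ne'))
    refine ⟨|D| / min |inner ℝ ν a| |inner ℝ ν a'|, fun t ht =>
      ⟨fun u => ex H (j 0) (((1 - u) * t) • a + (u * t) • a'), (ex_cont H _).comp (by fun_prop),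
        by simp [e t], by simp [e' t], fun u u0 u1 z => ?_⟩⟩
    have t0 : 0 ≤ t := le_trans (by positivity) ht
    rw [div_le_iff₀ hμ] at ht
    have k1 := ex_exp H (j 0) (((1 - u) * t) • a + (u * t) • a') (lg H (j 0) (j z))
    have k2 := abs_real_inner_le_norm ν (((1 - u) * t) • a + (u * t) • a' - lg H (j 0) (j z))
    rw [ex_lg] at k1
    rw [hν, one_mul, inner_sub_right, (h _).2 ⟨z, rfl⟩, sub_zero, inner_add_right,
      real_inner_smul_right, real_inner_smul_right] at k2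
    refine (le_abs_self D).trans (ht.trans (le_trans ?_ (k2.trans k1)))
    have m1 := mul_le_mul_of_nonneg_left (min_le_left |inner ℝ ν a| |inner ℝ ν a'|)
      (mul_nonneg (sub_nonneg.2 u1) t0)
    have m2 := mul_le_mul_of_nonneg_left (min_le_right |inner ℝ ν a| |inner ℝ ν a'|)
      (mul_nonneg u0 t0)
    generalize min |inner ℝ ν a| |inner ℝ ν a'| = M at *
    rcases mul_pos_iff.1 hcc with k | k
    · rw [abs_of_pos k.1] at m1
      rw [abs_of_pos k.2] at m2
      exact le_trans (by linarith) (le_abs_self _)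
    · rw [abs_of_neg k.1] at m1
      rw [abs_of_neg k.2] at m2
      exact le_trans (by linarith) (neg_le_abs _)

theorem fla_main : SpFla := fun m X _ _ H =>
  ⟨fun _ hj z => fla_lin H hj z, fun j hj => by
    rintro _ ⟨y, rfl⟩ _ ⟨z, rfl⟩ x hx
    obtain ⟨s, h0, h1, rfl⟩ := hx.exists_pt H
    exact ⟨y + s • (z - y), by rw [fla_pt H hj y (z - y) h0 h1, add_sub_cancel]⟩,
    fun _ hj => fla_side H hj⟩

end Pool.Agent.MP_3ee8cb_gt.G76
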