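import Pool.Agent.MP_3ee8cb_gt.G76.Spec

open Filter Topology

namespace Pool.Agent.MP_3ee8cb_gt.G76

section general

variable {n : ℕ} {X Y : Type} [MetricSpace X] [MetricSpace Y]

theorem glu_btw_left {p x y q : X} (h1 : Btw p x q) (h2 : Btw x y q) : Btw p x y := by
  unfold Btw at *
  have := dist_triangle p y q
  have := dist_triangle p x y
  linarith

/-- A flat that lies between `p` and `q` lies between `p` and every point of a segment from the
flat to `q`. -/
theorem glu_cross {m : ℕ} {H : Hadamard (m + 1) X} (hf : FlaF H) {j : E m → X} (hj : Isometry j)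
    {p q x : X} {z₀ z₁ : E m} (h1 : Btw p (j z₁) q) (h2 : Btw (j z₀) x q) :
    ∃ z, Btw p (j z) x := by
  obtain ⟨s, hs⟩ := hf.side j hj
  refine hs.cross p x ?_
  by_contra hc
  have hc : 0 < s p * s x := not_le.1 hc
  have h3 : s p * s q ≤ 0 := not_lt.1 fun h => hs.same p q z₁ h h1
  have h4 : s x * s q ≤ 0 := by
    by_contra h5
    have h5 : 0 < s x * s q := not_le.1 h5
    have h6 : 0 < s p * s x * (s x * s q) := mul_pos hc h5
    have h7 : s p * s x * (s x * s q) = s p * s q * (s x) ^ 2 := by ring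
    have h8 : s p * s q * (s x) ^ 2 ≤ 0 := mul_nonpos_of_nonpos_of_nonneg h3 (sq_nonneg _)
    linarith
  obtain ⟨z₂, h5⟩ := hs.cross x q h4
  have h6 : x ∈ Set.range j :=
    hf.cvx j hj _ ⟨z₀, rfl⟩ _ ⟨z₂, rfl⟩ x (glu_btw_left h2 h5)
  rw [(hs.zero x).2 h6, mul_zero] at hc
  exact lt_irrefl _ hc

theorem glu_slab_closed {m : ℕ} {j k : E m → X} (hj : Isometry j) (hk : Isometry k) {w : ℝ}
    (hw : ∀ y z, dist (j y) (k z) ^ 2 = ‖z - y‖ ^ 2 + w ^ 2) : IsClosed (slab j k) := by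
  have hd : ∀ z, dist (j z) (k z) = |w| := fun z => by
    have := hw z z
    rw [sub_self, norm_zero, zero_pow two_ne_zero, zero_add, ← sq_abs w] at this
    exact (pow_left_inj₀ dist_nonneg (abs_nonneg _) two_ne_zero).1 this
  refine IsSeqClosed.isClosed fun x p hx hp => ?_
  choose z hz using hx
  obtain ⟨R, hR⟩ : ∃ R, ∀ i, dist (x i) p ≤ R := by
    obtain ⟨R, hR⟩ := (Metric.isBounded_range_of_tendsto x hp).subset_closedBall p
    exact ⟨R, fun i => hR ⟨i, rfl⟩⟩
  have hb : ∀ i, z i ∈ Metric.closedBall (0 : E m) (|w| + R + dist p (j 0)) := fun i => by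
    have h1 : dist (j (z i)) (x i) + dist (x i) (k (z i)) = dist (j (z i)) (k (z i)) := hz i
    rw [Metric.mem_closedBall, ← hj.dist_eq]
    have h2 := dist_triangle4 (j (z i)) (x i) p (j 0)
    have h3 := hR i
    have h4 := dist_nonneg (x := x i) (y := k (z i))
    rw [hd] at h1
    linarith
  obtain ⟨y, -, f, hf, hy⟩ := (isCompact_closedBall _ _).tendsto_subseq hb
  refine ⟨y, ?_⟩
  have hp' : Tendsto (x ∘ f) atTop (𝓝 p) := hp.comp hf.tendsto_atTop
  have t1 := ((hj.continuous.tendsto y).comp hy).dist hp'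
  have t2 := hp'.dist ((hk.continuous.tendsto y).comp hy)
  have t3 := ((hj.continuous.tendsto y).comp hy).dist ((hk.continuous.tendsto y).comp hy)
  exact tendsto_nhds_unique (t1.add t2) (t3.congr fun i => Eq.symm (hz (f i)))

/-- A locally isometric curve is a line. -/
theorem glu_curve (H : Hadamard n Y) (hn : 0 < n) (g : ℝ → Y)
    (hg : ∀ t, ∃ U ∈ 𝓝 t, ∀ s ∈ U, ∀ s' ∈ U, dist (g s) (g s') = |s - s'|) :
    ∃ c : Line Y, ∀ t, g t = c.1 t := by
  have key : ∀ t, ∃ c : Line Y, ∀ᶠ s in 𝓝 t, g s = c.1 s := by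
    intro t
    obtain ⟨U, hU, h⟩ := hg t
    obtain ⟨δ, hδ, hδU⟩ := Metric.nhds_basis_closedBall.mem_iff.1 hU
    have hm : ∀ s, t - δ ≤ s → s ≤ t + δ → s ∈ U := fun s h1 h2 => hδU (by
      rw [Metric.mem_closedBall, Real.dist_eq, abs_le]; constructor <;> linarith)
    obtain ⟨e, e0, e1⟩ := exists_line H hn (g (t - δ)) (g (t + δ))
    have hl := hm (t - δ) le_rfl (by linarith)
    have hr := hm (t + δ) (by linarith) le_rfl
    have hd : dist (g (t - δ)) (g (t + δ)) = 2 * δ := by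
      rw [h _ hl _ hr, abs_of_nonpos (by linarith)]; ring
    rw [hd] at e1
    refine ⟨flow (δ - t) e, ?_⟩
    filter_upwards [Icc_mem_nhds (show t - δ < t by linarith) (show t < t + δ by linarith)]
      with s hs
    have hsU := hm s hs.1 hs.2
    have h0 : 0 ≤ (s - (t - δ)) / (2 * δ) := div_nonneg (by linarith [hs.1]) (by linarith)
    have h1 : (s - (t - δ)) / (2 * δ) ≤ 1 := by
      rw [div_le_one (by linarith)]; linarith [hs.2]
    have h2 : g s = pt H (g (t - δ)) (g (t + δ)) ((s - (t - δ)) / (2 * δ)) := by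
      refine pt_unique H h0 h1 ?_ ?_
      · rw [hd, h _ hl _ hsU, abs_of_nonpos (by linarith [hs.1])]
        field_simp
        ring
      · rw [hd, h _ hsU _ hr, abs_of_nonpos (by linarith [hs.2])]
        field_simp
        ring
    have h3 : (1 - (s - (t - δ)) / (2 * δ)) * 0 + (s - (t - δ)) / (2 * δ) * (2 * δ) =
        s + (δ - t) := by
      rw [div_mul_cancel₀ _ (by linarith)]; ring
    rw [h2, ← e0, ← e1, pt_line H e 0 (2 * δ) h0 h1, flow_apply, h3]
  choose c hc using key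
  have hlc : IsLocallyConstant c := by
    rw [IsLocallyConstant.iff_eventually_eq]
    intro t
    filter_upwards [(hc t).eventually_nhds] with s hs
    have h1 : ∀ᶠ u in 𝓝 s, (c s).1 u = (c t).1 u := by
      filter_upwards [hs, hc s] with u h1 h2
      rw [← h1, ← h2]
    obtain ⟨u, hu, hus⟩ := ((h1.filter_mono (nhdsWithin_le_nhds (s := {s}ᶜ))).and
      self_mem_nhdsWithin).exists
    exact line_ext H (show u ≠ s from hus) hu h1.self_of_nhds
  refine ⟨c 0, fun t => ?_⟩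
  rw [(hc t).self_of_nhds, hlc.apply_eq_of_preconnectedSpace t 0]

/-- A local isometry is an isometry. -/
theorem glu_global (H : Hadamard n X) (H' : Hadamard n Y) (hn : 0 < n) (f : X → Y)
    (hf : ∀ x, ∃ U ∈ 𝓝 x, ∀ p ∈ U, ∀ q ∈ U, dist (f p) (f q) = dist p q) : Isometry f := by
  refine Isometry.of_dist_eq fun p q => ?_
  obtain ⟨c, c0, c1⟩ := exists_line H hn p q
  obtain ⟨e, he⟩ := glu_curve H' hn (fun t => f (c.1 t)) fun t => by
    obtain ⟨U, hU, h⟩ := hf (c.1 t)
    exact ⟨c.1 ⁻¹' U, c.2.continuous.continuousAt hU, fun s hs s' hs' => by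
      rw [h _ hs _ hs', Line.dist_eq]⟩
  have h0 := he 0
  have h1 := he (dist p q)
  simp only [c0, c1] at h0 h1
  rw [h0, h1, Line.dist_eq, zero_sub, abs_neg, abs_of_nonneg dist_nonneg]

theorem glu_map_pt (H : Hadamard n X) (H' : Hadamard n Y) {f : X → Y} (hf : Isometry f)
    (p q : X) {s : ℝ} (h0 : 0 ≤ s) (h1 : s ≤ 1) : f (pt H p q s) = pt H' (f p) (f q) s := by
  refine pt_unique H' h0 h1 ?_ ?_
  · rw [hf.dist_eq, hf.dist_eq, dist_pt_left H p q h0]
  · rw [hf.dist_eq, hf.dist_eq, dist_pt_right H p q h1]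

/-- An isometric map with coarsely dense image is onto. -/
theorem glu_onto [ProperSpace X] (H : Hadamard n X) (H' : Hadamard n Y) {f : X → Y}
    (hf : Isometry f) {D : ℝ} (hD : ∀ y, ∃ x, dist (f x) y ≤ D) : Function.Surjective f := by
  intro y
  have hcl : IsClosed (Set.range f) := hf.isClosedEmbedding.isClosed_range
  refine hcl.closure_subset (Metric.mem_closure_iff.2 fun ε hε => ?_)
  obtain ⟨o, ho⟩ := hD y
  have hD0 : 0 ≤ D := dist_nonneg.trans ho
  set N : ℝ := D / ε + 1 with hN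
  have hN1 : 1 ≤ N := by have := div_nonneg hD0 hε.le; linarith
  have hN0 : 0 < N := by linarith
  have h0 : 0 ≤ 1 / N := by positivity
  have h1 : 1 / N ≤ 1 := by rw [div_le_one hN0]; exact hN1
  obtain ⟨x, hx⟩ := hD (pt H' (f o) y N)
  have hy : pt H' (f o) (pt H' (f o) y N) (1 / N) = y := by
    rw [pt, pt, lg_ex, smul_smul, one_div_mul_cancel hN0.ne', one_smul, ex_lg]
  refine ⟨_, ⟨pt H o x (1 / N), rfl⟩, ?_⟩
  rw [glu_map_pt H H' hf o x h0 h1, dist_comm]
  have h2 := pt_conv_same H' (f o) (f x) (pt H' (f o) y N) h0 h1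
  rw [hy] at h2
  refine h2.trans_lt ((mul_le_mul_of_nonneg_left hx h0).trans_lt ?_)
  rw [one_div_mul_eq_div, div_lt_iff₀ hN0, hN, mul_add, mul_div_cancel₀ _ hε.ne']
  linarith

end general

section graph

variable {m : ℕ} {Γ X Y : Type} [Group Γ] [MetricSpace X] [MetricSpace Y] [MulAction Γ X]
  {H : Hadamard (m + 1) X} {H' : Hadamard (m + 1) Y} {G : Graph m Γ X} {b : Γ → Y → Y}
  {F : Line X → Line Y}

/-- The image of a wall. -/
noncomputable def glu_j (G : Graph m Γ X) (F : Line X → Line Y) (a : G.A) (z : E m) : Y :=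
  phi G F (G.pc a) (G.j a z)

/-- The regions. -/
def glu_reg (G : Graph m Γ X) : G.I ⊕ G.A → Set X :=
  Sum.elim G.Q fun a => slab (G.j a) (G.j (G.op a))

/-- `y` is the image of `x` through the slab of `a`. -/
def glu_S (H : Hadamard (m + 1) X) (H' : Hadamard (m + 1) Y) (G : Graph m Γ X)
    (F : Line X → Line Y) (a : G.A) (x : X) (y : Y) : Prop :=
  ∃ z s, 0 ≤ s ∧ s ≤ 1 ∧ x = pt H (G.j a z) (G.j (G.op a) z) s ∧
    y = pt H' (glu_j G F a z) (glu_j G F (G.op a) z) s

/-- `y` is the image of `x` through a region. -/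
def glu_Rel (H : Hadamard (m + 1) X) (H' : Hadamard (m + 1) Y) (G : Graph m Γ X)
    (F : Line X → Line Y) : G.I ⊕ G.A → X → Y → Prop :=
  Sum.elim (fun i x y => x ∈ G.Q i ∧ y = phi G F i x) (glu_S H H' G F)

theorem glu_S_op {a : G.A} {x : X} {y : Y} (h : glu_S H H' G F a x y) :
    glu_S H H' G F (G.op a) x y := by
  obtain ⟨z, s, h0, h1, hx, hy⟩ := h
  refine ⟨z, 1 - s, by linarith, by linarith, ?_, ?_⟩
  · rw [G.op_op, hx, pt_symm H _ _ h0 h1]
  · rw [G.op_op, hy, pt_symm H' _ _ h0 h1]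

theorem glu_j_iso (hI : IsoP G F) (a : G.A) : Isometry (glu_j G F a) :=
  Isometry.of_dist_eq fun y z => by
    rw [glu_j, glu_j, hI _ _ (G.mem a y) _ (G.mem a z), (G.flat a).dist_eq]

theorem glu_SS (hM : Main H H' G b F) (hI : IsoP G F) (hT : TwiP G F) {a : G.A} {x x' : X}
    {y y' : Y} (h : glu_S H H' G F a x y) (h' : glu_S H H' G F a x' y') :
    dist y y' = dist x x' := by
  obtain ⟨z, s, h0, h1, rfl, rfl⟩ := h
  obtain ⟨z', s', h0', h1', rfl, rfl⟩ := h'
  obtain ⟨w, hw⟩ := G.width a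
  have e1 := hM.gx.par.slab m _ _ w (G.flat a) (G.flat (G.op a)) hw z z' s s' h0 h1 h0' h1'
  have e2 := hM.gy.par.slab m _ _ w (glu_j_iso hI a) (glu_j_iso hI (G.op a))
    (fun y z => by rw [glu_j, glu_j, hT a y z, hw]) z z' s s' h0 h1 h0' h1'
  exact (pow_left_inj₀ dist_nonneg dist_nonneg two_ne_zero).1 (e2.trans e1.symm)

theorem glu_wall (a : G.A) (z : E m) : glu_S H H' G F a (G.j a z) (glu_j G F a z) :=
  ⟨z, 0, le_rfl, zero_le_one, (pt_zero _ _ _).symm, (pt_zero _ _ _).symm⟩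

theorem glu_QS (hM : Main H H' G b F) (hI : IsoP G F) (hS : SepP G F) (hT : TwiP G F) {a : G.A}
    {p x : X} {y : Y} (hp : p ∈ G.Q (G.pc a)) (h : glu_S H H' G F a x y) :
    dist (phi G F (G.pc a) p) y = dist p x := by
  have h' := h
  obtain ⟨z₀, s, h0, h1, hx, hy⟩ := h'
  apply le_antisymm
  · obtain ⟨z₁, hz₁⟩ := G.sep a p hp _ (G.mem (G.op a) z₀)
    obtain ⟨z, hz⟩ := glu_cross hM.gx.fla (G.flat a) hz₁
      (hx ▸ btw_pt H (G.j a z₀) (G.j (G.op a) z₀) h0 h1 : Btw (G.j a z₀) x _)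
    have e1 := glu_SS hM hI hT (glu_wall a z) h
    have e2 := hI _ p hp _ (G.mem a z)
    have e3 := dist_triangle (phi G F (G.pc a) p) (glu_j G F a z) y
    have e4 : dist p (G.j a z) + dist (G.j a z) x = dist p x := hz
    rw [e1, glu_j, e2] at e3
    linarith
  · obtain ⟨z₁, hz₁⟩ := hS a p hp _ (G.mem (G.op a) z₀)
    obtain ⟨z, hz⟩ := glu_cross hM.gy.fla (glu_j_iso hI a) (z₁ := z₁) hz₁
      (hy ▸ btw_pt H' (glu_j G F a z₀) (glu_j G F (G.op a) z₀) h0 h1 : Btw (glu_j G F a z₀) y _)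
    have e1 := glu_SS hM hI hT (glu_wall a z) h
    have e2 := hI _ p hp _ (G.mem a z)
    have e3 := dist_triangle p (G.j a z) x
    have e4 : dist (phi G F (G.pc a) p) (glu_j G F a z) + dist (glu_j G F a z) y =
      dist (phi G F (G.pc a) p) y := hz
    rw [e1, glu_j, e2] at e4
    linarith

theorem glu_QQ (hM : Main H H' G b F) (hI : IsoP G F) (hS : SepP G F) (hT : TwiP G F) {a : G.A}
    {p q : X} (hp : p ∈ G.Q (G.pc a)) (hq : q ∈ G.Q (G.pc (G.op a))) :
    dist (phi G F (G.pc a) p) (phi G F (G.pc (G.op a)) q) = dist p q := by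
  have key : ∀ z, dist (phi G F (G.pc (G.op a)) q) (glu_j G F a z) = dist q (G.j a z) :=
    fun z => glu_QS hM hI hS hT hq (glu_S_op (glu_wall a z))
  apply le_antisymm
  · obtain ⟨z, hz⟩ := G.sep a p hp q hq
    have e2 := hI _ p hp _ (G.mem a z)
    have e3 := dist_triangle_right (phi G F (G.pc a) p) (phi G F (G.pc (G.op a)) q)
      (glu_j G F a z)
    have e4 : dist p (G.j a z) + dist (G.j a z) q = dist p q := hz
    rw [key, glu_j, e2, dist_comm q] at e3
    linarith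
  · obtain ⟨z, hz⟩ := hS a p hp q hq
    have e2 := hI _ p hp _ (G.mem a z)
    have e3 := dist_triangle_right p q (G.j a z)
    have e4 : dist (phi G F (G.pc a) p) (glu_j G F a z) +
      dist (glu_j G F a z) (phi G F (G.pc (G.op a)) q) =
      dist (phi G F (G.pc a) p) (phi G F (G.pc (G.op a)) q) := hz
    rw [dist_comm (glu_j G F a z), key, glu_j, e2] at e4
    linarith

/-- The three kinds of related pairs at an edge. -/
def glu_Edge (H : Hadamard (m + 1) X) (H' : Hadamard (m + 1) Y) (G : Graph m Γ X)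
    (F : Line X → Line Y) (a : G.A) (x : X) (y : Y) : Prop :=
  (x ∈ G.Q (G.pc a) ∧ y = phi G F (G.pc a) x) ∨
    (x ∈ G.Q (G.pc (G.op a)) ∧ y = phi G F (G.pc (G.op a)) x) ∨ glu_S H H' G F a x y

theorem glu_edge_of {a : G.A} {r : G.I ⊕ G.A} {x : X} {y : Y}
    (hr : r ∈ ({.inl (G.pc a), .inl (G.pc (G.op a)), .inr a, .inr (G.op a)} : Set (G.I ⊕ G.A)))
    (h : glu_Rel H H' G F r x y) : glu_Edge H H' G F a x y := by
  rcases hr with rfl | rfl | rfl | rfl
  · exact Or.inl h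
  · exact Or.inr (Or.inl h)
  · exact Or.inr (Or.inr h)
  · have := glu_S_op (show glu_S H H' G F (G.op a) x y from h)
    rw [G.op_op] at this
    exact Or.inr (Or.inr this)

theorem glu_edge (hM : Main H H' G b F) (hI : IsoP G F) (hS : SepP G F) (hT : TwiP G F) {a : G.A}
    {x x' : X} {y y' : Y} (h : glu_Edge H H' G F a x y) (h' : glu_Edge H H' G F a x' y') :
    dist y y' = dist x x' := by
  rcases h with ⟨h, rfl⟩ | ⟨h, rfl⟩ | h <;> rcases h' with ⟨h', rfl⟩ | ⟨h', rfl⟩ | h'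
  · exact hI _ _ h _ h'
  · exact glu_QQ hM hI hS hT h h'
  · exact glu_QS hM hI hS hT h h'
  · rw [dist_comm, dist_comm x]; exact glu_QQ hM hI hS hT h' h
  · exact hI _ _ h _ h'
  · exact glu_QS hM hI hS hT h (glu_S_op h')
  · rw [dist_comm, dist_comm x]; exact glu_QS hM hI hS hT h' h
  · rw [dist_comm, dist_comm x]; exact glu_QS hM hI hS hT h' (glu_S_op h)
  · exact glu_SS hM hI hT h h'

theorem glu_meet (hM : Main H H' G b F) (hI : IsoP G F) (hS : SepP G F) (hT : TwiP G F)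
    {r r' : G.I ⊕ G.A} (hr : (glu_reg G r ∩ glu_reg G r').Nonempty) {x x' : X} {y y' : Y}
    (h : glu_Rel H H' G F r x y) (h' : glu_Rel H H' G F r' x' y') : dist y y' = dist x x' := by
  rcases G.meet r r' hr with rfl | ⟨a, ha⟩
  · rcases r with i | a
    · obtain ⟨h, rfl⟩ := h
      obtain ⟨h', rfl⟩ := h'
      exact hI _ _ h _ h'
    · exact glu_SS hM hI hT h h'
  · exact glu_edge hM hI hS hT (glu_edge_of (ha (by simp)) h) (glu_edge_of (ha (by simp)) h')

theorem glu_exists {r : G.I ⊕ G.A} {x : X} (hx : x ∈ glu_reg G r) :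
    ∃ y, glu_Rel H H' G F r x y := by
  rcases r with i | a
  · exact ⟨_, hx, rfl⟩
  · obtain ⟨z, hz⟩ := hx
    obtain ⟨s, h0, h1, hs⟩ := hz.exists_pt H
    exact ⟨_, z, s, h0, h1, hs, rfl⟩

theorem glu_reg_closed (G : Graph m Γ X) (r : G.I ⊕ G.A) : IsClosed (glu_reg G r) := by
  rcases r with i | a
  · exact G.closed i
  · obtain ⟨w, hw⟩ := G.width a
    exact glu_slab_closed (G.flat a) (G.flat (G.op a)) hw

/-- The line of a flat in a unit direction. -/
def glu_line {j : E m → X} (hj : Isometry j) (z : E m) {v : E m} (hv : ‖v‖ = 1) : Line X :=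
  ⟨fun t => j (z + t • v), Isometry.of_dist_eq fun s t => by
    rw [hj.dist_eq, dist_add_left, dist_eq_norm, ← sub_smul, norm_smul, hv, mul_one,
      Real.dist_eq, Real.norm_eq_abs]⟩

theorem glu_near (hM : Main H H' G b F) : ∃ D : ℝ, ∀ (r : G.I ⊕ G.A) (c : Line X) (y : Y),
    glu_Rel H H' G F r (c.1 0) y → dist y ((F c).1 0) ≤ D := by
  obtain ⟨K, hK⟩ := hM.con.rough
  have hK' : ∀ c c' : Line X, c.1 0 = c'.1 0 → dist ((F c).1 0) ((F c').1 0) ≤ K := by
    intro c c' h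
    have := hK c c'
    rw [h, dist_self, sub_zero] at this
    exact (le_abs_self _).trans this
  have hQ : ∀ (i : G.I) (c : Line X), c.1 0 ∈ G.Q i →
      dist (phi G F i (c.1 0)) ((F c).1 0) ≤ K / 2 + K := by
    intro i c hc
    have h1 : |sh G F i| ≤ K / 2 := by
      have e1 := hM.gy.bus.lip (F (G.L i)) ((F (rev (G.L i))).1 0) ((F (G.L i)).1 0)
      rw [hM.gy.bus.self, neg_zero, sub_zero] at e1
      have e2 := hK' (rev (G.L i)) (G.L i) (by simp)
      rw [sh, abs_div, abs_two]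
      linarith
    have h2 := hK' (fib G i (c.1 0)) c (fib_spec G hc).1
    have h3 := dist_triangle (phi G F i (c.1 0)) ((F (fib G i (c.1 0))).1 0) ((F c).1 0)
    have h4 : dist (phi G F i (c.1 0)) ((F (fib G i (c.1 0))).1 0) = |sh G F i| := by
      rw [phi, Line.dist_eq, sub_zero, abs_neg]
    linarith
  refine ⟨K / 2 + K + |K|, fun r c y h => ?_⟩
  rcases r with i | a
  · obtain ⟨h, rfl⟩ := h
    linarith [hQ i c h, abs_nonneg K]
  · obtain ⟨z, s, h0, h1, hx, rfl⟩ := h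
    obtain ⟨w, hw⟩ := G.width a
    set c₁ := glu_line (G.flat a) z (G.unit a) with hc₁
    set c₂ := glu_line (G.flat (G.op a)) z (G.unit a) with hc₂
    have e1 : c₁.1 0 = G.j a z := by simp [hc₁, glu_line]
    have e2 : c₂.1 0 = G.j (G.op a) z := by simp [hc₂, glu_line]
    have hn : Near c₁.1 c₂.1 := ⟨|w|, fun t => by
      have := hw (z + t • G.v a) (z + t • G.v a)
      rw [sub_self, norm_zero, zero_pow two_ne_zero, zero_add, ← sq_abs w] at this
      exact ((pow_left_inj₀ dist_nonneg (abs_nonneg _) two_ne_zero).1 this).le⟩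
    obtain ⟨d, hd, -, hd2⟩ := hM.gx.par.mid c₁ c₂ hn s h0 h1
    have hd0 : d.1 0 = pt H (c₁.1 0) (c₂.1 0) s := by
      rw [hd2]; simp
    have e3 := hM.con.aff c₁ c₂ d hn hd s h0 h1 hd0
    have e4 := hK' d c (by rw [hd0, e1, e2, hx])
    have e5 := hQ _ c₁ (e1 ▸ G.mem a z)
    have e6 := hQ _ c₂ (e2 ▸ G.mem (G.op a) z)
    rw [e1] at e5
    rw [e2] at e6
    have e7 := pt_conv H' (glu_j G F a z) (glu_j G F (G.op a) z) ((F c₁).1 0) ((F c₂).1 0) h0 h1
    rw [← e3] at e7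
    have e8 := dist_triangle (pt H' (glu_j G F a z) (glu_j G F (G.op a) z) s) ((F d).1 0)
      ((F c).1 0)
    have e9 := mul_le_mul_of_nonneg_left e5 (sub_nonneg.2 h1)
    have e10 := mul_le_mul_of_nonneg_left e6 h0
    have e11 := le_abs_self K
    unfold glu_j at e7 e8 ⊢
    nlinarith

end graph

theorem glu_main : SpGlu := by
  intro m Γ X Y _ _ _ _ _ _ H H' G b F hM hI hS hT
  have hcov : ∀ x, ∃ r, x ∈ glu_reg G r := G.cover
  choose ρ hρ using hcov
  have hex : ∀ x, ∃ y, glu_Rel H H' G F (ρ x) x y := fun x => glu_exists (hρ x)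
  choose f hf using hex
  have hiso : Isometry f := by
    refine glu_global H H' (Nat.succ_pos m) f fun x => ?_
    have hlf : LocallyFinite (glu_reg G) := G.locfin
    refine ⟨_, hlf.iInter_compl_mem_nhds (glu_reg_closed G) x, fun p hp q hq => ?_⟩
    have hin : ∀ u, u ∈ (⋂ (i) (_ : x ∉ glu_reg G i), (glu_reg G i)ᶜ) → x ∈ glu_reg G (ρ u) := by
      intro u hu
      by_contra hx
      exact Set.mem_iInter₂.1 hu (ρ u) hx (hρ u)
    exact glu_meet hM hI hS hT ⟨x, hin p hp, hin q hq⟩ (hf p) (hf q)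
  obtain ⟨D, hD⟩ := glu_near hM
  have hnear : ∀ c : Line X, dist (f (c.1 0)) ((F c).1 0) ≤ D := fun c => hD _ c _ (hf _)
  have hsurj : Function.Surjective f := by
    refine glu_onto H H' hiso (D := D) fun y => ?_
    obtain ⟨e, he, -⟩ := exists_line H' (Nat.succ_pos m) y y
    obtain ⟨c, rfl⟩ := hM.conj.surj e
    exact ⟨c.1 0, he ▸ hnear c⟩
  exact ⟨⟨Equiv.ofBijective f ⟨hiso.injective, hsurj⟩, hiso⟩, D, hnear⟩

end Pool.Agent.MP_3ee8cb_gt.G76
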