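import Pool.Agent.MP_3ee8cb_gt.G76.Spec

open Filter Topology

namespace Pool.Agent.MP_3ee8cb_gt.G76

theorem iso_near_symm {α Z : Type} [MetricSpace Z] {f g : α → Z} (h : Near f g) : Near g f := by
  obtain ⟨D, hD⟩ := h
  exact ⟨D, fun a => by rw [dist_comm]; exact hD a⟩

theorem iso_near_trans {α Z : Type} [MetricSpace Z] {f g k : α → Z} (h : Near f g)
    (h' : Near g k) : Near f k := by
  obtain ⟨D, hD⟩ := h
  obtain ⟨D', hD'⟩ := h'
  exact ⟨D + D', fun a => (dist_triangle _ (g a) _).trans (add_le_add (hD a) (hD' a))⟩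

theorem iso_near_asym {Z : Type} [MetricSpace Z] {c c' : Line Z} (h : Near c.1 c'.1) :
    Asym c c' := by
  obtain ⟨D, hD⟩ := h
  exact ⟨D, fun t _ => hD t⟩

/-- Pairs with equal Gram matrix. -/
theorem iso_lin {n : ℕ} (S : Set (E n × E n))
    (hS : ∀ x ∈ S, ∀ y ∈ S, inner ℝ x.1 y.1 = inner ℝ x.2 y.2)
    (hsp : Submodule.span ℝ (Prod.fst '' S) = ⊤) (u u' : E n)
    (hu : ∀ x ∈ S, inner ℝ u x.1 = inner ℝ u' x.2) : ‖u'‖ = ‖u‖ := by
  set U := Submodule.span ℝ S with hU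
  have h1 : ∀ (w w' : E n), (∀ x ∈ S, inner ℝ w x.1 = inner ℝ w' x.2) →
      ∀ x ∈ U, inner ℝ w x.1 = inner ℝ w' x.2 := by
    intro w w' hw x hx
    induction hx using Submodule.span_induction with
    | mem x hx => exact hw x hx
    | zero => simp
    | add x y _ _ hx hy => simp only [Prod.fst_add, Prod.snd_add, inner_add_right, hx, hy]
    | smul a x _ hx => simp only [Prod.smul_fst, Prod.smul_snd, inner_smul_right, hx]
  have h2 : ∀ x ∈ U, ∀ y ∈ U, inner ℝ x.1 y.1 = inner ℝ x.2 y.2 := by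
    intro x hx y hy
    refine h1 x.1 x.2 (fun y hy => ?_) y hy
    rw [real_inner_comm, real_inner_comm y.2]
    exact h1 y.1 y.2 (fun z hz => hS y hy z hz) x hx
  let f1 : U →ₗ[ℝ] E n := (LinearMap.fst ℝ (E n) (E n)).comp U.subtype
  let f2 : U →ₗ[ℝ] E n := (LinearMap.snd ℝ (E n) (E n)).comp U.subtype
  have s1 : Function.Surjective f1 := by
    rw [← LinearMap.range_eq_top, LinearMap.range_comp, Submodule.range_subtype, hU,
      Submodule.map_span]
    exact hsp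
  have i2 : Function.Injective f2 := by
    rw [injective_iff_map_eq_zero]
    rintro ⟨x, hx⟩ h
    have h3 : x.2 = 0 := h
    have h4 := h2 x hx x hx
    rw [h3, inner_zero_left, inner_self_eq_zero] at h4
    exact Subtype.ext (Prod.ext h4 h3)
  have e1 : Module.finrank ℝ U = Module.finrank ℝ (E n) :=
    le_antisymm (LinearMap.finrank_le_finrank_of_injective i2)
      (LinearMap.finrank_le_finrank_of_surjective s1)
  have s2 : Function.Surjective f2 :=
    (LinearMap.injective_iff_surjective_of_finrank_eq_finrank e1).1 i2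
  obtain ⟨⟨x, hx⟩, hxu⟩ := s1 u
  have hxu' : x.1 = u := hxu
  obtain ⟨⟨y, hy⟩, hyu⟩ := s2 (u' - x.2)
  have hyu' : y.2 = u' - x.2 := hyu
  have h5 := h1 u u' hu y hy
  have h6 := h2 x hx y hy
  rw [hxu', h5] at h6
  have h7 : inner ℝ (u' - x.2) (u' - x.2) = (0 : ℝ) := by
    rw [inner_sub_left, ← hyu', h6, sub_self]
  have h8 : u' = x.2 := sub_eq_zero.1 (inner_self_eq_zero.1 h7)
  have h9 := h2 x hx x hx
  rw [hxu', ← h8, real_inner_self_eq_norm_sq, real_inner_self_eq_norm_sq] at h9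
  exact (pow_left_inj₀ (norm_nonneg _) (norm_nonneg _) two_ne_zero).1 h9.symm

section map

variable {n : ℕ} {X Y : Type} [MetricSpace X] [MetricSpace Y]

/-- The soft properties of the map on a piece. -/
structure iso_Map (H : Hadamard n X) (H' : Hadamard n Y) (Q : Set X) (φ : X → Y) : Prop where
  aff : ∀ p ∈ Q, ∀ q ∈ Q, ∀ s, 0 ≤ s → s ≤ 1 → φ (pt H p q s) = pt H' (φ p) (φ q) s
  rough : ∃ K : ℝ, ∀ p ∈ Q, ∀ q ∈ Q, |dist (φ p) (φ q) - dist p q| ≤ K
  uc : ∀ ε : ℝ, 0 < ε → ∃ δ : ℝ, 0 < δ ∧ ∀ p ∈ Q, ∀ q ∈ Q, dist p q ≤ δ →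
    dist (φ p) (φ q) ≤ ε

variable {H : Hadamard n X} {H' : Hadamard n Y} {Q : Set X} {φ : X → Y}

theorem iso_ray (M : iso_Map H H' Q φ) (c : Line X) (hc : ∀ t, 0 ≤ t → c.1 t ∈ Q) (s t : ℝ)
    (hs : 0 ≤ s) (ht : 0 ≤ t) : dist (φ (c.1 s)) (φ (c.1 t)) = |s - t| := by
  obtain ⟨K, hK⟩ := M.rough
  have key : ∀ T : ℝ, 0 < T → s ≤ T → t ≤ T →
      |dist (φ (c.1 s)) (φ (c.1 t)) - abs (s - t)| ≤ |s - t| * K / T := by
    intro T hT hsT htT
    have e : ∀ u, 0 ≤ u → u ≤ T → φ (c.1 u) = pt H' (φ (c.1 0)) (φ (c.1 T)) (u / T) := by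
      intro u h0 h1
      have a0 : 0 ≤ u / T := by positivity
      have a1 : u / T ≤ 1 := by rwa [div_le_one hT]
      rw [← M.aff _ (hc 0 le_rfl) _ (hc T hT.le) _ a0 a1, pt_line H c 0 T a0 a1,
        mul_zero, zero_add, div_mul_cancel₀ _ hT.ne']
    have h1 := hK _ (hc 0 le_rfl) _ (hc T hT.le)
    rw [Line.dist_eq, zero_sub, abs_neg, abs_of_pos hT] at h1
    rw [e s hs hsT, e t ht htT, dist_pt, ← sub_div, abs_div, abs_of_pos hT]
    have h2 : |s - t| / T * dist (φ (c.1 0)) (φ (c.1 T)) - |s - t| =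
        |s - t| / T * (dist (φ (c.1 0)) (φ (c.1 T)) - T) := by field_simp
    rw [h2, abs_mul, abs_of_nonneg (by positivity : 0 ≤ |s - t| / T), mul_div_right_comm]
    exact mul_le_mul_of_nonneg_left h1 (by positivity)
  have h3 : Tendsto (fun T : ℝ => |s - t| * K / T) atTop (𝓝 0) :=
    tendsto_const_nhds.div_atTop tendsto_id
  have h4 : |dist (φ (c.1 s)) (φ (c.1 t)) - abs (s - t)| ≤ 0 := by
    refine ge_of_tendsto h3 ?_
    filter_upwards [eventually_gt_atTop 0, eventually_ge_atTop s, eventually_ge_atTop t]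
      with T h0 h1 h2 using key T h0 h1 h2
  exact sub_eq_zero.1 (abs_nonpos_iff.1 h4)

theorem iso_ray_line (M : iso_Map H H' Q φ) (c : Line X) (hc : ∀ t, 0 ≤ t → c.1 t ∈ Q) :
    ∃ c' : Line Y, ∀ t, 0 ≤ t → c'.1 t = φ (c.1 t) :=
  ray_extend H' (r := fun t => φ (c.1 t)) fun s t hs ht => iso_ray M c hc s t hs ht

/-- A straight line in a flat. -/
noncomputable def iso_fl {m : ℕ} {Z : Type} [MetricSpace Z] {j : E m → Z} (hj : Isometry j)
    (z θ : E m) (hθ : ‖θ‖ = 1) : Line Z :=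
  ⟨fun t => j (z + t • θ), Isometry.of_dist_eq fun s t => by
    rw [hj.dist_eq, dist_add_left, dist_eq_norm, ← sub_smul, norm_smul, hθ, mul_one,
      Real.dist_eq, Real.norm_eq_abs]⟩

theorem iso_flat {m : ℕ} (M : iso_Map H H' Q φ) {j : E m → X} (hj : Isometry j)
    (hQ : ∀ z, j z ∈ Q) : Isometry fun z => φ (j z) := by
  refine Isometry.of_dist_eq fun y z => ?_
  rcases eq_or_ne y z with rfl | hyz
  · simp
  have hd : 0 < ‖z - y‖ := norm_pos_iff.2 (sub_ne_zero.2 hyz.symm)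
  have hθ : ‖(‖z - y‖⁻¹ : ℝ) • (z - y)‖ = 1 := by
    rw [norm_smul, norm_inv, norm_norm, inv_mul_cancel₀ hd.ne']
  have h := iso_ray M (iso_fl hj y _ hθ) (fun t _ => hQ _) 0 ‖z - y‖ le_rfl hd.le
  simp only [iso_fl, zero_mul, zero_smul, add_zero, smul_smul, mul_inv_cancel₀ hd.ne', one_smul,
    add_sub_cancel, zero_sub, abs_neg, abs_of_pos hd] at h
  rw [h, dist_comm, dist_eq_norm]

theorem iso_asym (M : iso_Map H H' Q φ) {c d : Line X} {c' d' : Line Y}
    (hc : ∀ t, 0 ≤ t → c.1 t ∈ Q) (hd : ∀ t, 0 ≤ t → d.1 t ∈ Q)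
    (hc' : ∀ t, 0 ≤ t → c'.1 t = φ (c.1 t)) (hd' : ∀ t, 0 ≤ t → d'.1 t = φ (d.1 t))
    (h : Asym c d) : Asym c' d' := by
  obtain ⟨K, hK⟩ := M.rough
  obtain ⟨D, hD⟩ := h
  refine ⟨D + K, fun t ht => ?_⟩
  rw [hc' t ht, hd' t ht]
  have := (abs_le.1 (hK _ (hc t ht) _ (hd t ht))).2
  linarith [hD t ht]

/-- First variation: lines whose Busemann functions are preserved give equal inner products. -/
theorem iso_var (M : iso_Map H H' Q φ) (B : BusF H) (B' : BusF H') (hQ : Cvx Q)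
    {l c : Line X} {l' : Line Y} (hl : ∀ t, 0 ≤ t → l.1 t ∈ Q)
    (hl' : ∀ t, 0 ≤ t → l'.1 t = φ (l.1 t)) (hb : ∀ p ∈ Q, bus l' (φ p) = bus l p)
    (hc : ∀ t, 0 ≤ t → c.1 t ∈ Q) (ha : Asym l c) (p : X) (hp : p ∈ Q) :
    inner ℝ (lg H (c.1 0) p) (lg H (c.1 0) (c.1 1)) =
      inner ℝ (lg H' (φ (c.1 0)) (φ p)) (lg H' (φ (c.1 0)) (φ (c.1 1))) := by
  obtain ⟨c', hc'⟩ := iso_ray_line M c hc
  have ha' := iso_asym M hl hc hl' hc' ha
  have h0 := hc 0 le_rfl
  have e : ∀ q ∈ Q, bus c' (φ q) = bus c q := by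
    intro q hq
    have e1 := B.cocycle l c ha q
    have e2 := B'.cocycle l' c' ha' (φ q)
    rw [hc' 0 le_rfl, hb q hq, hb _ h0] at e2
    linarith
  have t1 := B.var c (lg H (c.1 0) p)
  have t2 := B'.var c' (lg H' (φ (c.1 0)) (φ p))
  rw [hc' 0 le_rfl, hc' 1 zero_le_one] at t2
  have t3 : (fun t : ℝ => bus c (ex H (c.1 0) (t • lg H (c.1 0) p)) / t) =ᶠ[𝓝[>] 0]
      fun t : ℝ => bus c' (ex H' (φ (c.1 0)) (t • lg H' (φ (c.1 0)) (φ p))) / t := by
    filter_upwards [Ioc_mem_nhdsGT (zero_lt_one : (0 : ℝ) < 1)] with t ht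
    have e3 := M.aff _ h0 _ hp t ht.1.le ht.2
    have e4 := e _ (hQ _ h0 _ hp _ (btw_pt H _ _ ht.1.le ht.2))
    rw [e3] at e4
    change bus c (pt H (c.1 0) p t) / t = bus c' (pt H' (φ (c.1 0)) (φ p) t) / t
    rw [e4]
  exact neg_injective (tendsto_nhds_unique (t1.congr' t3) t2)

/-- If asymptotic rays approach the wall, the Busemann function is preserved. -/
theorem iso_bus {m : ℕ} (M : iso_Map H H' Q φ) (B : BusF H) (B' : BusF H') (hcl : IsClosed Q)
    (hQ : Cvx Q) {j : E m → X} (hj : Isometry j) (hjQ : ∀ z, j z ∈ Q) (θ : E m) (hθ : ‖θ‖ = 1)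
    (happ : ∀ r : Line X, Asym (iso_fl hj 0 θ hθ) r → (∀ t, 0 ≤ t → r.1 t ∈ Q) → ∀ δ : ℝ,
      0 < δ → ∃ t z, 0 ≤ t ∧ dist (r.1 t) (j z) ≤ δ) (p : X) (hp : p ∈ Q) :
    bus (iso_fl (iso_flat M hj hjQ) 0 θ hθ) (φ p) = bus (iso_fl hj 0 θ hθ) p := by
  set l := iso_fl hj 0 θ hθ with hl
  set l' := iso_fl (iso_flat M hj hjQ) 0 θ hθ with hl'
  have hlQ : ∀ t, 0 ≤ t → l.1 t ∈ Q := fun t _ => hjQ _
  have hll : ∀ t, 0 ≤ t → l'.1 t = φ (l.1 t) := fun t _ => rfl
  obtain ⟨r, hr0, hra, hrQ⟩ := B.exi l p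
  have hrQ' := hrQ Q hcl hQ hp hlQ
  obtain ⟨r', hr'⟩ := iso_ray_line M r hrQ'
  have hra' := iso_asym M hlQ hrQ' hll hr' hra
  have e1 : ∀ t, 0 ≤ t → bus l' (φ (r.1 t)) - bus l (r.1 t) = bus l' (φ p) - bus l p := by
    intro t ht
    have a1 := B.cocycle l r hra (r.1 t)
    have a2 := B'.cocycle l' r' hra' (r'.1 t)
    rw [B.self, hr0] at a1
    rw [B'.self, hr' t ht, hr' 0 le_rfl, hr0] at a2
    linarith
  have e2 : ∀ z, bus l' (φ (j z)) = bus l (j z) := by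
    intro z
    refine tendsto_nhds_unique (B'.tend l' (φ (j z))) ((B.tend l (j z)).congr fun S => ?_)
    have a1 : dist (j z) (l.1 S) = dist z (0 + S • θ) := hj.dist_eq _ _
    have a2 : dist (φ (j z)) (l'.1 S) = dist z (0 + S • θ) := (iso_flat M hj hjQ).dist_eq _ _
    rw [a1, a2]
  have e3 : ∀ ε : ℝ, 0 < ε → |bus l' (φ p) - bus l p| ≤ ε + ε := by
    intro ε hε
    obtain ⟨δ, hδ, hu⟩ := M.uc ε hε
    obtain ⟨t, z, ht, hz⟩ := happ r hra hrQ' (min δ ε) (lt_min hδ hε)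
    have a1 := hu _ (hrQ' t ht) _ (hjQ z) (hz.trans (min_le_left _ _))
    have a2 := abs_le.1 ((B'.lip l' (φ (r.1 t)) (φ (j z))).trans a1)
    have a3 := abs_le.1 ((B.lip l (r.1 t) (j z)).trans (hz.trans (min_le_right _ _)))
    rw [← e1 t ht, abs_le]
    constructor <;> linarith [e2 z, a2.1, a2.2, a3.1, a3.2]
  have e4 : |bus l' (φ p) - bus l p| ≤ 0 :=
    le_of_forall_pos_le_add fun ε hε => by linarith [e3 (ε / 2) (by linarith)]
  exact sub_eq_zero.1 (abs_nonpos_iff.1 e4)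

end map

section graph

variable {m : ℕ} {Γ X Y : Type} [Group Γ] [MetricSpace X] [MetricSpace Y] [MulAction Γ X]

theorem iso_map {H : Hadamard (m + 1) X} {H' : Hadamard (m + 1) Y} {G : Graph m Γ X}
    {b : Γ → Y → Y} {F : Line X → Line Y} (M : Main H H' G b F) (i : G.I) :
    iso_Map H H' (G.Q i) (phi G F i) := by
  have hn : ∀ p ∈ G.Q i, ∀ q ∈ G.Q i, Near (fib G i p).1 (fib G i q).1 := fun p hp q hq =>
    iso_near_trans (fib_spec G hp).2.1 (iso_near_symm (fib_spec G hq).2.1)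
  have hd : ∀ p ∈ G.Q i, ∀ q ∈ G.Q i, dist (phi G F i p) (phi G F i q) =
      dist ((F (fib G i p)).1 0) ((F (fib G i q)).1 0) := fun p hp q hq =>
    M.gy.par.const _ _ (M.con.near _ _ (hn p hp q hq)) _
  refine ⟨fun p hp q hq s h0 h1 => ?_, ?_, fun ε hε => ?_⟩
  · have hx : pt H p q s ∈ G.Q i := G.convex i p hp q hq _ (btw_pt H p q h0 h1)
    have a1 := M.con.aff _ _ _ (hn p hp q hq) (hn p hp _ hx) s h0 h1
      (by rw [(fib_spec G hx).1, (fib_spec G hp).1, (fib_spec G hq).1])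
    obtain ⟨d, hd1, -, hd2⟩ := M.gy.par.mid _ _ (M.con.near _ _ (hn p hp q hq)) s h0 h1
    have a2 : F (fib G i (pt H p q s)) = d := by
      refine M.gy.bus.uniq _ _ (iso_near_asym (iso_near_trans
        (iso_near_symm (M.con.near _ _ (hn p hp _ hx))) hd1)) ?_
      rw [a1, hd2]
      ring_nf
    rw [phi, phi, phi, hd2, a2]
    ring_nf
  · obtain ⟨K, hK⟩ := M.con.rough
    refine ⟨K, fun p hp q hq => ?_⟩
    have := hK (fib G i p) (fib G i q)
    rwa [(fib_spec G hp).1, (fib_spec G hq).1, ← hd p hp q hq] at this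
  · obtain ⟨δ, hδ, hu⟩ := M.con.uc ε hε
    refine ⟨δ, hδ, fun p hp q hq h => ?_⟩
    rw [hd p hp q hq]
    have a1 : dist ((fib G i p).1 0) ((fib G i q).1 0) ≤ δ := by
      rwa [(fib_spec G hp).1, (fib_spec G hq).1]
    exact hu _ _ 1 (Or.inl rfl) a1 (by rwa [M.gx.par.const _ _ (hn p hp q hq)])

/-- Rays asymptotic to a good direction approach the wall. -/
theorem iso_app [ProperSpace X] (G : Graph m Γ X) (hi : ∀ γ : Γ, Isometry fun x : X => γ • x)
    (a : G.A) (θ : E m) (hθ : Good G a θ) (r : Line X)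
    (hr : Asym (iso_fl (G.flat a) 0 θ hθ.1) r) (hQ : ∀ t, 0 ≤ t → r.1 t ∈ G.Q (G.pc a))
    (δ : ℝ) (hδ : 0 < δ) : ∃ t z, 0 ≤ t ∧ dist (r.1 t) (G.j a z) ≤ δ := by
  by_contra hcon
  push Not at hcon
  obtain ⟨D, hD⟩ := hr
  obtain ⟨R, hR⟩ := G.torus a
  let S : ℕ → Set (Line X) := fun k => {c | ∀ t : ℝ, -(k : ℝ) ≤ t → c.1 t ∈ G.Q (G.pc a) ∧
    (∀ z, δ ≤ dist (c.1 t) (G.j a z)) ∧ dist (c.1 t) (G.j a (t • θ)) ≤ D + R}
  have hcl : ∀ k, IsClosed (S k) := by
    intro k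
    simp only [S, Set.ofPred_forall, Set.ofPred_and]
    refine isClosed_iInter fun t => isClosed_iInter fun _ => IsClosed.inter
      ((G.closed _).preimage (line_eval_cont t)) (IsClosed.inter (isClosed_iInter fun z => ?_) ?_)
    · exact isClosed_le continuous_const ((line_eval_cont t).dist continuous_const)
    · exact isClosed_le ((line_eval_cont t).dist continuous_const) continuous_const
  have hne : ∀ k, (S k).Nonempty := by
    intro k
    obtain ⟨γ, y, h1, h2, h3⟩ := hR ((k : ℝ) • θ)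
    refine ⟨mapL (hi γ) (flow k r), fun t ht => ⟨h3 _ (hQ _ (by linarith)), fun z => ?_, ?_⟩⟩
    · have a1 : G.j a z = γ • G.j a (z - y) := by rw [h2, sub_add_cancel]
      rw [a1]
      exact ((hcon (t + k) (z - y) (by linarith)).le).trans ((hi γ).dist_eq _ _).ge
    · have a1 : dist (γ • r.1 (t + k)) (γ • G.j a ((t + k) • θ)) ≤ D := by
        have := hD (t + k) (by linarith)
        rw [dist_comm] at this
        refine ((hi γ).dist_eq _ _).le.trans ?_
        simpa [iso_fl] using this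
      have a2 : dist (γ • G.j a ((t + k) • θ)) (G.j a (t • θ)) ≤ R := by
        rw [h2, (G.flat a).dist_eq, dist_eq_norm, add_smul, add_assoc, add_sub_cancel_left]
        exact h1
      exact (dist_triangle _ _ _).trans (add_le_add a1 a2)
  have hcp : IsCompact (S 0) := by
    refine (lines_compact (isCompact_closedBall (G.j a ((0 : ℝ) • θ)) (D + R))).of_isClosed_subset
      (hcl 0) fun c hc => ?_
    exact (hc 0 (by simp)).2.2
  obtain ⟨c, hc⟩ := IsCompact.nonempty_iInter_of_sequence_nonempty_isCompact_isClosed S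
    (fun k c hc t ht => hc t (by push_cast; linarith)) hne hcp hcl
  have hc' : ∀ t : ℝ, c.1 t ∈ G.Q (G.pc a) ∧ (∀ z, δ ≤ dist (c.1 t) (G.j a z)) ∧
      dist (c.1 t) (G.j a (t • θ)) ≤ D + R := by
    intro t
    obtain ⟨k, hk⟩ := exists_nat_ge (-t)
    exact Set.mem_iInter.1 hc k t (by linarith)
  obtain ⟨z, hz⟩ := hθ.2 c (fun t => (hc' t).1) ⟨D + R, fun t => (hc' t).2.2⟩
  have := (hc' 0).2.1 z
  rw [hz, dist_self] at this
  linarith

/-- A good direction transverse to the fibre. -/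
theorem iso_good (G : Graph m Γ X) (hm : 3 ≤ m) (W : WalF G) (a : G.A) :
    ∃ θ, Good G a θ ∧ perp (G.v a) θ ≠ 0 := by
  by_contra hcon
  push Not at hcon
  have h1 : (⊤ : Submodule ℝ (E m)) ≤ Submodule.span ℝ {G.v a} := by
    rw [← W.span a, Submodule.span_le]
    intro θ hθ
    have h2 : θ = inner ℝ θ (G.v a) • G.v a := sub_eq_zero.1 (hcon θ hθ)
    rw [h2]
    exact Submodule.smul_mem _ _ (Submodule.mem_span_singleton_self _)
  have h3 := Submodule.finrank_mono h1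
  have h4 : Module.finrank ℝ (Submodule.span ℝ {G.v a}) ≤ 1 := by
    simpa using finrank_span_le_card (R := ℝ) ({G.v a} : Set (E m))
  rw [finrank_top, finrank_euclideanSpace_fin] at h3
  omega

/-- Distances from a wall point are preserved. -/
theorem iso_wall [ProperSpace X] {H : Hadamard (m + 1) X} {H' : Hadamard (m + 1) Y}
    {G : Graph m Γ X} {b : Γ → Y → Y} {F : Line X → Line Y} (M : Main H H' G b F) (a : G.A)
    (z : E m) (p : X) (hp : p ∈ G.Q (G.pc a)) :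
    dist (phi G F (G.pc a) (G.j a z)) (phi G F (G.pc a) p) = dist (G.j a z) p := by
  have N := iso_map M (G.pc a)
  set φ := phi G F (G.pc a) with hφ
  set x := G.j a z with hx
  have hcv : Cvx (G.Q (G.pc a)) := G.convex _
  let T : Set X := {q | q ∈ G.Q (G.pc a) ∧ ∀ p ∈ G.Q (G.pc a), inner ℝ (lg H x p) (lg H x q) =
    inner ℝ (lg H' (φ x) (φ p)) (lg H' (φ x) (φ q))}
  have key : ∀ a' (ha' : G.pc a' = G.pc a) θ (hθ : Good G a' θ) (c : Line X), c.1 0 = x →
      (∀ t, 0 ≤ t → c.1 t ∈ G.Q (G.pc a)) → Asym (iso_fl (G.flat a') 0 θ hθ.1) c →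
      c.1 1 ∈ T := by
    intro a' ha' θ hθ c hc0 hcQ hca
    have hjQ : ∀ u, G.j a' u ∈ G.Q (G.pc a) := fun u => ha' ▸ G.mem a' u
    refine ⟨hcQ 1 zero_le_one, fun p hp => ?_⟩
    have h1 := iso_bus N M.gx.bus M.gy.bus (G.closed _) hcv (G.flat a') hjQ θ hθ.1
      fun r hr hrQ δ hδ => iso_app G M.conj.isoX a' θ hθ r hr (ha' ▸ hrQ) δ hδ
    have h2 := iso_var N M.gx.bus M.gy.bus hcv (l := iso_fl (G.flat a') 0 θ hθ.1)
      (fun t _ => hjQ _) (fun t _ => rfl) h1 hcQ hca p hp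
    rwa [hc0] at h2
  rw [← norm_lg H, ← norm_lg H']
  refine iso_lin ((fun q => (lg H x q, lg H' (φ x) (φ q))) '' T) ?_ ?_ _ _ ?_
  · rintro _ ⟨q, hq, rfl⟩ _ ⟨q', hq', rfl⟩
    exact hq'.2 q hq.1
  · obtain ⟨L, hL⟩ := M.gx.fla.lin _ (G.flat a) z
    set U := Submodule.span ℝ (Prod.fst '' ((fun q => (lg H x q, lg H' (φ x) (φ q))) '' T))
      with hU
    have hT : ∀ q ∈ T, lg H x q ∈ U := fun q hq =>
      Submodule.subset_span ⟨_, ⟨q, hq, rfl⟩, rfl⟩
    have h1 : LinearMap.range L.toLinearMap ≤ U := by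
      rw [LinearMap.range_eq_map, ← M.wal.span a, Submodule.map_span, Submodule.span_le]
      rintro _ ⟨θ, hθ, rfl⟩
      have h2 := hT _ (key a rfl θ hθ (iso_fl (G.flat a) z θ hθ.1) (by simp [iso_fl, hx])
        (fun t _ => G.mem a _) ⟨‖z‖, fun t _ => by
          simp only [iso_fl]
          rw [(G.flat a).dist_eq, dist_add_right, dist_comm, dist_zero_right]⟩)
      simp only [iso_fl, one_smul] at h2
      rw [← hL, lg_ex] at h2
      exact h2
    obtain ⟨a', C, ha', hC⟩ := G.visible a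
    obtain ⟨θ, hθ, hθ'⟩ := iso_good G M.dim M.wal a'
    obtain ⟨c, hc0, hca, hcQ⟩ := M.gx.bus.exi (iso_fl (G.flat a') 0 θ hθ.1) x
    have hcQ' := hcQ _ (G.closed _) hcv (G.mem a z) fun t _ => ha' ▸ G.mem a' _
    have h3 := hT _ (key a' ha' θ hθ c hc0 hcQ' hca)
    have h4 : lg H x (c.1 1) ∉ LinearMap.range L.toLinearMap := by
      rintro ⟨w, hw⟩
      obtain ⟨D, hD⟩ := hca
      have hpos : 0 < ‖perp (G.v a') θ‖ := norm_pos_iff.2 hθ'
      have h5 : ∀ t : ℝ, 0 ≤ t → t * ‖perp (G.v a') θ‖ ≤ D + C := by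
        intro t ht
        have a1 := (line_radial H c).2 t
        have hw' : L w = lg H x (c.1 1) := hw
        rw [hc0, ← hw', ← map_smul, hL] at a1
        have a2 := hD t ht
        have a3 := hC (z + t • w) (0 + t • θ)
        have a4 : perp (G.v a') (0 + t • θ) = t • perp (G.v a') θ := by
          simp only [perp, zero_add, inner_smul_left, smul_sub, smul_smul, conj_trivial]
        rw [a4, norm_smul, Real.norm_eq_abs, abs_of_nonneg ht, ← a1, dist_comm] at a3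
        have a5 : dist (G.j a' (0 + t • θ)) (c.1 t) ≤ D := a2
        linarith [norm_nonneg (perp (G.v a) (z + t • w))]
      have a6 := h5 ((|D + C| + 1) / ‖perp (G.v a') θ‖) (by positivity)
      rw [div_mul_cancel₀ _ hpos.ne'] at a6
      linarith [le_abs_self (D + C)]
    have h6 : LinearMap.range L.toLinearMap < U :=
      lt_of_le_of_ne h1 fun h => h4 (h ▸ h3)
    have h7 := Submodule.finrank_lt_finrank_of_lt h6
    rw [LinearMap.finrank_range_of_inj L.injective, finrank_euclideanSpace_fin] at h7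
    apply Submodule.eq_top_of_finrank_eq
    have h8 := Submodule.finrank_le U
    rw [finrank_euclideanSpace_fin] at h8 ⊢
    omega
  · rintro _ ⟨q, hq, rfl⟩
    exact hq.2 p hp

end graph

theorem iso_main : SpIso := by
  intro m Γ X Y _ _ _ _ _ _ H H' G b F M i p hp q hq
  have N := iso_map M i
  rcases eq_or_ne p q with rfl | hpq
  · simp
  have hd : 0 < dist p q := dist_pos.2 hpq
  obtain ⟨c, hc0, hc1⟩ := exists_line H (Nat.succ_pos m) p q
  by_cases hc : ∀ t, 0 ≤ t → c.1 t ∈ G.Q i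
  · have := iso_ray N c hc 0 (dist p q) le_rfl hd.le
    rwa [hc0, hc1, zero_sub, abs_neg, abs_of_pos hd] at this
  push Not at hc
  obtain ⟨t₀, ht₀, hQ₀⟩ := hc
  let A : Set ℝ := c.1 ⁻¹' G.Q i
  have hA : IsClosed A := (G.closed i).preimage c.2.continuous
  have hdA : dist p q ∈ A := by
    change c.1 _ ∈ G.Q i
    rwa [hc1]
  have hbd : BddAbove A := by
    refine ⟨t₀, fun t ht => ?_⟩
    by_contra h
    exact hQ₀ (G.convex i _ (hc0 ▸ hp) _ ht _ (btw_line c ht₀ (not_le.1 h).le))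
  set T := sSup A with hT
  have hTA : c.1 T ∈ G.Q i := hA.csSup_mem ⟨_, hdA⟩ hbd
  have hdT : dist p q ≤ T := le_csSup hbd hdA
  have hT0 : 0 < T := hd.trans_le hdT
  have hfr : c.1 T ∈ frontier (G.Q i) := by
    refine ⟨subset_closure hTA, fun h => ?_⟩
    have h1 : A ∈ 𝓝 T := c.2.continuous.continuousAt.preimage_mem_nhds
      (mem_interior_iff_mem_nhds.1 h)
    obtain ⟨t, ht, ht'⟩ := ((eventually_mem_nhdsWithin (s := Set.Ioi T) (a := T)).and
      (mem_nhdsWithin_of_mem_nhds h1)).exists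
    exact absurd (le_csSup hbd ht') (not_le.2 ht)
  obtain ⟨a, z, rfl, hz⟩ := G.front i _ hfr
  have h2 := iso_wall M a z p hp
  rw [← hz, ← hc0, Line.dist_eq, sub_zero, abs_of_pos hT0, hc0, dist_comm] at h2
  have a0 : 0 ≤ dist p q / T := by positivity
  have a1 : dist p q / T ≤ 1 := by rwa [div_le_one hT0]
  have h3 : pt H p (c.1 T) (dist p q / T) = q := by
    have := pt_line H c 0 T a0 a1
    rw [hc0, mul_zero, zero_add, div_mul_cancel₀ _ hT0.ne', hc1] at this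
    exact this
  have h4 := N.aff p hp _ hTA _ a0 a1
  rw [h3] at h4
  rw [h4, dist_pt_left H' _ _ a0, h2, div_mul_cancel₀ _ hT0.ne']

end Pool.Agent.MP_3ee8cb_gt.G76
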