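import Pool.Agent.MP_3ee8cb_gt.G76.Spec

open Filter Topology

namespace Pool.Agent.MP_3ee8cb_gt.G76

variable {n : ℕ} {X : Type} [MetricSpace X]

/-- A convex function on the real line that is bounded above is constant. -/
theorem par_cvx_le (f : ℝ → ℝ) (D : ℝ) (hD : ∀ t, f t ≤ D)
    (hc : ∀ a b s, 0 ≤ s → s ≤ 1 → f ((1 - s) * a + s * b) ≤ (1 - s) * f a + s * f b)
    (a t : ℝ) : f t ≤ f a := by
  by_contra hlt
  have hlt' : f a < f t := not_le.1 hlt
  have hM : 0 < D - f a := by linarith [hD t]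
  set s := (f t - f a) / (2 * (D - f a)) with hs
  have hs0 : 0 < s := div_pos (by linarith) (by linarith)
  have hs1 : s ≤ 1 := by
    rw [hs, div_le_one (by linarith)]
    linarith [hD t]
  have h1 := hc a (a + (t - a) / s) s hs0.le hs1
  rw [show (1 - s) * a + s * (a + (t - a) / s) = t by field_simp; ring] at h1
  have h2 : s * f (a + (t - a) / s) ≤ s * D := mul_le_mul_of_nonneg_left (hD _) hs0.le
  have h3 : s * (D - f a) = (f t - f a) / 2 := by rw [hs]; field_simp
  nlinarith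

theorem par_near_symm {α : Type} {f g : α → X} (h : Near f g) : Near g f := by
  obtain ⟨D, hD⟩ := h
  exact ⟨D, fun a => by rw [dist_comm]; exact hD a⟩

theorem par_near_trans {α : Type} {f g k : α → X} (h : Near f g) (h' : Near g k) : Near f k := by
  obtain ⟨D, hD⟩ := h
  obtain ⟨D', hD'⟩ := h'
  exact ⟨D + D', fun a => (dist_triangle _ (g a) _).trans (add_le_add (hD a) (hD' a))⟩

theorem par_near_asym {c c' : Line X} (h : Near c.1 c'.1) : Asym c c' := by
  obtain ⟨D, hD⟩ := h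
  exact ⟨D, fun t _ => hD t⟩

theorem par_near_rev {c c' : Line X} (h : Near c.1 c'.1) : Near (rev c).1 (rev c').1 := by
  obtain ⟨D, hD⟩ := h
  exact ⟨D, fun t => hD (-t)⟩

theorem par_near_flow (c : Line X) (k : ℝ) : Near c.1 (flow k c).1 :=
  ⟨|k|, fun t => by
    rw [flow_apply, Line.dist_eq, show t - (t + k) = -k by ring, abs_neg]⟩

theorem par_asym_trans {e c d : Line X} (h : Near c.1 e.1) (h' : Asym c d) : Asym e d := by
  obtain ⟨D, hD⟩ := h
  obtain ⟨D', hD'⟩ := h'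
  exact ⟨D + D', fun t ht =>
    (dist_triangle_left _ _ (c.1 t)).trans (add_le_add (hD t) (hD' t ht))⟩

theorem par_const (H : Hadamard n X) (c c' : Line X) (h : Near c.1 c'.1) (t : ℝ) :
    dist (c.1 t) (c'.1 t) = dist (c.1 0) (c'.1 0) := by
  obtain ⟨D, hD⟩ := h
  have key := par_cvx_le (fun t => dist (c.1 t) (c'.1 t)) D hD
    fun a b s h0 h1 => line_conv H c c' a b a b h0 h1
  exact le_antisymm (key 0 t) (key t 0)

theorem par_shift (H : Hadamard n X) (c c' : Line X) (h : Near c.1 c'.1) (a b : ℝ) :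
    dist (c.1 a) (c'.1 b) = dist (c.1 0) (c'.1 (b - a)) := by
  have := par_const H c (flow (b - a) c') (par_near_trans h (par_near_flow c' (b - a))) a
  rwa [flow_apply, flow_apply, zero_add, add_sub_cancel] at this

theorem par_sum {H : Hadamard n X} (B : BusF H) (c c' : Line X) (h : Near c.1 c'.1) :
    bus c (c'.1 0) + bus (rev c) (c'.1 0) = 0 := by
  have e1 := B.cocycle c c' (par_near_asym h) (c.1 0)
  have e2 := B.cocycle (rev c) (rev c') (par_near_asym (par_near_rev h)) (c.1 0)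
  have e3 := B.self c 0
  have e4 := B.self (rev c) 0
  have e5 := B.sum c (c'.1 0)
  have e6 := B.sum c' (c.1 0)
  simp only [rev_apply, neg_zero] at e2 e3 e4
  linarith

theorem par_bus_at {H : Hadamard n X} (B : BusF H) (c c' : Line X) (h : Near c.1 c'.1) (t : ℝ) :
    bus c (c'.1 t) = bus c (c'.1 0) - t := by
  have e1 := B.cocycle c c' (par_near_asym h) (c'.1 t)
  rw [B.self] at e1
  linarith

theorem par_bus_rev {H : Hadamard n X} (B : BusF H) (c c' : Line X) (h : Near c.1 c'.1) (t : ℝ) :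
    bus (rev c) (c'.1 t) = t - bus c (c'.1 0) := by
  have e1 := par_bus_at B (rev c) (rev c') (par_near_rev h) (-t)
  have e2 := par_sum B c c' h
  simp only [rev_apply, neg_neg, neg_zero] at e1
  linarith

theorem par_bus_ge {H : Hadamard n X} (B : BusF H) (c : Line X) (q : X) (v : E n) (hv : ‖v‖ = 1)
    (hc : ∀ t, c.1 t = ex H (c.1 0) (t • v)) : -inner ℝ (lg H (c.1 0) q) v ≤ bus c q := by
  refine ge_of_tendsto' (B.tend c q) fun S => ?_
  have e1 := ex_exp H (c.1 0) (S • v) (lg H (c.1 0) q)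
  rw [ex_lg, ← hc S, dist_comm] at e1
  have e2 := real_inner_le_norm (S • v - lg H (c.1 0) q) v
  rw [inner_sub_left, real_inner_smul_left, real_inner_self_eq_norm_sq, hv] at e2
  linarith

theorem par_lower {H : Hadamard n X} (B : BusF H) (c c' : Line X) (h : Near c.1 c'.1) (r : ℝ) :
    dist (c.1 0) (c'.1 0) ^ 2 + 2 * r * bus c (c'.1 0) + r ^ 2 ≤ dist (c.1 r) (c'.1 0) ^ 2 := by
  obtain ⟨hv, hc⟩ := line_radial H c
  set v := lg H (c.1 0) (c.1 1) with hvdef
  have e1 := par_bus_ge B c (c'.1 0) v hv hc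
  have e2 := par_bus_ge B (rev c) (c'.1 0) (-v) (by rw [norm_neg, hv]) fun t => by
    rw [rev_apply, rev_apply, neg_zero, smul_neg, ← neg_smul]
    exact hc (-t)
  rw [rev_apply, neg_zero, inner_neg_right, neg_neg] at e2
  have e3 := par_sum B c c' h
  have e4 : bus c (c'.1 0) = -inner ℝ (lg H (c.1 0) (c'.1 0)) v := by linarith
  have e5 := ex_exp H (c.1 0) (lg H (c.1 0) (c'.1 0)) (r • v)
  rw [ex_lg, ← hc r, dist_comm] at e5
  have e6 := pow_le_pow_left₀ (norm_nonneg _) e5 2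
  rw [norm_sub_sq_real, real_inner_smul_right, norm_smul, hv, norm_lg, Real.norm_eq_abs, mul_one,
    sq_abs] at e6
  rw [e4]
  linarith

theorem par_strip {H : Hadamard n X} (B : BusF H) (c c' : Line X) (h : Near c.1 c'.1)
    (a b : ℝ) : dist (c.1 a) (c'.1 b) ^ 2 =
      dist (c.1 0) (c'.1 0) ^ 2 - 2 * (b - a) * bus c (c'.1 0) + (b - a) ^ 2 := by
  rw [par_shift H c c' h a b]
  generalize b - a = k
  have e1 := par_lower B c c' h (-k)
  rw [par_shift H c c' h (-k) 0, sub_neg_eq_add, zero_add] at e1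
  have e2 := par_lower B c (flow k c') (par_near_trans h (par_near_flow c' k)) k
  rw [flow_apply, zero_add, par_const H c c' h k, par_bus_at B c c' h k] at e2
  nlinarith

theorem par_mid {H : Hadamard n X} (B : BusF H) (c c' : Line X) (h : Near c.1 c'.1) (s : ℝ)
    (h0 : 0 ≤ s) (h1 : s ≤ 1) : ∃ d : Line X, Near c.1 d.1 ∧
    bus c (d.1 0) = s * bus c (c'.1 0) ∧
    ∀ a b, pt H (c.1 a) (c'.1 b) s = d.1 ((1 - s) * a + s * b) := by
  have hb : ∀ r, bus c (pt H (c.1 r) (c'.1 r) s) = s * bus c (c'.1 0) - r := by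
    intro r
    have e1 := B.cvx c (c.1 r) (c'.1 r) s h0 h1
    have e2 := B.cvx (rev c) (c.1 r) (c'.1 r) s h0 h1
    have e3 := B.sum c (pt H (c.1 r) (c'.1 r) s)
    have e4 := B.self (rev c) (-r)
    rw [rev_apply, neg_neg] at e4
    rw [B.self, par_bus_at B c c' h r] at e1
    rw [e4, par_bus_rev B c c' h r] at e2
    nlinarith
  have hiso : Isometry fun r => pt H (c.1 r) (c'.1 r) s := by
    refine Isometry.of_dist_eq fun a b => le_antisymm ?_ ?_
    · have := pt_conv H (c.1 a) (c'.1 a) (c.1 b) (c'.1 b) h0 h1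
      rw [Line.dist_eq, Line.dist_eq] at this
      rw [Real.dist_eq]
      linarith
    · have := B.lip c (pt H (c.1 a) (c'.1 a) s) (pt H (c.1 b) (c'.1 b) s)
      rw [hb, hb, show s * bus c (c'.1 0) - a - (s * bus c (c'.1 0) - b) = b - a by ring,
        abs_sub_comm] at this
      rw [Real.dist_eq]
      exact this
  set d : Line X := ⟨fun r => pt H (c.1 r) (c'.1 r) s, hiso⟩ with hd
  have hd0 : d.1 0 = pt H (c.1 0) (c'.1 0) s := rfl
  have hn : Near c.1 d.1 := ⟨s * dist (c.1 0) (c'.1 0), fun r => by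
    change dist (c.1 r) (pt H (c.1 r) (c'.1 r) s) ≤ _
    rw [dist_pt_left H _ _ h0, par_const H c c' h r]⟩
  have hβ : bus c (d.1 0) = s * bus c (c'.1 0) := by rw [hd0, hb, sub_zero]
  refine ⟨d, hn, hβ, fun a b => (pt_unique H h0 h1 ?_ ?_).symm⟩
  · have e1 := par_strip B c d hn a ((1 - s) * a + s * b)
    have e2 := par_strip B c c' h a b
    rw [hβ, hd0, dist_pt_left H _ _ h0] at e1
    refine (pow_left_inj₀ dist_nonneg (mul_nonneg h0 dist_nonneg) two_ne_zero).1 ?_
    rw [e1, mul_pow s (dist (c.1 a) (c'.1 b)), e2]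
    ring
  · have e1 := par_strip B d c' (par_near_trans (par_near_symm hn) h) ((1 - s) * a + s * b) b
    have e2 := par_strip B c c' h a b
    have e3 := B.cocycle c d (par_near_asym hn) (c'.1 0)
    have e4 : bus d (c'.1 0) = (1 - s) * bus c (c'.1 0) := by rw [hβ] at e3; linarith
    rw [e4, hd0, dist_pt_right H _ _ h1] at e1
    refine (pow_left_inj₀ dist_nonneg (mul_nonneg (sub_nonneg.2 h1) dist_nonneg)
      two_ne_zero).1 ?_
    rw [e1, mul_pow (1 - s) (dist (c.1 a) (c'.1 b)), e2]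
    ring

theorem par_glue {H : Hadamard n X} (B : BusF H) (c d d' : Line X) (h : Asym c d)
    (h' : Asym (rev c) d') (h0 : d.1 0 = d'.1 0)
    (he : ∃ e : Line X, Near c.1 e.1 ∧ e.1 0 = d.1 0) : d' = rev d ∧ Near c.1 d.1 := by
  obtain ⟨e, he, he0⟩ := he
  have e1 : e = d := B.uniq e d (par_asym_trans he h) he0
  have e2 : rev e = d' := B.uniq (rev e) d' (par_asym_trans (par_near_rev he) h')
    (by rw [rev_apply, neg_zero, he0, h0])
  subst e1
  exact ⟨e2.symm, he⟩

/-- A straight line in a flat. -/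
def par_ln {m : ℕ} {j : E m → X} (hj : Isometry j) (y u : E m) (hu : ‖u‖ = 1) : Line X :=
  ⟨fun t => j (y + t • u), Isometry.of_dist_eq fun s t => by
    rw [hj.dist_eq, dist_add_left, dist_eq_norm, ← sub_smul, norm_smul, hu, mul_one,
      Real.norm_eq_abs, Real.dist_eq]⟩

theorem par_ln_apply {m : ℕ} {j : E m → X} (hj : Isometry j) (y u : E m) (hu : ‖u‖ = 1) (t : ℝ) :
    (par_ln hj y u hu).1 t = j (y + t • u) := rfl

theorem par_unit {m : ℕ} {h : E m} (hh : h ≠ 0) : ∃ u : E m, ‖u‖ = 1 ∧ ‖h‖ • u = h := by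
  have hn : ‖h‖ ≠ 0 := norm_ne_zero_iff.2 hh
  refine ⟨‖h‖⁻¹ • h, ?_, ?_⟩
  · rw [norm_smul, norm_inv, norm_norm, inv_mul_cancel₀ hn]
  · rw [smul_smul, mul_inv_cancel₀ hn, one_smul]

theorem par_ln_near {m : ℕ} {j k : E m → X} (hj : Isometry j) (hk : Isometry k) (h : Near j k)
    (y z u : E m) (hu : ‖u‖ = 1) : Near (par_ln hj y u hu).1 (par_ln hk z u hu).1 := by
  obtain ⟨D, hD⟩ := h
  refine ⟨D + dist y z, fun t => ?_⟩
  rw [par_ln_apply, par_ln_apply]
  refine (dist_triangle _ (k (y + t • u)) _).trans (add_le_add (hD _) ?_)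
  rw [hk.dist_eq, dist_add_right]

theorem par_inv (H : Hadamard n X) {m : ℕ} {j k : E m → X} (hj : Isometry j) (hk : Isometry k)
    (h : Near j k) (y z : E m) : dist (j y) (k z) = dist (j 0) (k (z - y)) := by
  rcases eq_or_ne y 0 with rfl | hy
  · rw [sub_zero]
  · obtain ⟨u, hu, hyu⟩ := par_unit hy
    have := par_const H _ _ (par_ln_near hj hk h 0 (z - y) u hu) ‖y‖
    simpa only [par_ln_apply, hyu, zero_add, sub_add_cancel, zero_smul, add_zero] using this

theorem par_quad {H : Hadamard n X} (B : BusF H) {m : ℕ} {j k : E m → X} (hj : Isometry j)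
    (hk : Isometry k) (h : Near j k) (z u : E m) (hu : ‖u‖ = 1) : ∃ β : ℝ, ∀ t : ℝ,
    dist (j 0) (k (z + t • u)) ^ 2 = dist (j 0) (k z) ^ 2 - 2 * t * β + t ^ 2 := by
  refine ⟨bus (par_ln hj 0 u hu) ((par_ln hk z u hu).1 0), fun t => ?_⟩
  have := par_strip B _ _ (par_ln_near hj hk h 0 z u hu) 0 t
  simpa only [par_ln_apply, zero_smul, add_zero, sub_zero] using this

theorem par_flats {H : Hadamard n X} (B : BusF H) (m : ℕ) (j k : E m → X) (hj : Isometry j)
    (hk : Isometry k) (h : Near j k) :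
    ∃ (b : E m) (w : ℝ), 0 ≤ w ∧ ∀ y z, dist (j y) (k z) ^ 2 = ‖z - y + b‖ ^ 2 + w ^ 2 := by
  obtain ⟨A, hA⟩ : ∃ A : E m → ℝ,
      ∀ z, A z = dist (j 0) (k z) ^ 2 - ‖z‖ ^ 2 - dist (j 0) (k 0) ^ 2 := ⟨_, fun _ => rfl⟩
  have hsm : ∀ (t : ℝ) (z : E m), A (t • z) = t * A z := by
    intro t z
    rcases eq_or_ne z 0 with rfl | hz
    · simp [hA]
    · obtain ⟨u, hu, hzu⟩ := par_unit hz
      obtain ⟨β, hβ⟩ := par_quad B hj hk h 0 u hu
      have key : ∀ r : ℝ, A (r • u) = -2 * r * β := by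
        intro r
        have := hβ r
        rw [zero_add] at this
        rw [hA, this, norm_smul, hu, mul_one, Real.norm_eq_abs, sq_abs]
        ring
      have e1 := key (t * ‖z‖)
      have e2 := key ‖z‖
      rw [mul_smul, hzu] at e1
      rw [hzu] at e2
      rw [e1, e2]
      ring
  have hj2 : ∀ z x : E m, A (z + x) + A (z - x) = 2 * A z := by
    intro z x
    rcases eq_or_ne x 0 with rfl | hx
    · rw [add_zero, sub_zero, two_mul]
    · obtain ⟨u, hu, hxu⟩ := par_unit hx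
      obtain ⟨β, hβ⟩ := par_quad B hj hk h z u hu
      have e1 := hβ ‖x‖
      have e2 := hβ (-‖x‖)
      rw [hxu] at e1
      rw [neg_smul, hxu, ← sub_eq_add_neg] at e2
      rw [hA, hA, hA, e1, e2, norm_add_sq_real, norm_sub_sq_real]
      ring
  have hadd : ∀ x y : E m, A (x + y) = A x + A y := by
    intro x y
    have e1 := hj2 ((1 / 2 : ℝ) • (x + y)) ((1 / 2 : ℝ) • (x - y))
    rw [show (1 / 2 : ℝ) • (x + y) + (1 / 2 : ℝ) • (x - y) = x by module,
      show (1 / 2 : ℝ) • (x + y) - (1 / 2 : ℝ) • (x - y) = y by module, hsm] at e1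
    linarith
  let L : E m →ₗ[ℝ] ℝ := ⟨⟨A, hadd⟩, hsm⟩
  obtain ⟨b, hb⟩ : ∃ b : E m, ∀ z, A z = 2 * inner ℝ z b := by
    refine ⟨(1 / 2 : ℝ) • (InnerProductSpace.toDual ℝ (E m)).symm
      (LinearMap.toContinuousLinearMap L), fun z => ?_⟩
    rw [real_inner_smul_right, real_inner_comm, InnerProductSpace.toDual_symm_apply]
    change A z = 2 * (1 / 2 * A z)
    ring
  refine ⟨b, dist (j 0) (k (-b)), dist_nonneg, fun y z => ?_⟩
  rw [par_inv H hj hk h y z]
  have e1 := hA (z - y)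
  have e2 := hA (-b)
  rw [hb] at e1 e2
  rw [inner_neg_left, real_inner_self_eq_norm_sq, norm_neg] at e2
  rw [norm_add_sq_real]
  linarith

theorem par_slab {H : Hadamard n X} (B : BusF H) (m : ℕ) (j k : E m → X) (w : ℝ)
    (hj : Isometry j) (hk : Isometry k)
    (h : ∀ y z, dist (j y) (k z) ^ 2 = ‖z - y‖ ^ 2 + w ^ 2) (y z : E m) (s t : ℝ) (hs0 : 0 ≤ s)
    (hs1 : s ≤ 1) (ht0 : 0 ≤ t) (ht1 : t ≤ 1) :
    dist (pt H (j y) (k y) s) (pt H (j z) (k z) t) ^ 2 = ‖z - y‖ ^ 2 + (s - t) ^ 2 * w ^ 2 := by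
  have hw : ∀ x, dist (j x) (k x) ^ 2 = w ^ 2 := fun x => by simpa using h x x
  have hyy : dist (pt H (j y) (k y) s) (pt H (j y) (k y) t) ^ 2 = (s - t) ^ 2 * w ^ 2 := by
    rw [dist_pt, mul_pow, sq_abs, hw]
  rcases eq_or_ne (z - y) 0 with hzy | hzy
  · rw [hzy, sub_eq_zero.1 hzy, hyy]
    simp
  · obtain ⟨u, hu, hzu⟩ := par_unit hzy
    have hjk : Near j k := ⟨|w|, fun x => by
      have := sq_le_sq.1 (hw x).le
      rwa [abs_of_nonneg dist_nonneg] at this⟩
    have hn := par_ln_near hj hk hjk y y u hu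
    set c := par_ln hj y u hu with hc
    set c' := par_ln hk y u hu with hc'
    have c0 : c.1 0 = j y := by rw [hc, par_ln_apply, zero_smul, add_zero]
    have c0' : c'.1 0 = k y := by rw [hc', par_ln_apply, zero_smul, add_zero]
    have c1 : c.1 ‖z - y‖ = j z := by rw [hc, par_ln_apply, hzu, add_sub_cancel]
    have c1' : c'.1 ‖z - y‖ = k z := by rw [hc', par_ln_apply, hzu, add_sub_cancel]
    have hβ : bus c (c'.1 0) = 0 := by
      have e1 := par_strip B c c' hn 0 1
      have e2 : c'.1 1 = k (y + u) := by rw [hc', par_ln_apply, one_smul]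
      rw [e2, c0, h, add_sub_cancel_left, hu] at e1
      have e3 := hw y
      rw [← c0'] at e3
      linarith
    obtain ⟨d, hd, hdβ, hdp⟩ := par_mid B c c' hn s hs0 hs1
    obtain ⟨d', hd', hdβ', hdp'⟩ := par_mid B c c' hn t ht0 ht1
    have e1 := par_strip B d d' (par_near_trans (par_near_symm hd) hd') 0 ‖z - y‖
    have e2 := B.cocycle c d (par_near_asym hd) (d'.1 0)
    rw [hdβ, hdβ', hβ, mul_zero, mul_zero, add_zero] at e2
    have e3 := hdp 0 0
    have e4 := hdp' 0 0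
    have e5 := hdp' ‖z - y‖ ‖z - y‖
    rw [c0, c0', mul_zero, mul_zero, add_zero] at e3 e4
    rw [c1, c1', show (1 - t) * ‖z - y‖ + t * ‖z - y‖ = ‖z - y‖ by ring] at e5
    rw [← e2, ← e3, ← e4, ← e5, hyy] at e1
    rw [e1]
    ring

theorem par_main : SpPar := fun _ _ _ H _ B =>
  { const := par_const H
    sum := par_sum B
    strip := par_strip B
    mid := par_mid B
    glue := par_glue B
    flats := par_flats B
    slab := par_slab B }

end Pool.Agent.MP_3ee8cb_gt.G76
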