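import Pool.Agent.MP_3ee8cb_gt.G76.Spec

open Filter Topology

namespace Pool.Agent.MP_3ee8cb_gt.G76

variable {m : ℕ} {X : Type} [MetricSpace X]

/-- A line inside a flat. -/
def pro_wl {j : E m → X} (hj : Isometry j) (z u : E m) (hu : ‖u‖ = 1) : Line X :=
  ⟨fun t => j (z + t • u), Isometry.of_dist_eq fun s t => by
    rw [hj.dist_eq, dist_eq_norm, add_sub_add_left_eq_sub, ← sub_smul, norm_smul, hu, mul_one,
      Real.norm_eq_abs, Real.dist_eq]⟩

theorem pro_wl_apply {j : E m → X} (hj : Isometry j) (z u : E m) (hu : ‖u‖ = 1) (t : ℝ) :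
    (pro_wl hj z u hu).1 t = j (z + t • u) := rfl

theorem pro_wl_zero {j : E m → X} (hj : Isometry j) (z u : E m) (hu : ‖u‖ = 1) :
    (pro_wl hj z u hu).1 0 = j z := by
  rw [pro_wl_apply, zero_smul, add_zero]

theorem pro_lim {b M K : ℝ} (D : ℝ → ℝ) (h1 : ∀ S, 0 ≤ S → b ≤ D S - S)
    (h2 : ∀ S, 0 ≤ S → D S ^ 2 ≤ S ^ 2 + 2 * S * M + K) : b ≤ M := by
  by_contra hb
  have hb : 0 < b - M := by linarith [not_le.1 hb]
  have hq : 0 ≤ (|K| + 1) / (2 * (b - M)) := by positivity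
  have hS : 0 ≤ |b| + (|K| + 1) / (2 * (b - M)) := by positivity
  have e1 := h1 _ hS
  have e2 := h2 _ hS
  set S := |b| + (|K| + 1) / (2 * (b - M)) with hSdef
  have e3 : 0 ≤ b + S := by linarith [neg_abs_le b]
  have e4 : (b + S) ^ 2 ≤ D S ^ 2 := pow_le_pow_left₀ e3 (by linarith) 2
  have e5 : (|K| + 1) / (2 * (b - M)) * (2 * (b - M)) = |K| + 1 := by field_simp
  have e6 : |K| + 1 ≤ S * (2 * (b - M)) := by
    rw [← e5]
    exact mul_le_mul_of_nonneg_right (by linarith [abs_nonneg b]) (by linarith)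
  nlinarith [le_abs_self K, sq_nonneg b]

theorem pro_near_symm {α : Type} {f g : α → X} (h : Near f g) : Near g f := by
  obtain ⟨D, h⟩ := h
  exact ⟨D, fun a => by rw [dist_comm]; exact h a⟩

theorem pro_near_trans {α : Type} {f g k : α → X} (h : Near f g) (h' : Near g k) : Near f k := by
  obtain ⟨D, h⟩ := h
  obtain ⟨D', h'⟩ := h'
  exact ⟨D + D', fun a => (dist_triangle _ (g a) _).trans (add_le_add (h a) (h' a))⟩

theorem pro_asym {c c' : Line X} (h : Near c.1 c'.1) : Asym c c' := by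
  obtain ⟨D, h⟩ := h
  exact ⟨D, fun t _ => h t⟩

theorem pro_wl_near {j : E m → X} (hj : Isometry j) (z y u : E m) (hu : ‖u‖ = 1) :
    Near (pro_wl hj z u hu).1 (pro_wl hj y u hu).1 :=
  ⟨‖z - y‖, fun t => by
    rw [pro_wl_apply, pro_wl_apply, hj.dist_eq, dist_eq_norm, add_sub_add_right_eq_sub]⟩

/-- The Busemann function of a line in a flat, on that flat. -/
theorem pro_flat {n : ℕ} {H : Hadamard n X} (B : BusF H) {j : E m → X} (hj : Isometry j)
    (z u : E m) (hu : ‖u‖ = 1) (y : E m) :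
    bus (pro_wl hj z u hu) (j y) = -inner ℝ (y - z) u := by
  have hd : ∀ S : ℝ, dist (j y) ((pro_wl hj z u hu).1 S) = ‖(y - z) - S • u‖ := fun S => by
    rw [pro_wl_apply, hj.dist_eq, dist_eq_norm, sub_sub]
  apply le_antisymm
  · refine pro_lim (K := ‖y - z‖ ^ 2) (fun S => dist (j y) ((pro_wl hj z u hu).1 S))
      (fun S _ => B.le _ _ S) fun S _ => ?_
    rw [hd, norm_sub_sq_real, inner_smul_right, norm_smul, hu, mul_one, Real.norm_eq_abs, sq_abs]
    linarith
  · refine ge_of_tendsto (B.tend _ _) (Eventually.of_forall fun S => ?_)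
    rw [hd]
    have h1 := abs_real_inner_le_norm ((y - z) - S • u) u
    rw [inner_sub_left, inner_smul_left, real_inner_self_eq_norm_sq, hu] at h1
    have h2 := (abs_le.1 h1).1
    simp only [conj_trivial] at h2
    linarith

/-- The height function on a wall. -/
theorem pro_height {n : ℕ} {H : Hadamard n X} (B : BusF H) {j : E m → X} (hj : Isometry j)
    {v : E m} (hv : ‖v‖ = 1) (L : Line X) (hL : Near (fun t : ℝ => j (t • v)) L.1) (y : E m) :
    bus L (j y) = bus L (j 0) - inner ℝ y v := by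
  have h0 : Near L.1 (pro_wl hj 0 v hv).1 := by
    obtain ⟨D, h⟩ := pro_near_symm hL
    exact ⟨D, fun t => by rw [pro_wl_apply, zero_add]; exact h t⟩
  have h1 := B.cocycle L _ (pro_asym h0) (j y)
  rw [pro_flat B, pro_wl_zero, sub_zero] at h1
  linarith

theorem pro_near_L {j : E m → X} (hj : Isometry j) {v : E m} (hv : ‖v‖ = 1) (L : Line X)
    (hL : Near (fun t : ℝ => j (t • v)) L.1) (z : E m) : Near (pro_wl hj z v hv).1 L.1 := by
  refine pro_near_trans (pro_wl_near hj z 0 v hv) ?_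
  obtain ⟨D, h⟩ := hL
  exact ⟨D, fun t => by rw [pro_wl_apply, zero_add]; exact h t⟩

theorem pro_theta (hm : 3 ≤ m) (w : E m) (hw : ‖w‖ = 1) :
    ∃ θ : E m, ‖θ‖ = 1 ∧ inner ℝ θ w = (0 : ℝ) := by
  have hw0 : w ≠ 0 := by
    rintro rfl
    simp at hw
  have h1 := Submodule.finrank_add_finrank_orthogonal (ℝ ∙ w)
  rw [finrank_span_singleton hw0, finrank_euclideanSpace, Fintype.card_fin] at h1
  have h2 : (ℝ ∙ w)ᗮ ≠ ⊥ := by
    intro h
    rw [h, finrank_bot] at h1
    omega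
  obtain ⟨y, hy, hy0⟩ := Submodule.exists_mem_ne_zero_of_ne_bot h2
  rw [Submodule.mem_orthogonal_singleton_iff_inner_left] at hy
  have hn : 0 < ‖y‖ := norm_pos_iff.2 hy0
  refine ⟨‖y‖⁻¹ • y, ?_, ?_⟩
  · rw [norm_smul, Real.norm_eq_abs, abs_of_pos (inv_pos.2 hn), inv_mul_cancel₀ hn.ne']
  · rw [inner_smul_left, hy, mul_zero]

theorem pro_cvx {n : ℕ} {H : Hadamard n X} (B : BusF H) {j : E m → X} (hj : Isometry j)
    (r : Line X) : ConvexOn ℝ Set.univ fun z => bus r (j z) := by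
  refine ⟨convex_univ, fun y _ z _ a b ha hb hab => ?_⟩
  have hb1 : b ≤ 1 := by linarith
  have ha' : a = 1 - b := by linarith
  have h1 : j (a • y + b • z) = pt H (j y) (j z) b := by
    refine pt_unique H hb hb1 ?_ ?_
    · rw [hj.dist_eq, hj.dist_eq, dist_eq_norm, dist_eq_norm,
        show y - (a • y + b • z) = b • (y - z) by rw [ha']; module, norm_smul, Real.norm_eq_abs,
        abs_of_nonneg hb]
    · rw [hj.dist_eq, hj.dist_eq, dist_eq_norm, dist_eq_norm,
        show a • y + b • z - z = a • (y - z) by rw [ha']; module, norm_smul, Real.norm_eq_abs,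
        abs_of_nonneg ha, ha']
  have h2 := B.cvx r (j y) (j z) b hb hb1
  simp only [smul_eq_mul]
  rw [h1, ha']
  exact h2

/-- The profile for two walls that see each other. -/
theorem pro_core {n : ℕ} {H : Hadamard n X} (B : BusF H) (P : ParF H) {j k : E m → X}
    (hj : Isometry j) (hk : Isometry k) {v w θ : E m} (hv : ‖v‖ = 1) (hw : ‖w‖ = 1)
    (hθ : ‖θ‖ = 1) (hθw : inner ℝ θ w = (0 : ℝ)) (L : Line X)
    (hL : Near (fun t : ℝ => j (t • v)) L.1) (hL' : Near (fun t : ℝ => k (t • w)) L.1) {C : ℝ}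
    (hC : ∀ z z', ‖perp v z‖ + ‖perp w z'‖ ≤ dist (j z) (k z') + C) {x s : ℝ} (hs : 0 ≤ s)
    (hxs : s ^ 2 = 1 - x ^ 2) :
    ∃ (r : Line X) (C' : ℝ), (∀ t, ∃ z, r.1 t = k z) ∧
      (∀ t, bus L (r.1 t) = bus L (r.1 0) - x * t) ∧
      (∀ z (h : ℝ), bus r (j (z + h • v)) = bus r (j z) - h * x) ∧
      ∀ z, |bus r (j z) + x * inner ℝ z v - s * ‖perp v z‖| ≤ C' := by
  have hww : inner ℝ w w = (1 : ℝ) := by rw [real_inner_self_eq_norm_sq, hw]; norm_num
  have hwθ : inner ℝ w θ = (0 : ℝ) := by rw [real_inner_comm, hθw]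
  obtain ⟨u, hud⟩ : ∃ u : E m, u = x • w + s • θ := ⟨_, rfl⟩
  have huw : inner ℝ u w = x := by
    rw [hud, inner_add_left, real_inner_smul_left, real_inner_smul_left, hww, hθw]; ring
  have hu : ‖u‖ = 1 := by
    have : ‖u‖ ^ 2 = 1 := by
      rw [hud, norm_add_sq_real, real_inner_smul_left, real_inner_smul_right, hwθ, norm_smul,
        norm_smul, hw, hθ, Real.norm_eq_abs, Real.norm_eq_abs, mul_one, mul_one, sq_abs, sq_abs]
      linarith
    nlinarith [norm_nonneg u]
  have hnear : ∀ z y, Near (pro_wl hj z v hv).1 (pro_wl hk y w hw).1 := fun z y =>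
    pro_near_trans (pro_near_L hj hv L hL z) (pro_near_symm (pro_near_L hk hw L hL' y))
  have hr : ∀ S : ℝ, (pro_wl hk 0 u hu).1 S = k (S • u) := fun S => by
    rw [pro_wl_apply, zero_add]
  refine ⟨pro_wl hk 0 u hu, |s * C| + |s * dist (j 0) (k 0)| +
    |x * (bus L (k 0) - bus L (j 0))|, fun t => ⟨_, hr t⟩, fun t => ?_, fun z h => ?_,
    fun z => ?_⟩
  · rw [hr, pro_wl_zero, pro_height B hk hw L hL', real_inner_smul_left, huw]; ring
  · have h1 := B.cocycle _ _ (pro_asym (pro_wl_near hk 0 (h • w) u hu)) (j (z + h • v))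
    rw [pro_wl_zero, pro_flat B, sub_zero, real_inner_smul_left, real_inner_comm, huw] at h1
    have h2 : bus (pro_wl hk (h • w) u hu) (j (z + h • v)) = bus (pro_wl hk 0 u hu) (j z) := by
      unfold bus
      congr 1
      funext S
      have h3 := P.const _ _ (hnear z (S • u)) h
      rw [pro_wl_zero, pro_wl_zero, pro_wl_apply, pro_wl_apply] at h3
      rw [hr, pro_wl_apply, add_comm (h • w), h3]
    rw [h1, h2]; ring
  · obtain ⟨β, hβ⟩ : ∃ β, β = bus L (k 0) - bus L (j 0) := ⟨_, rfl⟩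
    rw [← hβ]
    have key : ∀ S : ℝ, 0 ≤ S → ∃ d : ℝ, 0 ≤ d ∧
        dist (j z) (k (S • u)) ^ 2 = d ^ 2 + (S * x - (inner ℝ z v + β)) ^ 2 ∧
        ‖perp v z‖ + S * s ≤ d + C ∧ d ≤ ‖perp v z‖ + dist (j 0) (k 0) + S * s := by
      intro S hS
      have hst := P.strip _ _ (hnear z (S • u))
      rw [pro_wl_zero, pro_wl_zero] at hst
      have hb : bus (pro_wl hj z v hv) (k (S • u)) = -(S * x - (inner ℝ z v + β)) := by
        have h1 := B.cocycle L _ (pro_asym (pro_near_symm (pro_near_L hj hv L hL z))) (k (S • u))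
        rw [pro_wl_zero, pro_height B hk hw L hL', pro_height B hj hv L hL z,
          real_inner_smul_left, huw] at h1
        linarith
      rw [hb] at hst
      obtain ⟨T, hT⟩ : ∃ T, T = S * x - (inner ℝ z v + β) := ⟨_, rfl⟩
      rw [← hT] at hst ⊢
      have e1 := hst 0 (-T)
      have e2 := hst (-inner ℝ z v) (-(S * x))
      rw [pro_wl_zero, pro_wl_apply] at e1
      rw [pro_wl_apply, pro_wl_apply] at e2
      have p1 : z + (-inner ℝ z v : ℝ) • v = perp v z := by
        rw [perp, neg_smul, sub_eq_add_neg]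
      have p2 : S • u + (-(S * x)) • w = (S * s) • θ := by rw [hud]; module
      have p3 : perp w (S • u + (-T) • w) = (S * s) • θ := by
        rw [perp, inner_add_left, real_inner_smul_left, real_inner_smul_left, huw, hww, hud]
        module
      have p4 : ‖(S * s) • θ‖ = S * s := by
        rw [norm_smul, hθ, mul_one, Real.norm_eq_abs, abs_of_nonneg (mul_nonneg hS hs)]
      rw [p1, p2] at e2
      refine ⟨dist (j z) (k (S • u + (-T) • w)), dist_nonneg, by rw [e1]; ring, ?_, ?_⟩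
      · have := hC z (S • u + (-T) • w)
        rwa [p3, p4] at this
      · have q1 : dist (j z) (k (S • u + (-T) • w)) ≤ dist (j (perp v z)) (k ((S * s) • θ)) := by
          refine abs_le_of_sq_le_sq' ?_ dist_nonneg |>.2
          rw [e1, e2]
          nlinarith [sq_nonneg (-(S * x) - -inner ℝ z v + T)]
        have q2 := dist_triangle4 (j (perp v z)) (j 0) (k 0) (k ((S * s) • θ))
        rw [hj.dist_eq, hk.dist_eq, dist_zero_right, dist_zero_left, p4] at q2
        linarith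
    have up : bus (pro_wl hk 0 u hu) (j z) ≤
        s * (‖perp v z‖ + dist (j 0) (k 0)) - x * (inner ℝ z v + β) := by
      refine pro_lim (K := (‖perp v z‖ + dist (j 0) (k 0)) ^ 2 + (inner ℝ z v + β) ^ 2)
        (fun S => dist (j z) ((pro_wl hk 0 u hu).1 S)) (fun S _ => B.le _ _ S) fun S hS => ?_
      obtain ⟨d, d0, d1, -, d3⟩ := key S hS
      rw [hr, d1]
      have d4 := pow_le_pow_left₀ d0 d3 2
      have d5 : S ^ 2 * s ^ 2 = S ^ 2 * (1 - x ^ 2) := by rw [hxs]
      nlinarith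
    have lo : s * (‖perp v z‖ - C) - x * (inner ℝ z v + β) ≤ bus (pro_wl hk 0 u hu) (j z) := by
      refine ge_of_tendsto (B.tend _ _) ((eventually_ge_atTop 0).mono fun S hS => ?_)
      obtain ⟨d, d0, d1, d2, -⟩ := key S hS
      rw [hr]
      obtain ⟨T, hT⟩ : ∃ T, T = S * x - (inner ℝ z v + β) := ⟨_, rfl⟩
      rw [← hT] at d1
      have d4 : s * d + x * T ≤ dist (j z) (k (S • u)) := by
        refine abs_le_of_sq_le_sq' ?_ dist_nonneg |>.2
        rw [d1]
        have : (s * d + x * T) ^ 2 + (x * d - s * T) ^ 2 = (s ^ 2 + x ^ 2) * (d ^ 2 + T ^ 2) := by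
          ring
        rw [show s ^ 2 + x ^ 2 = 1 by linarith, one_mul] at this
        nlinarith [sq_nonneg (x * d - s * T)]
      have d5 := mul_le_mul_of_nonneg_left d2 hs
      have d6 : S * s ^ 2 = S * (1 - x ^ 2) := by rw [hxs]
      rw [hT] at d4
      nlinarith
    rw [abs_le]
    constructor
    · nlinarith [le_abs_self (s * C), abs_nonneg (s * dist (j 0) (k 0)), le_abs_self (x * β)]
    · nlinarith [abs_nonneg (s * C), le_abs_self (s * dist (j 0) (k 0)), neg_abs_le (x * β)]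

theorem pro_main : SpPro := by
  intro m Γ X _ _ _ _ H hm geo G a x hx
  obtain ⟨a', C, hpc, hC⟩ := G.visible a
  obtain ⟨θ, hθ, hθw⟩ := pro_theta hm (G.v a') (G.unit a')
  have hx2 : 0 ≤ 1 - x ^ 2 := by
    have := abs_lt.1 hx
    nlinarith
  have hd := G.dir a'
  rw [hpc] at hd
  obtain ⟨r, C', h1, h2, h3, h4⟩ := pro_core geo.bus geo.par (G.flat a) (G.flat a') (G.unit a)
    (G.unit a') hθ hθw (G.L (G.pc a)) (G.dir a) hd hC (Real.sqrt_nonneg _) (Real.sq_sqrt hx2)
  refine ⟨r, C', fun t => ?_, h2, pro_cvx geo.bus (G.flat a) r, h3, h4⟩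
  obtain ⟨z, hz⟩ := h1 t
  rw [hz, ← hpc]
  exact G.mem a' z

end Pool.Agent.MP_3ee8cb_gt.G76
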