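import Pool.Agent.MP_3ee8cb_gt.G76.Spec

open Filter Topology

namespace Pool.Agent.MP_3ee8cb_gt.G76

variable {m : ℕ}

theorem psi_perp_add (v a b : E m) : perp v (a + b) = perp v a + perp v b := by
  simp only [perp, inner_add_left, add_smul]
  abel

theorem psi_perp_smul (v a : E m) (c : ℝ) : perp v (c • a) = c • perp v a := by
  simp only [perp, real_inner_smul_left, smul_sub, smul_smul]

theorem psi_vv {v : E m} (hv : ‖v‖ = 1) : inner ℝ v v = (1 : ℝ) := by
  rw [real_inner_self_eq_norm_sq, hv]; norm_num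

theorem psi_perp_self {v : E m} (hv : ‖v‖ = 1) : perp v v = 0 := by
  simp only [perp, psi_vv hv, one_smul, sub_self]

theorem psi_inner {v : E m} (hv : ‖v‖ = 1) (q z : E m) :
    inner ℝ (perp v q) (perp v z) = inner ℝ q z - inner ℝ q v * inner ℝ z v := by
  simp only [perp, inner_sub_left, inner_sub_right, real_inner_smul_left, real_inner_smul_right,
    psi_vv hv, real_inner_comm z v]
  ring

theorem psi_perp_sq {v : E m} (hv : ‖v‖ = 1) (z : E m) :
    ‖perp v z‖ ^ 2 = ‖z‖ ^ 2 - inner ℝ z v ^ 2 := by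
  rw [← real_inner_self_eq_norm_sq, psi_inner hv, real_inner_self_eq_norm_sq]; ring

theorem psi_perp_le {v : E m} (hv : ‖v‖ = 1) (z : E m) : ‖perp v z‖ ≤ ‖z‖ := by
  refine le_of_sq_le_sq ?_ (norm_nonneg _)
  rw [psi_perp_sq hv]
  nlinarith [sq_nonneg (inner ℝ z v)]

theorem psi_low {v : E m} {x C : ℝ} {f : E m → ℝ} (hv : ‖v‖ = 1) (hf : Prof v x C f) {q : E m}
    {δ : ℝ} (hq : inner ℝ q v = -x) (h0 : 0 ≤ δ) (h1 : ‖q‖ + δ ≤ 1) (z : E m) :
    inner ℝ q z + δ * ‖perp v z‖ - C ≤ f z := by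
  have hb := (abs_le.1 (hf.bound z)).1
  have h2 := real_inner_le_norm (perp v q) (perp v z)
  rw [psi_inner hv, hq] at h2
  have h3 : ‖perp v q‖ + δ ≤ √(1 - x ^ 2) := by
    apply Real.le_sqrt_of_sq_le
    have a1 := psi_perp_sq hv q
    have a2 := psi_perp_le hv q
    rw [hq] at a1
    have a3 : (‖q‖ + δ) ^ 2 ≤ 1 ^ 2 := pow_le_pow_left₀ (by positivity) h1 2
    nlinarith [mul_le_mul_of_nonneg_right a2 h0]
  have h4 := mul_le_mul_of_nonneg_right h3 (norm_nonneg (perp v z))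
  nlinarith

theorem psi_up {v : E m} {x C : ℝ} {f : E m → ℝ} (hv : ‖v‖ = 1) (hf : Prof v x C f) (a : ℝ) :
    f (a • v) ≤ -x * a + C := by
  have hb := (abs_le.1 (hf.bound (a • v))).2
  rw [psi_perp_smul, psi_perp_self hv, smul_zero, norm_zero, real_inner_smul_left, psi_vv hv] at hb
  linarith

theorem psi_sqrt_ge (a w : ℝ) : a ≤ √(a ^ 2 + w ^ 2) :=
  Real.le_sqrt_of_sq_le (by nlinarith [sq_nonneg w])

theorem psi_mink (a b c d s t n : ℝ) (hs : 0 ≤ s) (ht : 0 ≤ t) (hn : 0 ≤ n)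
    (h : n ≤ s * a + t * b) :
    √(n ^ 2 + (s * c + t * d) ^ 2) ≤ s * √(a ^ 2 + c ^ 2) + t * √(b ^ 2 + d ^ 2) := by
  have h1 : a * b + c * d ≤ √(a ^ 2 + c ^ 2) * √(b ^ 2 + d ^ 2) := by
    rw [← Real.sqrt_mul (by positivity)]
    exact Real.le_sqrt_of_sq_le (by nlinarith [sq_nonneg (a * d - b * c)])
  have h2 := Real.sq_sqrt (show 0 ≤ a ^ 2 + c ^ 2 by positivity)
  have h3 := Real.sq_sqrt (show 0 ≤ b ^ 2 + d ^ 2 by positivity)
  rw [Real.sqrt_le_left (by positivity)]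
  have h4 : n ^ 2 ≤ (s * a + t * b) ^ 2 := pow_le_pow_left₀ hn h 2
  have h5 := mul_le_mul_of_nonneg_left h1 (mul_nonneg hs ht)
  have h6 : (s * √(a ^ 2 + c ^ 2) + t * √(b ^ 2 + d ^ 2)) ^ 2 =
      s ^ 2 * √(a ^ 2 + c ^ 2) ^ 2 + t ^ 2 * √(b ^ 2 + d ^ 2) ^ 2 +
        2 * (s * t * (√(a ^ 2 + c ^ 2) * √(b ^ 2 + d ^ 2))) := by ring
  rw [h6, h2, h3]
  nlinarith

/-- The standing hypotheses. -/
structure psi_H (v v' p : E m) (x x' C : ℝ) (f g : E m → ℝ) : Prop where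
  hv : ‖v‖ = 1
  hv' : ‖v'‖ = 1
  hf : Prof v x C f
  hg : Prof v' x' C g
  ps : p ∈ Submodule.span ℝ {v, v'}
  pv : inner ℝ p v = -x
  pv' : inner ℝ p v' = x'
  pl : ‖p‖ < 1

variable {v v' p : E m} {x x' C : ℝ} {f g : E m → ℝ}

theorem psi_cost_low (H : psi_H v v' p x x' C f g) {q : E m} {δ : ℝ} (hq : inner ℝ q v = -x)
    (hq' : inner ℝ q v' = x') (h0 : 0 ≤ δ) (h1 : ‖q‖ + δ ≤ 1) (y : E m) (w : ℝ) (z : E m × E m) :
    -inner ℝ q y - 2 * C + δ * (‖perp v z.1‖ + √(‖z.2 - z.1 - y‖ ^ 2 + w ^ 2) + ‖perp v' z.2‖) ≤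
      cost f g y w z := by
  have a1 := psi_low H.hv H.hf hq h0 h1 z.1
  have a2 := psi_low H.hv' H.hg (q := -q) (by rw [inner_neg_left, hq']) h0
    (by rwa [norm_neg]) z.2
  have a3 := real_inner_le_norm q (z.2 - z.1 - y)
  have a4 := psi_sqrt_ge ‖z.2 - z.1 - y‖ w
  have a5 := mul_le_mul_of_nonneg_left a4 (norm_nonneg q)
  have a6 := mul_le_mul_of_nonneg_right h1 (Real.sqrt_nonneg (‖z.2 - z.1 - y‖ ^ 2 + w ^ 2))
  rw [inner_sub_right, inner_sub_right] at a3
  rw [inner_neg_left] at a2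
  unfold cost
  nlinarith

theorem psi_bdd (H : psi_H v v' p x x' C f g) (y : E m) (w : ℝ) :
    BddBelow (Set.range (cost f g y w)) := by
  refine ⟨-inner ℝ p y - 2 * C, ?_⟩
  rintro _ ⟨z, rfl⟩
  simpa using psi_cost_low H H.pv H.pv' le_rfl (by linarith [H.pl]) y w z

theorem psi_le (H : psi_H v v' p x x' C f g) (y : E m) (w : ℝ) (z : E m × E m) :
    Psi f g y w ≤ cost f g y w z := ciInf_le (psi_bdd H y w) z

theorem psi_near (f g : E m → ℝ) (y : E m) (w : ℝ) {ε : ℝ} (h : 0 < ε) :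
    ∃ z, cost f g y w z < Psi f g y w + ε :=
  exists_lt_of_ciInf_lt (show Psi f g y w < _ by linarith)

theorem psi_sub (H : psi_H v v' p x x' C f g) (y : E m) (w B : ℝ) : ∃ T : ℝ, 0 < T ∧
    ∀ z, cost f g y w z ≤ B →
      ‖perp v z.1‖ + √(‖z.2 - z.1 - y‖ ^ 2 + w ^ 2) + ‖perp v' z.2‖ ≤ T := by
  have hd : 0 < 1 - ‖p‖ := by linarith [H.pl]
  refine ⟨max 1 ((B + inner ℝ p y + 2 * C) / (1 - ‖p‖)), lt_max_of_lt_left one_pos,
    fun z hz => le_max_of_le_right ?_⟩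
  have := psi_cost_low H H.pv H.pv' hd.le (by linarith) y w z
  rw [le_div_iff₀ hd]
  linarith

theorem psi_coer (H : psi_H v v' p x x' C f g) (n1 : v' ≠ v) (n2 : v' ≠ -v) (y : E m) (w B : ℝ) :
    ∃ r : ℝ, ∀ z, cost f g y w z ≤ B → ‖z.1‖ ≤ r := by
  obtain ⟨T, -, hT⟩ := psi_sub H y w B
  have hσ : 0 < ‖perp v' v‖ := by
    rw [norm_pos_iff]
    intro h
    have h1 := psi_perp_sq H.hv' v
    rw [h, norm_zero, H.hv] at h1
    have h2 : v = inner ℝ v v' • v' := sub_eq_zero.1 h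
    have h3 : (inner ℝ v v' - 1) * (inner ℝ v v' + 1) = (0 : ℝ) := by linarith
    rcases mul_eq_zero.1 h3 with h4 | h4
    · rw [show inner ℝ v v' = (1 : ℝ) by linarith, one_smul] at h2
      exact n1 h2.symm
    · rw [show inner ℝ v v' = (-1 : ℝ) by linarith, neg_one_smul] at h2
      exact n2 (by rw [h2, neg_neg])
  refine ⟨(T + ‖y‖) / ‖perp v' v‖ + T, fun z hz => ?_⟩
  have h1 := hT z hz
  have h2 := psi_sqrt_ge ‖z.2 - z.1 - y‖ w
  have e1 : z.1 = inner ℝ z.1 v • v + perp v z.1 := by simp [perp]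
  have e2 : z.2 = inner ℝ z.1 v • v + (perp v z.1 + (z.2 - z.1 - y) + y) := by
    simp only [perp]; abel
  have e3 : inner ℝ z.1 v • perp v' v =
      perp v' z.2 - perp v' (perp v z.1 + (z.2 - z.1 - y) + y) := by
    conv_rhs => rw [e2, psi_perp_add, psi_perp_smul]
    rw [← e2, add_sub_cancel_right]
  have h3 : |inner ℝ z.1 v| * ‖perp v' v‖ ≤ T + ‖y‖ := by
    rw [← Real.norm_eq_abs, ← norm_smul, e3]
    have b1 := norm_sub_le (perp v' z.2) (perp v' (perp v z.1 + (z.2 - z.1 - y) + y))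
    have b2 := psi_perp_le H.hv' (perp v z.1 + (z.2 - z.1 - y) + y)
    have b3 := norm_add₃_le (a := perp v z.1) (b := z.2 - z.1 - y) (c := y)
    linarith
  have h4 := norm_add_le (inner ℝ z.1 v • v) (perp v z.1)
  rw [← e1, norm_smul, H.hv, mul_one, Real.norm_eq_abs] at h4
  have h5 := (le_div_iff₀ hσ).2 h3
  linarith [norm_nonneg (z.2 - z.1 - y), norm_nonneg (perp v' z.2)]

theorem psi_cvx (H : psi_H v v' p x x' C f g) (y₁ y₂ : E m) (w₁ w₂ s t : ℝ) (hs : 0 ≤ s)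
    (ht : 0 ≤ t) (hst : s + t = 1) :
    Psi f g (s • y₁ + t • y₂) (s * w₁ + t * w₂) ≤ s * Psi f g y₁ w₁ + t * Psi f g y₂ w₂ := by
  refine le_of_forall_pos_le_add fun ε hε => ?_
  obtain ⟨a, ha⟩ := psi_near f g y₁ w₁ hε
  obtain ⟨b, hb⟩ := psi_near f g y₂ w₂ hε
  have h1 := psi_le H (s • y₁ + t • y₂) (s * w₁ + t * w₂) (s • a.1 + t • b.1, s • a.2 + t • b.2)
  have h2 := H.hf.cvx.2 (Set.mem_univ a.1) (Set.mem_univ b.1) hs ht hst
  have h3 := H.hg.cvx.2 (Set.mem_univ a.2) (Set.mem_univ b.2) hs ht hst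
  have h4 := psi_mink ‖a.2 - a.1 - y₁‖ ‖b.2 - b.1 - y₂‖ w₁ w₂ s t
    ‖s • a.2 + t • b.2 - (s • a.1 + t • b.1) - (s • y₁ + t • y₂)‖ hs ht (norm_nonneg _) (by
      have e : s • a.2 + t • b.2 - (s • a.1 + t • b.1) - (s • y₁ + t • y₂) =
          s • (a.2 - a.1 - y₁) + t • (b.2 - b.1 - y₂) := by module
      rw [e]
      refine (norm_add_le _ _).trans (le_of_eq ?_)
      rw [norm_smul, norm_smul, Real.norm_of_nonneg hs, Real.norm_of_nonneg ht])
  have h5 := mul_le_mul_of_nonneg_left ha.le hs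
  have h6 := mul_le_mul_of_nonneg_left hb.le ht
  have h7 : s * ε + t * ε = ε := by rw [← add_mul, hst, one_mul]
  unfold cost at h1 h5 h6
  simp only [smul_eq_mul] at h2 h3
  simp only [] at h1
  nlinarith

theorem psi_far (H : psi_H v v' p x x' C f g) {e : E m} (he : ‖e‖ = 1) (e1 : inner ℝ e v = 0)
    (e2 : inner ℝ e v' = 0) (M : ℝ) : ∃ z₀ : E m, ∀ (Y : E m) (W : ℝ), ‖z₀ + Y‖ ≤ M → |W| ≤ M →
      |Psi f g Y W + inner ℝ (p - √(1 - ‖p‖ ^ 2) • e) Y| ≤ 2 * C + 1 := by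
  set ρ := √(1 - ‖p‖ ^ 2) with hρ
  have hp : 0 < 1 - ‖p‖ ^ 2 := by nlinarith [H.pl, norm_nonneg p]
  have ρ2 : ρ ^ 2 = 1 - ‖p‖ ^ 2 := Real.sq_sqrt hp.le
  obtain ⟨a, a', hpa⟩ := Submodule.mem_span_pair.1 H.ps
  have pe : inner ℝ e p = 0 := by
    rw [← hpa, inner_add_right, real_inner_smul_right, real_inner_smul_right, e1, e2]; ring
  set q := p - ρ • e with hq
  have q1 : inner ℝ q v = -x := by
    rw [hq, inner_sub_left, real_inner_smul_left, e1, H.pv]; ring
  have q2 : inner ℝ q v' = x' := by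
    rw [hq, inner_sub_left, real_inner_smul_left, e2, H.pv']; ring
  have q3 : ‖q‖ = 1 := by
    have : ‖q‖ ^ 2 = 1 := by
      rw [hq, norm_sub_sq_real, real_inner_smul_right, real_inner_comm, pe, norm_smul, he,
        mul_one, Real.norm_eq_abs, sq_abs, ρ2]
      ring
    nlinarith [norm_nonneg q]
  set L := M ^ 2 + |M| with hL
  refine ⟨-((L * ρ) • e), fun Y W hY hW => ?_⟩
  have M0 : 0 ≤ M := (norm_nonneg _).trans hY
  rw [abs_of_nonneg M0] at hL
  set u := -((L * ρ) • e) + Y with hu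
  rw [abs_le]
  constructor
  · have : -inner ℝ q Y - 2 * C ≤ Psi f g Y W := le_ciInf fun z => by
      simpa using psi_cost_low H q1 q2 le_rfl (by linarith) Y W z
    linarith
  · have h1 := psi_le H Y W ((-(L * a)) • v, (L * a') • v')
    have h2 := psi_up H.hv H.hf (-(L * a))
    have h3 := psi_up H.hv' H.hg (L * a')
    have d : (L * a') • v' - (-(L * a)) • v - Y = L • q - u := by
      rw [hu, hq, ← hpa]; module
    have h4 : inner ℝ q ((L * a') • v' - (-(L * a)) • v - Y) = inner ℝ q (L • q - u) := by rw [d]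
    rw [inner_sub_right, inner_sub_right, inner_sub_right, real_inner_smul_right,
      real_inner_smul_right, real_inner_smul_right, q1, q2, psi_vv q3] at h4
    have h5 : |inner ℝ q u| ≤ M := by
      have := abs_real_inner_le_norm q u
      rw [q3, one_mul] at this
      exact this.trans hY
    obtain ⟨h6, h7⟩ := abs_le.1 h5
    have L0 : 0 ≤ L := by rw [hL]; positivity
    have h8 : √(‖L • q - u‖ ^ 2 + W ^ 2) ≤ L - inner ℝ q u + 1 := by
      rw [Real.sqrt_le_left (by nlinarith), norm_sub_sq_real, real_inner_smul_left, norm_smul, q3,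
        mul_one, Real.norm_eq_abs, sq_abs]
      have b1 : ‖u‖ ^ 2 ≤ M ^ 2 := pow_le_pow_left₀ (norm_nonneg _) hY 2
      have b2 : W ^ 2 ≤ M ^ 2 := by
        rw [← sq_abs W]; exact pow_le_pow_left₀ (abs_nonneg _) hW 2
      nlinarith [sq_nonneg (inner ℝ q u)]
    unfold cost at h1
    simp only [] at h1
    rw [d] at h1
    linarith

theorem psi_kappa (H : psi_H v v' p x x' C f g) {e : E m} (he : ‖e‖ = 1) (e1 : inner ℝ e v = 0)
    (e2 : inner ℝ e v' = 0) {R κ w w' : ℝ} {b : E m} (h : ∀ z : E m, ∃ y : E m, ‖z + y‖ ≤ R ∧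
      Psi f g (y - b) w' - Psi f g y w = κ) : κ = inner ℝ (p - √(1 - ‖p‖ ^ 2) • e) b := by
  set q := p - √(1 - ‖p‖ ^ 2) • e with hq
  have key : ∀ N : ℝ, 1 ≤ N → |N * (κ - inner ℝ q b)| ≤ 2 * (2 * C + 1) := by
    intro N hN
    have N0 : 0 < N := by linarith
    obtain ⟨z₀, hz⟩ := psi_far H he e1 e2 (|R| + N * ‖b‖ + |w| + N * |w' - w|)
    obtain ⟨y, hy, hk⟩ := h z₀
    have hR := le_abs_self R
    have est : ∀ t : ℝ, |t| ≤ N →
        |Psi f g (y - t • b) (w + t * (w' - w)) + (inner ℝ q y - t * inner ℝ q b)| ≤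
          2 * C + 1 := by
      intro t ht
      have p1 : 0 ≤ N * ‖b‖ := by positivity
      have p2 : 0 ≤ N * |w' - w| := by positivity
      have := hz (y - t • b) (w + t * (w' - w)) (by
        have c1 := norm_sub_le (z₀ + y) (t • b)
        rw [norm_smul, Real.norm_eq_abs, add_sub_assoc] at c1
        have c2 := mul_le_mul_of_nonneg_right ht (norm_nonneg b)
        linarith [abs_nonneg w]) (by
        have c1 := abs_add_le w (t * (w' - w))
        rw [abs_mul] at c1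
        have c2 := mul_le_mul_of_nonneg_right ht (abs_nonneg (w' - w))
        linarith [abs_nonneg R])
      rwa [inner_sub_right, real_inner_smul_right] at this
    have s0 := abs_le.1 (est 0 (by simpa using N0.le))
    have s1 := abs_le.1 (est N (by rw [abs_of_pos N0]))
    have s2 := abs_le.1 (est (-N) (by rw [abs_neg, abs_of_pos N0]))
    rw [zero_smul, sub_zero, zero_mul, add_zero, zero_mul, sub_zero] at s0
    have c1 := psi_cvx H y (y - N • b) w (w + N * (w' - w)) (1 - 1 / N) (1 / N)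
      (by rw [sub_nonneg, div_le_one N0]; exact hN) (by positivity) (by ring)
    have c2 := psi_cvx H (y - b) (y - (-N) • b) w' (w + -N * (w' - w)) (N / (N + 1)) (1 / (N + 1))
      (by positivity) (by positivity) (by field_simp)
    have y1 : (1 - 1 / N) • y + (1 / N) • (y - N • b) = y - b := by
      rw [smul_sub (1 / N), smul_smul, one_div_mul_cancel N0.ne']; module
    have w1 : (1 - 1 / N) * w + 1 / N * (w + N * (w' - w)) = w' := by field_simp; ring
    have y2 : (N / (N + 1)) • (y - b) + (1 / (N + 1)) • (y - (-N) • b) = y := by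
      have : (N / (N + 1)) • (y - b) + (1 / (N + 1)) • (y - (-N) • b) =
          (N / (N + 1) + 1 / (N + 1)) • y + (1 / (N + 1) * N - N / (N + 1)) • b := by module
      rw [this, show N / (N + 1) + 1 / (N + 1) = 1 by field_simp,
        show 1 / (N + 1) * N - N / (N + 1) = 0 by ring, one_smul, zero_smul, add_zero]
    have w2 : N / (N + 1) * w' + 1 / (N + 1) * (w + -N * (w' - w)) = w := by field_simp; ring
    rw [y1, w1] at c1
    rw [y2, w2] at c2
    have d1 := mul_le_mul_of_nonneg_left c1 N0.le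
    have d2 := mul_le_mul_of_nonneg_left c2 (show 0 ≤ N + 1 by linarith)
    rw [mul_add, ← mul_assoc, ← mul_assoc, mul_one_div_cancel N0.ne', mul_sub,
      mul_one_div_cancel N0.ne'] at d1
    rw [mul_add, ← mul_assoc, ← mul_assoc, mul_one_div_cancel (by linarith),
      mul_div_cancel₀ _ (by linarith)] at d2
    rw [abs_le, ← hk]
    constructor <;> nlinarith
  by_contra hne
  have hpos : 0 < |κ - inner ℝ q b| := abs_pos.2 (sub_ne_zero.2 hne)
  have h1 := key (max 1 ((2 * (2 * C + 1) + 1) / |κ - inner ℝ q b|)) (le_max_left _ _)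
  rw [abs_mul, abs_of_nonneg (le_max_of_le_left zero_le_one)] at h1
  have h2 := (div_le_iff₀ hpos).1 (le_max_right 1 ((2 * (2 * C + 1) + 1) / |κ - inner ℝ q b|))
  linarith

theorem psi_shift (H : psi_H v v' p x x' C f g) {b : E m} (hb : b ∈ Submodule.span ℝ {v, v'})
    (y : E m) (w : ℝ) : Psi f g (y - b) w ≤ Psi f g y w + inner ℝ p b := by
  obtain ⟨a, a', rfl⟩ := Submodule.mem_span_pair.1 hb
  rw [← sub_le_iff_le_add]
  refine le_ciInf fun z => ?_
  have h1 := psi_le H (y - (a • v + a' • v')) w (z.1 + a • v, z.2 + (-a') • v')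
  have e : z.2 + (-a') • v' - (z.1 + a • v) - (y - (a • v + a' • v')) = z.2 - z.1 - y := by module
  unfold cost at h1 ⊢
  simp only [] at h1
  rw [e, H.hf.shift, H.hg.shift] at h1
  rw [inner_add_right, real_inner_smul_right, real_inner_smul_right, H.pv, H.pv']
  linarith

theorem psi_mono (H : psi_H v v' p x x' C f g) (y : E m) {w w' : ℝ} (h : w ^ 2 < w' ^ 2) :
    Psi f g y w < Psi f g y w' := by
  obtain ⟨T, T0, hT⟩ := psi_sub H y w' (Psi f g y w' + 1)
  have η0 : 0 < (w' ^ 2 - w ^ 2) / (2 * T) := div_pos (by linarith) (by linarith)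
  obtain ⟨z, hz⟩ := psi_near f g y w' (lt_min one_pos η0)
  have h1 := hT z (by linarith [min_le_left 1 ((w' ^ 2 - w ^ 2) / (2 * T))])
  have h2 := psi_le H y w z
  have h3 := min_le_right 1 ((w' ^ 2 - w ^ 2) / (2 * T))
  have h4 : (w' ^ 2 - w ^ 2) / (2 * T) ≤
      √(‖z.2 - z.1 - y‖ ^ 2 + w' ^ 2) - √(‖z.2 - z.1 - y‖ ^ 2 + w ^ 2) := by
    rw [div_le_iff₀ (by linarith)]
    have a1 := Real.sq_sqrt (show 0 ≤ ‖z.2 - z.1 - y‖ ^ 2 + w' ^ 2 by positivity)
    have a2 := Real.sq_sqrt (show 0 ≤ ‖z.2 - z.1 - y‖ ^ 2 + w ^ 2 by positivity)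
    have a3 : √(‖z.2 - z.1 - y‖ ^ 2 + w ^ 2) ≤ √(‖z.2 - z.1 - y‖ ^ 2 + w' ^ 2) :=
      Real.sqrt_le_sqrt (by linarith)
    have a4 : √(‖z.2 - z.1 - y‖ ^ 2 + w' ^ 2) ≤ T := by
      linarith [norm_nonneg (perp v z.1), norm_nonneg (perp v' z.2)]
    nlinarith [mul_nonneg (sub_nonneg.2 a3) (sub_nonneg.2 a4),
      mul_nonneg (sub_nonneg.2 a3) (sub_nonneg.2 (a3.trans a4))]
  unfold cost at hz h2
  linarith

theorem psi_main : SpPsi := by
  intro m v v' p x x' C f g hm hv hv' n1 n2 hf hg ps pv pv' pl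
  have H : psi_H v v' p x x' C f g := ⟨hv, hv', hf, hg, ps, pv, pv', pl⟩
  refine ⟨psi_bdd H, psi_coer H n1 n2, fun R κ w w' b h => ?_⟩
  have ρ0 : 0 < √(1 - ‖p‖ ^ 2) := Real.sqrt_pos.2 (by nlinarith [norm_nonneg p])
  have unit : ∀ u ∈ (Submodule.span ℝ {v, v'} : Submodule ℝ (E m))ᗮ, u ≠ 0 →
      inner ℝ u b = 0 ∧ κ = inner ℝ p b := by
    intro u hu u0
    rw [Submodule.mem_orthogonal] at hu
    have u1 : inner ℝ u v = 0 := by
      rw [real_inner_comm]; exact hu v (Submodule.subset_span (by simp))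
    have u2 : inner ℝ u v' = 0 := by
      rw [real_inner_comm]; exact hu v' (Submodule.subset_span (by simp))
    have un : 0 < ‖u‖ := norm_pos_iff.2 u0
    have k : ∀ c : ℝ, |c| = ‖u‖⁻¹ → κ = inner ℝ p b - √(1 - ‖p‖ ^ 2) * (c * inner ℝ u b) := by
      intro c hc
      have := psi_kappa H (e := c • u)
        (by rw [norm_smul, Real.norm_eq_abs, hc, inv_mul_cancel₀ un.ne'])
        (by rw [real_inner_smul_left, u1, mul_zero])
        (by rw [real_inner_smul_left, u2, mul_zero]) h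
      rwa [inner_sub_left, real_inner_smul_left, real_inner_smul_left] at this
    have k1 := k ‖u‖⁻¹ (abs_of_pos (inv_pos.2 un))
    have k2 := k (-‖u‖⁻¹) (by rw [abs_neg, abs_of_pos (inv_pos.2 un)])
    have k3 : √(1 - ‖p‖ ^ 2) * (‖u‖⁻¹ * inner ℝ u b) = 0 := by linarith
    refine ⟨?_, by linarith⟩
    rcases mul_eq_zero.1 k3 with k4 | k4
    · exact absurd k4 ρ0.ne'
    · exact (mul_eq_zero.1 k4).resolve_left (inv_pos.2 un).ne'
  have hb : b ∈ Submodule.span ℝ {v, v'} := by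
    rw [← Submodule.orthogonal_orthogonal (Submodule.span ℝ {v, v'}), Submodule.mem_orthogonal]
    intro u hu
    by_cases u0 : u = 0
    · rw [u0, inner_zero_left]
    · exact (unit u hu u0).1
  have hne : (Submodule.span ℝ {v, v'} : Submodule ℝ (E m))ᗮ ≠ ⊥ := by
    classical
    rw [Ne, Submodule.orthogonal_eq_bot_iff]
    intro ht
    have h1 := finrank_span_le_card (R := ℝ) ({v, v'} : Set (E m))
    rw [ht, finrank_top, finrank_euclideanSpace_fin] at h1
    have h2 : ({v, v'} : Set (E m)).toFinset.card ≤ 2 := by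
      rw [Set.toFinset_insert, Set.toFinset_singleton]
      exact Finset.card_le_two
    omega
  obtain ⟨u, hu, u0⟩ := Submodule.exists_mem_ne_zero_of_ne_bot hne
  have hκ := (unit u hu u0).2
  refine ⟨hb, hκ, ?_⟩
  obtain ⟨y, -, hy⟩ := h 0
  have s1 := psi_shift H hb y w'
  have s2 := psi_shift H (Submodule.neg_mem _ hb) (y - b) w'
  rw [sub_neg_eq_add, sub_add_cancel, inner_neg_right] at s2
  rcases lt_trichotomy (w' ^ 2) (w ^ 2) with c | c | c
  · linarith [psi_mono H y c]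
  · exact c
  · linarith [psi_mono H y c]

end Pool.Agent.MP_3ee8cb_gt.G76
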