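import Pool.Agent.MP_3ee8cb_gt.G76.Spec

open Filter Topology

namespace Pool.Agent.MP_3ee8cb_gt.G76

section soft

variable {m : ℕ} {X Y : Type} [MetricSpace X] [MetricSpace Y]

theorem sep_trans {a b c : ℝ} (h1 : 0 < a * b) (h2 : 0 < b * c) : 0 < a * c := by
  by_contra h
  nlinarith [mul_pos h1 h2, mul_nonneg (sq_nonneg b) (neg_nonneg.2 (not_lt.1 h))]

theorem sep_sign {j : E m → X} {s : X → ℝ} (S : Side j s) {p q : X}
    (h : ∀ z, dist p q < dist p (j z)) : 0 < s p * s q := by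
  by_contra hn
  obtain ⟨z, hz⟩ := S.cross p q (not_lt.1 hn)
  have h1 : dist p (j z) + dist (j z) q = dist p q := hz
  linarith [h z, dist_nonneg (x := j z) (y := q)]

/-- A piece is mapped to one side of the image of its own wall. -/
theorem sep_one {Q : Set X} {φ : X → Y} (hφ : ∀ p ∈ Q, ∀ q ∈ Q, dist (φ p) (φ q) = dist p q)
    {k : E m → X} (hk : ∀ z, k z ∈ Q)
    (one : ∀ p ∈ Q, ∀ q ∈ Q, ∀ z, Btw p (k z) q → p ∈ Set.range k ∨ q ∈ Set.range k)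
    {j : E m → Y} {s : Y → ℝ} (S : Side j s) {b : E m} (hb : ∀ z, φ (k z) = j (z + b))
    {p q : X} (hp : p ∈ Q) (hq : q ∈ Q) : 0 ≤ s (φ p) * s (φ q) := by
  by_contra hn
  have hn' := not_le.1 hn
  obtain ⟨z, hz⟩ := S.cross _ _ hn'.le
  have e : j z = φ (k (z - b)) := by rw [hb, sub_add_cancel]
  have h1 : Btw p (k (z - b)) q := by
    have h2 : dist (φ p) (j z) + dist (j z) (φ q) = dist (φ p) (φ q) := hz
    rw [e, hφ p hp _ (hk _), hφ _ (hk _) q hq, hφ p hp q hq] at h2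
    exact h2
  have h0 : ∀ y, s (φ (k y)) = 0 := fun y => (S.zero _).2 ⟨y + b, (hb y).symm⟩
  rcases one p hp q hq _ h1 with ⟨y, rfl⟩ | ⟨y, rfl⟩
  · rw [h0, zero_mul] at hn'
    exact lt_irrefl _ hn'
  · rw [h0, mul_zero] at hn'
    exact lt_irrefl _ hn'

theorem sep_pt {n n' : ℕ} (H : Hadamard n X) (H' : Hadamard n' Y) {Q : Set X} (hQ : Cvx Q)
    {φ : X → Y} (hφ : ∀ p ∈ Q, ∀ q ∈ Q, dist (φ p) (φ q) = dist p q) {p q : X} (hp : p ∈ Q)
    (hq : q ∈ Q) {s : ℝ} (h0 : 0 ≤ s) (h1 : s ≤ 1) : pt H' (φ p) (φ q) s ∈ φ '' Q := by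
  have hm : pt H p q s ∈ Q := hQ p hp q hq _ (btw_pt H p q h0 h1)
  refine ⟨_, hm, pt_unique H' h0 h1 ?_ ?_⟩
  · rw [hφ p hp _ hm, hφ p hp q hq, dist_pt_left H p q h0]
  · rw [hφ _ hm q hq, hφ p hp q hq, dist_pt_right H p q h1]

theorem sep_closed [ProperSpace X] {Q : Set X} (hQ : IsClosed Q) {φ : X → Y}
    (hφ : ∀ p ∈ Q, ∀ q ∈ Q, dist (φ p) (φ q) = dist p q) : IsClosed (φ '' Q) := by
  have := hQ.completeSpace_coe
  have hi : Isometry fun x : Q => φ x := Isometry.of_dist_eq fun x y => hφ x x.2 y y.2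
  have := hi.isClosedEmbedding.isClosed_range
  rwa [← Set.image_eq_range] at this

/-- A flat near a flat of a closed convex set which meets the set lies in it. -/
theorem sep_fill {n : ℕ} (H' : Hadamard n Y) {R : Set Y} (hc : IsClosed R)
    (hR : ∀ p ∈ R, ∀ q ∈ R, ∀ s : ℝ, 0 ≤ s → s ≤ 1 → pt H' p q s ∈ R) {j k : E m → Y}
    (hj : Isometry j) (hk : ∀ z, k z ∈ R) (hn : Near j k) {z₀ : E m} (h0 : j z₀ ∈ R) (z : E m) :
    j z ∈ R := by
  obtain ⟨D, hD⟩ := hn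
  have hD0 : 0 ≤ D := dist_nonneg.trans (hD 0)
  rw [← hc.closure_eq, Metric.mem_closure_iff]
  intro ε hε
  obtain ⟨T, hT1, hT⟩ : ∃ T : ℝ, 1 ≤ T ∧ D / ε < T :=
    ⟨max 1 (D / ε + 1), le_max_left _ _, lt_of_lt_of_le (by linarith) (le_max_right _ _)⟩
  have hT0 : 0 < T := by linarith
  have a0 : 0 ≤ 1 / T := by positivity
  have a1 : 1 / T ≤ 1 := by rw [div_le_one hT0]; exact hT1
  refine ⟨_, hR _ h0 _ (hk (z₀ + T • (z - z₀))) _ a0 a1, ?_⟩
  have e : j z = pt H' (j z₀) (j (z₀ + T • (z - z₀))) (1 / T) := by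
    have d0 : dist (j z₀) (j (z₀ + T • (z - z₀))) = T * ‖z - z₀‖ := by
      rw [hj.dist_eq, dist_self_add_right, norm_smul, Real.norm_eq_abs, abs_of_pos hT0]
    refine pt_unique H' a0 a1 ?_ ?_
    · rw [d0, hj.dist_eq, dist_comm, dist_eq_norm]
      field_simp
    · rw [d0, hj.dist_eq, dist_comm, dist_eq_norm,
        show z₀ + T • (z - z₀) - z = (T - 1) • (z - z₀) by module, norm_smul, Real.norm_eq_abs,
        abs_of_nonneg (by linarith)]
      field_simp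
  rw [e]
  refine (pt_conv_same H' _ _ _ a0 a1).trans_lt ?_
  refine (mul_le_mul_of_nonneg_left (hD _) a0).trans_lt ?_
  rw [div_lt_iff₀ hε] at hT
  rw [one_div, inv_mul_lt_iff₀ hT0]
  exact hT

/-- The neighbouring piece is mapped to one side of the image of the wall. -/
theorem sep_two [ProperSpace X] {n n' : ℕ} (H : Hadamard n X) (H' : Hadamard n' Y) (P : ParF H')
    {Q : Set X} (hc : IsClosed Q) (hQ : Cvx Q) {φ : X → Y}
    (hφ : ∀ p ∈ Q, ∀ q ∈ Q, dist (φ p) (φ q) = dist p q) {k : E m → X} (hki : Isometry k)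
    (hk : ∀ z, k z ∈ Q)
    (one : ∀ p ∈ Q, ∀ q ∈ Q, ∀ z, Btw p (k z) q → p ∈ Set.range k ∨ q ∈ Set.range k)
    (thin : ∀ k' : E m → X, Isometry k' → Near k' k → (∀ z, k' z ∈ Q) → ∀ z, k' z ∈ Set.range k)
    {j : E m → Y} (hj : Isometry j) (hn : Near j fun z => φ (k z)) {s : Y → ℝ} (S : Side j s)
    {p q : X} (hp : p ∈ Q) (hq : q ∈ Q) : 0 ≤ s (φ p) * s (φ q) := by
  by_contra hneg
  obtain ⟨z₀, hz₀⟩ := S.cross _ _ (not_le.1 hneg).le
  obtain ⟨r, r0, r1, e⟩ := hz₀.exists_pt H'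
  have h0 : j z₀ ∈ φ '' Q := by rw [e]; exact sep_pt H H' hQ hφ hp hq r0 r1
  have hall := sep_fill H' (sep_closed hc hφ) (by
    rintro _ ⟨x, hx, rfl⟩ _ ⟨y, hy, rfl⟩ t t0 t1
    exact sep_pt H H' hQ hφ hx hy t0 t1) hj (fun z => ⟨k z, hk z, rfl⟩) hn h0
  choose k' hk' ek' using hall
  have i1 : Isometry k' := Isometry.of_dist_eq fun x y => by
    rw [← hφ _ (hk' x) _ (hk' y), ek', ek', hj.dist_eq]
  have n1 : Near k' k := by
    obtain ⟨D, hD⟩ := hn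
    exact ⟨D, fun z => by rw [← hφ _ (hk' z) _ (hk z), ek']; exact hD z⟩
  obtain ⟨z₁, hz₁⟩ := thin k' i1 n1 hk' z₀
  have i2 : Isometry fun z => φ (k z) := Isometry.of_dist_eq fun x y => by
    rw [hφ _ (hk x) _ (hk y), hki.dist_eq]
  obtain ⟨b, w, -, hw⟩ := P.flats m j _ hj i2 hn
  have w0 : w ^ 2 = 0 := by
    have h1 := hw z₀ z₁
    rw [hz₁, ek', dist_self] at h1
    nlinarith [sq_nonneg w, sq_nonneg ‖z₁ - z₀ + b‖]
  refine hneg (sep_one hφ hk one S (b := b) (fun z => ?_) hp hq)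
  have h1 := hw (z + b) z
  rw [w0, show z - (z + b) + b = 0 by abel, norm_zero] at h1
  exact (dist_eq_zero.1 (pow_eq_zero_iff two_ne_zero |>.1 (by simpa using h1))).symm

/-- A line from the base point of a flat that follows a diverging curve keeps its sign. -/
theorem sep_ray {n : ℕ} (H' : Hadamard n Y) {j : E m → Y} (hj : Isometry j) {s : Y → ℝ}
    (S : Side j s) (c : Line Y) (hc : c.1 0 = j 0) {C : ℝ}
    (hC : ∀ t, 0 ≤ t → ∀ z, t - C ≤ dist (c.1 t) (j z)) {t : ℝ} (ht : 1 ≤ t) :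
    0 < s (c.1 1) * s (c.1 t) := by
  by_contra hn
  obtain ⟨z, hz⟩ := S.cross _ _ (not_lt.1 hn)
  obtain ⟨u, u1, -, e⟩ := Btw.line H' c ht hz
  have u0 : 0 < u := by linarith
  have hu : ‖z‖ = u := by
    have := hj.dist_eq z 0
    rw [e, ← hc, Line.dist_eq, sub_zero, abs_of_pos u0, dist_zero_right] at this
    exact this.symm
  let l : Line Y := ⟨fun τ => j ((τ / u) • z), Isometry.of_dist_eq fun a b => by
    rw [hj.dist_eq, dist_eq_norm, ← sub_smul, norm_smul, hu, ← sub_div, Real.norm_eq_abs, abs_div,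
      abs_of_pos u0, Real.dist_eq]
    field_simp⟩
  have hl : c = l := line_ext H' u0.ne (by simp [l, hc]) (by simp [l, ← e, div_self u0.ne'])
  have h1 := hC (|C| + 1) (by positivity) (((|C| + 1) / u) • z)
  rw [hl] at h1
  have h2 : dist (l.1 (|C| + 1)) (j (((|C| + 1) / u) • z)) = 0 := dist_self _
  linarith [le_abs_self C]

/-- A deep path pulled back by a rough isometry keeps its side. -/
theorem sep_path {j : E m → X} {s : X → ℝ} (S : Side j s) {ψ : Y → X} {K : ℝ}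
    (hψ : ∀ y y', dist (ψ y) (ψ y') ≤ dist y y' + K) {g : ℝ → Y} (hg : Continuous g)
    (hd : ∀ u, 0 ≤ u → u ≤ 1 → ∀ z, K + 1 < dist (ψ (g u)) (j z)) :
    0 < s (ψ (g 0)) * s (ψ (g 1)) := by
  refine isPreconnected_Icc.induction₂' (s := Set.Icc (0 : ℝ) 1)
    (fun a b => 0 < s (ψ (g a)) * s (ψ (g b))) (fun x hx => ?_)
    (fun _ _ _ _ _ _ h1 h2 => sep_trans h1 h2) ⟨le_rfl, zero_le_one⟩ ⟨zero_le_one, le_rfl⟩
  have h1 : ∀ᶠ y in 𝓝 x, dist (g y) (g x) < 1 :=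
    Metric.tendsto_nhds.1 (hg.tendsto x) 1 one_pos
  filter_upwards [mem_nhdsWithin_of_mem_nhds h1] with y hy
  have h2 : 0 < s (ψ (g x)) * s (ψ (g y)) := sep_sign S fun z => by
    have h3 := hψ (g x) (g y)
    rw [dist_comm (g x)] at h3
    linarith [hd x hx.1 hx.2 z]
  exact ⟨h2, by rwa [mul_comm]⟩

theorem sep_unit (hm : 3 ≤ m) (v : E m) : ∃ θ : E m, ‖θ‖ = 1 ∧ inner ℝ θ v = 0 := by
  have h : LinearMap.ker (innerSL ℝ v).toLinearMap ≠ ⊥ :=
    LinearMap.ker_ne_bot_of_finrank_lt (by simp; omega)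
  obtain ⟨x, hx, h0⟩ := Submodule.exists_mem_ne_zero_of_ne_bot h
  have h1 : inner ℝ v x = 0 := hx
  refine ⟨‖x‖⁻¹ • x, norm_smul_inv_norm h0, ?_⟩
  rw [inner_smul_left, real_inner_comm, h1, mul_zero]

/-- Deep points of the two pieces are mapped to opposite sides. -/
theorem sep_deep {n : ℕ} (H' : Hadamard n Y) (B : BusF H') {j : E m → X} {s : X → ℝ}
    (S : Side j s) {j₁ : E m → Y} (hj : Isometry j₁) {s₁ : Y → ℝ} (S₁ : Side j₁ s₁) {ψ : Y → X}
    {K C : ℝ} (hψ : ∀ y y', dist (ψ y) (ψ y') ≤ dist y y' + K)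
    (hw : ∀ y z, dist y (j₁ z) ≤ dist (ψ y) (j z) + K) {p q : ℝ → X} (r r' : Line Y)
    (hp : ∀ t y, dist (p t) (ψ y) ≤ dist (r.1 t) y + K)
    (hq : ∀ t y, dist (q t) (ψ y) ≤ dist (r'.1 t) y + K)
    (dp : ∀ t z, t - C ≤ dist (p t) (j z)) (dq : ∀ t z, t - C ≤ dist (q t) (j z))
    (dr : ∀ t z, t - C ≤ dist (r.1 t) (j₁ z)) (dr' : ∀ t z, t - C ≤ dist (r'.1 t) (j₁ z))
    (sep : ∀ t, ∃ z, Btw (p t) (j z) (q t)) : ∃ t, s₁ (r.1 t) * s₁ (r'.1 t) < 0 := by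
  obtain ⟨c, c0, ⟨D, hD⟩, -⟩ := B.exi r (j₁ 0)
  obtain ⟨c', c0', ⟨D', hD'⟩, -⟩ := B.exi r' (j₁ 0)
  have a1 : ∀ t, 0 ≤ t → ∀ z, t - (C + D) ≤ dist (c.1 t) (j₁ z) := fun t ht z => by
    linarith [dr t z, hD t ht, dist_triangle (r.1 t) (c.1 t) (j₁ z)]
  have a2 : ∀ t, 0 ≤ t → ∀ z, t - (C + D') ≤ dist (c'.1 t) (j₁ z) := fun t ht z => by
    linarith [dr' t z, hD' t ht, dist_triangle (r'.1 t) (c'.1 t) (j₁ z)]
  have b1 := fun t ht => sep_ray H' hj S₁ c c0 a1 (t := t) ht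
  have b2 := fun t ht => sep_ray H' hj S₁ c' c0' a2 (t := t) ht
  have hneg : s₁ (c.1 1) * s₁ (c'.1 1) < 0 := by
    by_contra hn
    have h1 : 0 < s₁ (c.1 1) * s₁ (c'.1 1) := by
      refine lt_of_le_of_ne (not_lt.1 hn) (mul_ne_zero ?_ ?_).symm
      · exact left_ne_zero_of_mul (b1 1 le_rfl).ne'
      · exact left_ne_zero_of_mul (b2 1 le_rfl).ne'
    obtain ⟨t₀, ht₀⟩ := S₁.deep c c' c0 c0' h1 (K + K + 2)
    obtain ⟨t, t1, t2, t3, t4⟩ : ∃ t : ℝ, t₀ ≤ t ∧ 0 ≤ t ∧ C + D + K < t ∧ C + D' + K < t :=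
      ⟨|t₀| + |C + D + K| + |C + D' + K| + 1,
        by linarith [le_abs_self t₀, abs_nonneg (C + D + K), abs_nonneg (C + D' + K)],
        by positivity,
        by linarith [abs_nonneg t₀, le_abs_self (C + D + K), abs_nonneg (C + D' + K)],
        by linarith [abs_nonneg t₀, abs_nonneg (C + D + K), le_abs_self (C + D' + K)]⟩
    obtain ⟨g, hg, g0, g1, hd⟩ := ht₀ t t1
    have e1 := sep_path S hψ hg fun u u0 u1 z => by linarith [hd u u0 u1 z, hw (g u) z]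
    rw [g0, g1] at e1
    have e2 : 0 < s (p t) * s (ψ (c.1 t)) :=
      sep_sign S fun z => by linarith [hp t (c.1 t), hD t t2, dp t z]
    have e3 : 0 < s (q t) * s (ψ (c'.1 t)) :=
      sep_sign S fun z => by linarith [hq t (c'.1 t), hD' t t2, dq t z]
    obtain ⟨z, hz⟩ := sep t
    exact S.same _ _ z (sep_trans (sep_trans e2 e1) (by rwa [mul_comm])) hz
  obtain ⟨t, t1, t3, t4⟩ : ∃ t : ℝ, 1 ≤ t ∧ C + D < t ∧ C + D' < t :=
    ⟨|C + D| + |C + D'| + 1, by linarith [abs_nonneg (C + D), abs_nonneg (C + D')],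
      by linarith [le_abs_self (C + D), abs_nonneg (C + D')],
      by linarith [abs_nonneg (C + D), le_abs_self (C + D')]⟩
  have e2 : 0 < s₁ (r.1 t) * s₁ (c.1 t) :=
    sep_sign S₁ fun z => by linarith [hD t (by linarith), dr t z]
  have e3 : 0 < s₁ (r'.1 t) * s₁ (c'.1 t) :=
    sep_sign S₁ fun z => by linarith [hD' t (by linarith), dr' t z]
  have e4 := sep_trans (b1 t t1) (by rwa [mul_comm] : 0 < s₁ (c.1 t) * s₁ (r.1 t))
  have e5 := sep_trans (b2 t t1) (by rwa [mul_comm] : 0 < s₁ (c'.1 t) * s₁ (r'.1 t))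
  refine ⟨t, lt_of_not_ge fun h => ?_⟩
  have e6 : 0 < s₁ (r.1 t) * s₁ (r'.1 t) :=
    lt_of_le_of_ne h (mul_ne_zero (right_ne_zero_of_mul e4.ne') (right_ne_zero_of_mul e5.ne')).symm
  have e7 := sep_trans (sep_trans e4 e6) (by rwa [mul_comm] : 0 < s₁ (r'.1 t) * s₁ (c'.1 1))
  linarith

end soft

section graph

variable {m : ℕ} {Γ X Y : Type} [Group Γ] [MetricSpace X] [MetricSpace Y] [MulAction Γ X]

/-- A line of a visible wall which leaves the given wall at unit speed. -/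
theorem sep_vis (hm : 3 ≤ m) (G : Graph m Γ X) (a : G.A) : ∃ (p : Line X) (C : ℝ),
    (∀ t, p.1 t ∈ G.Q (G.pc a)) ∧ ∀ t z, t - C ≤ dist (p.1 t) (G.j a z) := by
  obtain ⟨a', C, e, h⟩ := G.visible a
  obtain ⟨θ, h1, h2⟩ := sep_unit hm (G.v a')
  refine ⟨⟨fun t => G.j a' (t • θ), Isometry.of_dist_eq fun s t => ?_⟩, C,
    fun t => e ▸ G.mem a' _, fun t z => ?_⟩
  · rw [(G.flat a').dist_eq, dist_eq_norm, ← sub_smul, norm_smul, h1, mul_one, Real.dist_eq,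
      Real.norm_eq_abs]
  · have h3 := h z (t • θ)
    have h4 : ‖perp (G.v a') (t • θ)‖ = |t| := by
      rw [perp, inner_smul_left, h2, mul_zero, zero_smul, sub_zero, norm_smul, h1, mul_one,
        Real.norm_eq_abs]
    rw [h4, dist_comm] at h3
    change t - C ≤ dist (G.j a' (t • θ)) (G.j a z)
    linarith [norm_nonneg (perp (G.v a) z), le_abs_self t]

theorem sep_rough (G : Graph m Γ X) {F : Line X → Line Y} {K : ℝ}
    (hK : ∀ c c' : Line X, |dist ((F c).1 0) ((F c').1 0) - dist (c.1 0) (c'.1 0)| ≤ K)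
    {i : G.I} {p : X} (hp : p ∈ G.Q i) (c : Line X) :
    dist p (c.1 0) ≤ dist (phi G F i p) ((F c).1 0) + (K + |sh G F i|) ∧
      dist (phi G F i p) ((F c).1 0) ≤ dist p (c.1 0) + (K + |sh G F i|) := by
  have h1 := abs_le.1 (hK (fib G i p) c)
  rw [(fib_spec G hp).1] at h1
  have h2 : dist (phi G F i p) ((F (fib G i p)).1 0) = |sh G F i| := by
    rw [phi, Line.dist_eq, sub_zero, abs_neg]
  constructor
  · linarith [h1.1, dist_triangle_left ((F (fib G i p)).1 0) ((F c).1 0) (phi G F i p)]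
  · linarith [h1.2, dist_triangle (phi G F i p) ((F (fib G i p)).1 0) ((F c).1 0)]

end graph

theorem sep_main : SpSep := by
  intro m Γ X Y _ _ _ _ _ _ H H' G b F M I a p hp q hq
  obtain ⟨K, hK⟩ := M.con.rough
  have hn : 0 < m + 1 := m.succ_pos
  have hψ : ∀ y : Y, ∃ c : Line X, (F c).1 0 = y := fun y => by
    obtain ⟨l, hl, -⟩ := exists_line H' hn y y
    obtain ⟨c, rfl⟩ := M.conj.surj l
    exact ⟨c, hl⟩
  choose ψ eψ using hψ
  set φ := phi G F (G.pc a) with hφ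
  set φ' := phi G F (G.pc (G.op a)) with hφ'
  set K₁ := K + |sh G F (G.pc a)| + |sh G F (G.pc (G.op a))| with hK₁
  have k1 := abs_nonneg (sh G F (G.pc a))
  have k2 := abs_nonneg (sh G F (G.pc (G.op a)))
  have r0 : ∀ y y', dist ((ψ y).1 0) ((ψ y').1 0) ≤ dist y y' + K₁ := fun y y' => by
    have := (abs_le.1 (hK (ψ y) (ψ y'))).1
    rw [eψ, eψ] at this
    linarith
  have r1 : ∀ x ∈ G.Q (G.pc a), ∀ y, dist x ((ψ y).1 0) ≤ dist (φ x) y + K₁ ∧
      dist (φ x) y ≤ dist x ((ψ y).1 0) + K₁ := fun x hx y => by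
    have := sep_rough G hK hx (ψ y)
    rw [eψ] at this
    exact ⟨by linarith [this.1], by linarith [this.2]⟩
  have r2 : ∀ x ∈ G.Q (G.pc (G.op a)), ∀ y, dist x ((ψ y).1 0) ≤ dist (φ' x) y + K₁ ∧
      dist (φ' x) y ≤ dist x ((ψ y).1 0) + K₁ := fun x hx y => by
    have := sep_rough G hK hx (ψ y)
    rw [eψ] at this
    exact ⟨by linarith [this.1], by linarith [this.2]⟩
  have i1 : Isometry fun z => φ (G.j a z) := Isometry.of_dist_eq fun x y => by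
    rw [I _ _ (G.mem a x) _ (G.mem a y), (G.flat a).dist_eq]
  obtain ⟨w, hw⟩ := G.width a
  have w1 : ∀ z, dist (G.j a z) (G.j (G.op a) z) ≤ |w| := fun z => by
    have := hw z z
    rw [sub_self, norm_zero] at this
    exact (abs_le_abs (by rw [← sq_le_sq₀ dist_nonneg (abs_nonneg w), sq_abs]; linarith)
      (by linarith [abs_nonneg w, dist_nonneg (x := G.j a z) (y := G.j (G.op a) z)])).trans'
      (le_abs_self _) |>.trans (abs_abs w).le
  have n1 : ∀ z, dist (φ (G.j a z)) (φ' (G.j (G.op a) z)) ≤ |w| + 3 * K₁ := fun z => by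
    have e1 := (r1 _ (G.mem a z) (φ' (G.j (G.op a) z))).2
    have e2 := (r2 _ (G.mem (G.op a) z) (φ' (G.j (G.op a) z))).1
    rw [dist_self] at e2
    have e3 := dist_triangle (G.j a z) (G.j (G.op a) z) ((ψ (φ' (G.j (G.op a) z))).1 0)
    have e4 := (r2 _ (G.mem (G.op a) z) (φ' (G.j (G.op a) z))).1
    linarith [w1 z, dist_nonneg (x := G.j (G.op a) z) (y := (ψ (φ' (G.j (G.op a) z))).1 0)]
  obtain ⟨s, S⟩ := M.gx.fla.side _ (G.flat a)
  obtain ⟨s₁, S₁⟩ := M.gy.fla.side _ i1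
  obtain ⟨l, C, l1, l2⟩ := sep_vis M.dim G a
  obtain ⟨l', C', l1', l2'⟩ := sep_vis M.dim G (G.op a)
  let r : Line Y := ⟨fun t => φ (l.1 t), Isometry.of_dist_eq fun x y => by
    rw [I _ _ (l1 x) _ (l1 y), l.2.dist_eq]⟩
  let r' : Line Y := ⟨fun t => φ' (l'.1 t), Isometry.of_dist_eq fun x y => by
    rw [I _ _ (l1' x) _ (l1' y), l'.2.dist_eq]⟩
  have kk : 0 ≤ K₁ := by
    have := r0 (φ p) (φ p)
    rwa [dist_self, dist_self, zero_add] at this
  have c1 := le_abs_self C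
  have c2 := le_abs_self C'
  have c3 := abs_nonneg C
  have c4 := abs_nonneg C'
  have c5 := abs_nonneg w
  obtain ⟨t, ht⟩ := sep_deep H' M.gy.bus S i1 S₁ (ψ := fun y => (ψ y).1 0) (K := K₁)
    (C := |C| + |C'| + |w| + 3 * K₁) r0
    (fun y z => by rw [dist_comm y, dist_comm ((ψ y).1 0)]; exact (r1 _ (G.mem a z) y).2)
    (p := l.1) (q := l'.1) r r' (fun t y => (r1 _ (l1 t) y).1) (fun t y => (r2 _ (l1' t) y).1)
    (fun t z => by linarith [l2 t z])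
    (fun t z => by
      linarith [l2' t z, w1 z, dist_triangle (l'.1 t) (G.j a z) (G.j (G.op a) z)])
    (fun t z => by
      change _ ≤ dist (φ (l.1 t)) (φ (G.j a z))
      rw [I _ _ (l1 t) _ (G.mem a z)]
      linarith [l2 t z])
    (fun t z => by
      change _ ≤ dist (φ' (l'.1 t)) (φ (G.j a z))
      have e1 := I _ _ (l1' t) _ (G.mem (G.op a) z)
      linarith [l2' t z, n1 z,
        dist_triangle (φ' (l'.1 t)) (φ (G.j a z)) (φ' (G.j (G.op a) z))])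
    (fun t => G.sep a _ (l1 t) _ (l1' t))
  have f1 : 0 ≤ s₁ (φ p) * s₁ (φ (l.1 t)) :=
    sep_one (I _) (G.mem a) (M.wal.one a) S₁ (b := 0) (fun z => by rw [add_zero]) hp (l1 t)
  have f2 : 0 ≤ s₁ (φ' q) * s₁ (φ' (l'.1 t)) :=
    sep_two H H' M.gy.par (G.closed _) (G.convex _) (I _) (G.flat _) (G.mem _) (M.wal.one _)
      (G.thin _) i1 ⟨_, n1⟩ S₁ hq (l1' t)
  refine S₁.cross _ _ (le_of_not_gt fun h => ?_)
  change s₁ (φ (l.1 t)) * s₁ (φ' (l'.1 t)) < 0 at ht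
  nlinarith [mul_nonneg f1 f2, mul_pos h (neg_pos.2 ht)]

end Pool.Agent.MP_3ee8cb_gt.G76
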