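import Pool.Agent.MP_3ee8cb_gt.G76.Base

open Filter Topology

namespace Pool.Agent.MP_3ee8cb_gt.G76

/-- `Q` is convex. -/
def Cvx {X : Type} [MetricSpace X] (Q : Set X) : Prop :=
  ∀ p ∈ Q, ∀ q ∈ Q, ∀ x, Btw p x q → x ∈ Q

/-- Facts on Busemann functions. -/
structure BusF {n : ℕ} {X : Type} [MetricSpace X] (H : Hadamard n X) : Prop where
  tend : ∀ (c : Line X) p, Tendsto (fun S : ℝ => dist p (c.1 S) - S) atTop (𝓝 (bus c p))
  le : ∀ (c : Line X) p S, bus c p ≤ dist p (c.1 S) - S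
  lip : ∀ (c : Line X) p q, |bus c p - bus c q| ≤ dist p q
  self : ∀ (c : Line X) t, bus c (c.1 t) = -t
  cvx : ∀ (c : Line X) p q s, 0 ≤ s → s ≤ 1 →
    bus c (pt H p q s) ≤ (1 - s) * bus c p + s * bus c q
  cont : Continuous fun x : Line X × X => bus x.1 x.2
  cocycle : ∀ c c' : Line X, Asym c c' → ∀ p, bus c p = bus c' p + bus c (c'.1 0)
  sum : ∀ (c : Line X) p, 0 ≤ bus c p + bus (rev c) p
  mono : ∀ c c' : Line X, Asym c c' → ∀ t, 0 ≤ t → dist (c.1 t) (c'.1 t) ≤ dist (c.1 0) (c'.1 0)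
  uniq : ∀ c c' : Line X, Asym c c' → c.1 0 = c'.1 0 → c = c'
  exi : ∀ (c : Line X) p, ∃ c' : Line X, c'.1 0 = p ∧ Asym c c' ∧ ∀ Q : Set X, IsClosed Q →
    Cvx Q → p ∈ Q → (∀ t, 0 ≤ t → c.1 t ∈ Q) → ∀ t, 0 ≤ t → c'.1 t ∈ Q
  var : ∀ (c : Line X) (u : E n), Tendsto (fun t : ℝ => bus c (ex H (c.1 0) (t • u)) / t)
    (𝓝[>] 0) (𝓝 (-inner ℝ u (lg H (c.1 0) (c.1 1))))

def SpBus : Prop := ∀ (n : ℕ) (X : Type) [MetricSpace X] [ProperSpace X] (H : Hadamard n X),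
  0 < n → BusF H

/-- Facts on parallel lines and parallel flats. -/
structure ParF {n : ℕ} {X : Type} [MetricSpace X] (H : Hadamard n X) : Prop where
  const : ∀ c c' : Line X, Near c.1 c'.1 → ∀ t, dist (c.1 t) (c'.1 t) = dist (c.1 0) (c'.1 0)
  sum : ∀ c c' : Line X, Near c.1 c'.1 → bus c (c'.1 0) + bus (rev c) (c'.1 0) = 0
  strip : ∀ c c' : Line X, Near c.1 c'.1 → ∀ a b, dist (c.1 a) (c'.1 b) ^ 2 =
    dist (c.1 0) (c'.1 0) ^ 2 - 2 * (b - a) * bus c (c'.1 0) + (b - a) ^ 2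
  mid : ∀ c c' : Line X, Near c.1 c'.1 → ∀ s, 0 ≤ s → s ≤ 1 → ∃ d : Line X, Near c.1 d.1 ∧
    bus c (d.1 0) = s * bus c (c'.1 0) ∧
    ∀ a b, pt H (c.1 a) (c'.1 b) s = d.1 ((1 - s) * a + s * b)
  glue : ∀ c d d' : Line X, Asym c d → Asym (rev c) d' → d.1 0 = d'.1 0 →
    (∃ e : Line X, Near c.1 e.1 ∧ e.1 0 = d.1 0) → d' = rev d ∧ Near c.1 d.1
  flats : ∀ (m : ℕ) (j k : E m → X), Isometry j → Isometry k → Near j k →
    ∃ (b : E m) (w : ℝ), 0 ≤ w ∧ ∀ y z, dist (j y) (k z) ^ 2 = ‖z - y + b‖ ^ 2 + w ^ 2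
  slab : ∀ (m : ℕ) (j k : E m → X) (w : ℝ), Isometry j → Isometry k →
    (∀ y z, dist (j y) (k z) ^ 2 = ‖z - y‖ ^ 2 + w ^ 2) → ∀ y z s t, 0 ≤ s → s ≤ 1 → 0 ≤ t →
    t ≤ 1 → dist (pt H (j y) (k y) s) (pt H (j z) (k z) t) ^ 2 = ‖z - y‖ ^ 2 + (s - t) ^ 2 * w ^ 2

def SpPar : Prop := ∀ (n : ℕ) (X : Type) [MetricSpace X] (H : Hadamard n X),
  0 < n → BusF H → ParF H

/-- `s` tells the two sides of the flat `j`. -/
structure Side {m : ℕ} {X : Type} [MetricSpace X] (j : E m → X) (s : X → ℝ) : Prop where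
  cont : Continuous s
  zero : ∀ x, s x = 0 ↔ x ∈ Set.range j
  same : ∀ p q z, 0 < s p * s q → ¬ Btw p (j z) q
  cross : ∀ p q, s p * s q ≤ 0 → ∃ z, Btw p (j z) q
  deep : ∀ c c' : Line X, c.1 0 = j 0 → c'.1 0 = j 0 → 0 < s (c.1 1) * s (c'.1 1) → ∀ D : ℝ,
    ∃ t₀ : ℝ, ∀ t, t₀ ≤ t → ∃ g : ℝ → X, Continuous g ∧ g 0 = c.1 t ∧ g 1 = c'.1 t ∧
      ∀ u, 0 ≤ u → u ≤ 1 → ∀ z, D ≤ dist (g u) (j z)

/-- Facts on flats of codimension one. -/
structure FlaF {m : ℕ} {X : Type} [MetricSpace X] (H : Hadamard (m + 1) X) : Prop where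
  lin : ∀ j : E m → X, Isometry j → ∀ z, ∃ L : E m →ₗᵢ[ℝ] E (m + 1),
    ∀ u, ex H (j z) (L u) = j (z + u)
  cvx : ∀ j : E m → X, Isometry j → Cvx (Set.range j)
  side : ∀ j : E m → X, Isometry j → ∃ s, Side j s

def SpFla : Prop := ∀ (m : ℕ) (X : Type) [MetricSpace X] [ProperSpace X]
  (H : Hadamard (m + 1) X), FlaF H

/-- An equivariant semiconjugacy of geodesic flows. -/
structure Conj (Γ : Type) {X Y : Type} [Group Γ] [MetricSpace X] [MetricSpace Y] [MulAction Γ X]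
    (b : Γ → Y → Y) (F : Line X → Line Y) : Prop where
  isoX : ∀ γ : Γ, Isometry fun x : X => γ • x
  cpt : ∃ K : Set X, IsCompact K ∧ ∀ x : X, ∃ γ : Γ, γ • x ∈ K
  isoY : ∀ γ, Isometry (b γ)
  cont : Continuous F
  surj : Function.Surjective F
  flo : ∀ t c, F (flow t c) = flow t (F c)
  equi : ∀ γ c, F (mapL (isoX γ) c) = mapL (isoY γ) (F c)

def SpLift : Prop := ∀ (n : ℕ) (X Y Γ Λ : Type) [MetricSpace X] [ProperSpace X] [MetricSpace Y]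
  [ProperSpace Y] [Group Γ] [Group Λ] [MulAction Γ X] [MulAction Λ Y], 3 ≤ n → Hadamard n X →
  Hadamard n Y → Deck Γ X → Deck Λ Y → ∀ h : UT Γ X ≃ₜ UT Λ Y,
  (∀ (t : ℝ) (c : Line X) (c' : Line Y), h (Quotient.mk _ c) = Quotient.mk _ c' →
    h (Quotient.mk _ (flow t c)) = Quotient.mk _ (flow t c')) →
  ∃ (ρ : Γ ≃* Λ) (F : Line X → Line Y), Conj Γ (fun γ (y : Y) => ρ γ • y) F

/-- Soft properties of a semiconjugacy. -/
structure ConF {n : ℕ} {X Y : Type} [MetricSpace X] [MetricSpace Y] (H : Hadamard n X)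
    (H' : Hadamard n Y) (F : Line X → Line Y) : Prop where
  rough : ∃ K : ℝ, ∀ c c' : Line X,
    |dist ((F c).1 0) ((F c').1 0) - dist (c.1 0) (c'.1 0)| ≤ K
  uc : ∀ ε : ℝ, 0 < ε → ∃ δ : ℝ, 0 < δ ∧ ∀ (c c' : Line X) (τ : ℝ), τ = 1 ∨ τ = -1 →
    dist (c.1 0) (c'.1 0) ≤ δ → dist (c.1 τ) (c'.1 τ) ≤ δ → dist ((F c).1 0) ((F c').1 0) ≤ ε
  near : ∀ c c' : Line X, Near c.1 c'.1 → Near (F c).1 (F c').1
  aff : ∀ c c' d : Line X, Near c.1 c'.1 → Near c.1 d.1 → ∀ s, 0 ≤ s → s ≤ 1 →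
    d.1 0 = pt H (c.1 0) (c'.1 0) s → (F d).1 0 = pt H' ((F c).1 0) ((F c').1 0) s
  sync : ∀ c c' : Line X, Asym c c' →
    Asym (F c) (F c') ∧ bus (F c) ((F c').1 0) = bus c (c'.1 0)
  back : ∀ c c' : Line X, Asym (rev c) (rev c') → Asym (rev (F c)) (rev (F c')) ∧
    bus (rev (F c)) ((F c').1 0) = bus (rev c) (c'.1 0)

def SpCon : Prop := ∀ (n : ℕ) (X Y Γ : Type) [MetricSpace X] [ProperSpace X] [MetricSpace Y]
  [Group Γ] [MulAction Γ X] (H : Hadamard n X) (H' : Hadamard n Y), 0 < n → BusF H → ParF H →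
  BusF H' → ParF H' → ∀ (b : Γ → Y → Y) (F : Line X → Line Y), Conj Γ b F → ConF H H' F

/-- All geometric facts on one space. -/
structure Geo {m : ℕ} {X : Type} [MetricSpace X] (H : Hadamard (m + 1) X) : Prop where
  bus : BusF H
  par : ParF H
  fla : FlaF H

section graph

variable {m : ℕ} {Γ X Y : Type} [Group Γ] [MetricSpace X] [MetricSpace Y] [MulAction Γ X]

/-- A good direction of a wall. -/
def Good (G : Graph m Γ X) (a : G.A) (θ : E m) : Prop :=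
  ‖θ‖ = 1 ∧ ∀ c : Line X, (∀ t, c.1 t ∈ G.Q (G.pc a)) →
    Near c.1 (fun t : ℝ => G.j a (t • θ)) → c.1 0 ∈ Set.range (G.j a)

open Classical in
/-- The fibre through a point of a piece. -/
noncomputable def fib (G : Graph m Γ X) (i : G.I) (p : X) : Line X :=
  if h : p ∈ G.Q i then (G.fibre i p h).choose else G.L i

/-- The time shift of a piece. -/
noncomputable def sh (G : Graph m Γ X) (F : Line X → Line Y) (i : G.I) : ℝ :=
  bus (F (G.L i)) ((F (rev (G.L i))).1 0) / 2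

/-- The map on a piece. -/
noncomputable def phi (G : Graph m Γ X) (F : Line X → Line Y) (i : G.I) (p : X) : Y :=
  (F (fib G i p)).1 (-sh G F i)

theorem fib_spec (G : Graph m Γ X) {i : G.I} {p : X} (h : p ∈ G.Q i) :
    (fib G i p).1 0 = p ∧ Near (fib G i p).1 (G.L i).1 ∧ ∀ t, (fib G i p).1 t ∈ G.Q i := by
  rw [fib, dif_pos h]
  exact (G.fibre i p h).choose_spec

/-- Facts on the walls of the graph structure. -/
structure WalF (G : Graph m Γ X) : Prop where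
  one : ∀ a, ∀ p ∈ G.Q (G.pc a), ∀ q ∈ G.Q (G.pc a), ∀ z, Btw p (G.j a z) q →
    p ∈ Set.range (G.j a) ∨ q ∈ Set.range (G.j a)
  span : ∀ a, Submodule.span ℝ {θ | Good G a θ} = ⊤
  off : ∀ a, ∃ p ∈ G.Q (G.pc a), p ∉ Set.range (G.j a)

/-- `phi` preserves distances on every piece. -/
def IsoP (G : Graph m Γ X) (F : Line X → Line Y) : Prop :=
  ∀ i, ∀ p ∈ G.Q i, ∀ q ∈ G.Q i, dist (phi G F i p) (phi G F i q) = dist p q

/-- The images of the walls separate the images of adjacent pieces. -/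
def SepP (G : Graph m Γ X) (F : Line X → Line Y) : Prop :=
  ∀ a, ∀ p ∈ G.Q (G.pc a), ∀ q ∈ G.Q (G.pc (G.op a)), ∃ z,
    Btw (phi G F (G.pc a) p) (phi G F (G.pc a) (G.j a z)) (phi G F (G.pc (G.op a)) q)

/-- No twist and equal widths. -/
def TwiP (G : Graph m Γ X) (F : Line X → Line Y) : Prop :=
  ∀ a y z, dist (phi G F (G.pc a) (G.j a y)) (phi G F (G.pc (G.op a)) (G.j (G.op a) z)) =
    dist (G.j a y) (G.j (G.op a) z)

end graph

def SpWal : Prop := ∀ (m : ℕ) (Γ X : Type) [Group Γ] [MetricSpace X] [ProperSpace X]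
  [MulAction Γ X] (H : Hadamard (m + 1) X), 3 ≤ m → Geo H → ∀ G : Graph m Γ X, WalF G

/-- The standing hypotheses of the main part. -/
structure Main {m : ℕ} {Γ X Y : Type} [Group Γ] [MetricSpace X] [MetricSpace Y] [MulAction Γ X]
    (H : Hadamard (m + 1) X) (H' : Hadamard (m + 1) Y) (G : Graph m Γ X) (b : Γ → Y → Y)
    (F : Line X → Line Y) : Prop where
  dim : 3 ≤ m
  gx : Geo H
  gy : Geo H'
  conj : Conj Γ b F
  con : ConF H H' F
  wal : WalF G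

def SpIso : Prop := ∀ (m : ℕ) (Γ X Y : Type) [Group Γ] [MetricSpace X] [ProperSpace X]
  [MetricSpace Y] [ProperSpace Y] [MulAction Γ X] (H : Hadamard (m + 1) X)
  (H' : Hadamard (m + 1) Y) (G : Graph m Γ X) (b : Γ → Y → Y) (F : Line X → Line Y),
  Main H H' G b F → IsoP G F

def SpSep : Prop := ∀ (m : ℕ) (Γ X Y : Type) [Group Γ] [MetricSpace X] [ProperSpace X]
  [MetricSpace Y] [ProperSpace Y] [MulAction Γ X] (H : Hadamard (m + 1) X)
  (H' : Hadamard (m + 1) Y) (G : Graph m Γ X) (b : Γ → Y → Y) (F : Line X → Line Y),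
  Main H H' G b F → IsoP G F → SepP G F

/-- A convex function on a wall with slope `-x` along `v` and conical growth across `v`. -/
structure Prof {m : ℕ} (v : E m) (x C : ℝ) (f : E m → ℝ) : Prop where
  cvx : ConvexOn ℝ Set.univ f
  shift : ∀ z (h : ℝ), f (z + h • v) = f z - h * x
  bound : ∀ z, |f z + x * inner ℝ z v - √(1 - x ^ 2) * ‖perp v z‖| ≤ C

/-- The cost of crossing. -/
noncomputable def cost {m : ℕ} (f g : E m → ℝ) (y : E m) (w : ℝ) (z : E m × E m) : ℝ :=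
  f z.1 + √(‖z.2 - z.1 - y‖ ^ 2 + w ^ 2) + g z.2

/-- The least cost of crossing. -/
noncomputable def Psi {m : ℕ} (f g : E m → ℝ) (y : E m) (w : ℝ) : ℝ := ⨅ z, cost f g y w z

def SpPsi : Prop := ∀ (m : ℕ) (v v' p : E m) (x x' C : ℝ) (f g : E m → ℝ), 3 ≤ m → ‖v‖ = 1 →
  ‖v'‖ = 1 → v' ≠ v → v' ≠ -v → Prof v x C f → Prof v' x' C g → p ∈ Submodule.span ℝ {v, v'} →
  inner ℝ p v = -x → inner ℝ p v' = x' → ‖p‖ < 1 →
  (∀ y w, BddBelow (Set.range (cost f g y w))) ∧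
  (∀ y w (B : ℝ), ∃ r : ℝ, ∀ z, cost f g y w z ≤ B → ‖z.1‖ ≤ r) ∧
  ∀ (R κ w w' : ℝ) (b : E m), (∀ z : E m, ∃ y : E m, ‖z + y‖ ≤ R ∧
      Psi f g (y - b) w' - Psi f g y w = κ) →
    b ∈ Submodule.span ℝ {v, v'} ∧ κ = inner ℝ p b ∧ w' ^ 2 = w ^ 2

/-- The value of the two Busemann functions on a crossing line, and existence of such a line. -/
def SpVal : Prop := ∀ (m : ℕ) (X : Type) [MetricSpace X] [ProperSpace X]
  (H : Hadamard (m + 1) X), BusF H → ∀ (Q Q' : Set X) (j k : E m → X) (r r' : Line X),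
  Isometry j → (∀ z, j z ∈ Q) → (∀ p ∈ Q, ∀ q ∈ Q', ∃ z, Btw p (j z) q) →
  (∀ p ∈ Q, ∀ q ∈ Q', ∃ z, Btw p (k z) q) → (∀ t, r.1 t ∈ Q) → (∀ t, r'.1 t ∈ Q') →
  BddBelow (Set.range fun z : E m × E m =>
    bus r (j z.1) + dist (j z.1) (k z.2) + bus r' (k z.2)) →
  (∀ c : Line X, Asym (rev c) r → Asym c r' → bus r (c.1 0) + bus r' (c.1 0) =
    ⨅ z : E m × E m, (bus r (j z.1) + dist (j z.1) (k z.2) + bus r' (k z.2))) ∧
  ((∀ B : ℝ, ∃ ρ : ℝ, ∀ z z', bus r (j z) + dist (j z) (k z') + bus r' (k z') ≤ B → ‖z‖ ≤ ρ) →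
    ∃ c : Line X, Asym (rev c) r ∧ Asym c r')

/-- For every wall there is a family of lines in the piece, with prescribed slope along the
fibre, whose Busemann functions on the wall are profiles. -/
def SpPro : Prop := ∀ (m : ℕ) (Γ X : Type) [Group Γ] [MetricSpace X] [ProperSpace X]
  [MulAction Γ X] (H : Hadamard (m + 1) X), 3 ≤ m → Geo H → ∀ (G : Graph m Γ X) (a : G.A)
  (x : ℝ), |x| < 1 → ∃ (r : Line X) (C : ℝ), (∀ t, r.1 t ∈ G.Q (G.pc a)) ∧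
    (∀ t, bus (G.L (G.pc a)) (r.1 t) = bus (G.L (G.pc a)) (r.1 0) - x * t) ∧
    Prof (G.v a) x C fun z => bus r (G.j a z)

def SpTwi : Prop := ∀ (m : ℕ) (Γ X Y : Type) [Group Γ] [MetricSpace X] [ProperSpace X]
  [MetricSpace Y] [ProperSpace Y] [MulAction Γ X] (H : Hadamard (m + 1) X)
  (H' : Hadamard (m + 1) Y) (G : Graph m Γ X) (b : Γ → Y → Y) (F : Line X → Line Y),
  Main H H' G b F → IsoP G F → SepP G F → TwiP G F

def SpGlu : Prop := ∀ (m : ℕ) (Γ X Y : Type) [Group Γ] [MetricSpace X] [ProperSpace X]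
  [MetricSpace Y] [ProperSpace Y] [MulAction Γ X] (H : Hadamard (m + 1) X)
  (H' : Hadamard (m + 1) Y) (G : Graph m Γ X) (b : Γ → Y → Y) (F : Line X → Line Y),
  Main H H' G b F → IsoP G F → SepP G F → TwiP G F →
  ∃ φ : X ≃ᵢ Y, Near (fun c : Line X => φ (c.1 0)) fun c => (F c).1 0

def SpUni : Prop := ∀ (m : ℕ) (Γ X : Type) [Group Γ] [MetricSpace X] [ProperSpace X]
  [MulAction Γ X] (H : Hadamard (m + 1) X), 3 ≤ m → Geo H → ∀ G : Graph m Γ X, WalF G →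
  ∀ T : X → X, Isometry T → Near T id → ∀ x, T x = x

end Pool.Agent.MP_3ee8cb_gt.G76
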