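import Pool.Agent.MP_3ee8cb_gt.G76.TwiB

open Filter Topology

namespace Pool.Agent.MP_3ee8cb_gt.G76

theorem twi_inner_lt {m : ℕ} {v v' : E m} (h : ‖v‖ = 1) (h' : ‖v'‖ = 1) (t1 : v' ≠ v)
    (t2 : v' ≠ -v) : (inner ℝ v v') ^ 2 < (1 : ℝ) := by
  have e1 : 0 < ‖v' - v‖ ^ 2 := pow_pos (norm_pos_iff.2 (sub_ne_zero.2 t1)) 2
  have e2 : 0 < ‖v' + v‖ ^ 2 :=
    pow_pos (norm_pos_iff.2 fun k => t2 (eq_neg_of_add_eq_zero_left k)) 2
  rw [norm_sub_sq_real, h, h', real_inner_comm] at e1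
  rw [norm_add_sq_real, h, h', real_inner_comm] at e2
  nlinarith

section

variable {m : ℕ} {Γ X Y : Type} [Group Γ] [MetricSpace X] [ProperSpace X] [MetricSpace Y]
  [ProperSpace Y] [MulAction Γ X]
  {H : Hadamard (m + 1) X} {H' : Hadamard (m + 1) Y} {G : Graph m Γ X} {b : Γ → Y → Y}
  {F : Line X → Line Y}

/-- The height along a ray of a piece that is asymptotic to a line of slope `x`. -/
theorem twi_height (M : Main H H' G b F) {i : G.I} {x : ℝ} {r d : Line X}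
    (hx : ∀ t, bus (G.L i) (r.1 t) = bus (G.L i) (r.1 0) - x * t) (h0 : d.1 0 = (G.L i).1 0)
    (hd : Asym r d) (hQ : ∀ t, 0 ≤ t → d.1 t ∈ G.Q i) : bus (G.L i) (d.1 1) = -x := by
  obtain ⟨D, hD⟩ := hd
  have aff : ∀ T : ℝ, 1 ≤ T → bus (G.L i) (d.1 1) = (1 / T) * bus (G.L i) (d.1 T) := by
    intro T hT
    have hT0 : 0 < T := by linarith
    have hs := fib_spec G (hQ T hT0.le)
    obtain ⟨e, -, e2, e3⟩ := M.gx.par.mid (G.L i) (fib G i (d.1 T)) (twi_near_symm hs.2.1) (1 / T)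
      (by positivity) (by rw [div_le_one hT0]; exact hT)
    have e4 := e3 0 0
    rw [hs.1, ← h0, pt_line H d 0 T (by positivity) (by rw [div_le_one hT0]; exact hT)] at e4
    simp only [mul_zero, add_zero, zero_add, one_div_mul_cancel hT0.ne'] at e4
    rw [e4, e2, hs.1]
  have bd : ∀ T : ℝ, 1 ≤ T → |bus (G.L i) (d.1 1) + x| ≤ (D + |bus (G.L i) (r.1 0)|) / T := by
    intro T hT
    have hT0 : 0 < T := by linarith
    have e1 := (M.gx.bus.lip (G.L i) (r.1 T) (d.1 T)).trans (hD T hT0.le)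
    rw [hx T] at e1
    rw [aff T hT, le_div_iff₀ hT0, ← abs_of_pos hT0, ← abs_mul, abs_of_pos hT0]
    have : (1 / T * bus (G.L i) (d.1 T) + x) * T = bus (G.L i) (d.1 T) + x * T := by field_simp
    rw [this, abs_le]
    rw [abs_le] at e1
    constructor <;> linarith [le_abs_self (bus (G.L i) (r.1 0)), neg_abs_le (bus (G.L i) (r.1 0))]
  have lim : Tendsto (fun T : ℝ => (D + |bus (G.L i) (r.1 0)|) / T) atTop (𝓝 0) :=
    tendsto_const_nhds.div_atTop tendsto_id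
  have : |bus (G.L i) (d.1 1) + x| ≤ 0 :=
    ge_of_tendsto lim ((eventually_ge_atTop 1).mono bd)
  linarith [abs_nonpos_iff.1 this]

theorem twi_dist_one (M : Main H H' G b F) {i : G.I} {x : ℝ} {d : Line X}
    (h0 : d.1 0 = (G.L i).1 0) (hQ : d.1 1 ∈ G.Q i) (hx : bus (G.L i) (d.1 1) = -x) (τ : ℝ) :
    dist (d.1 1) ((G.L i).1 τ) = √(1 - 2 * τ * x + τ ^ 2) := by
  have hs := fib_spec G hQ
  have := M.gx.par.strip (G.L i) (fib G i (d.1 1)) (twi_near_symm hs.2.1) τ 0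
  rw [hs.1, hx, ← h0, Line.dist_eq] at this
  rw [dist_comm]
  refine twi_sqrt (this.trans ?_)
  norm_num

/-- The component of the twist along the first fibre vanishes. -/
theorem twi_coef (hPsi : SpPsi) (hVal : SpVal) (hPro : SpPro) (M : Main H H' G b F)
    (iso : IsoP G F) (sep : SepP G F) {a a' : G.A} (h1 : G.op a = a') (h2 : G.op a' = a)
    {β : E m} {w w' : ℝ}
    (hw : ∀ y z, dist (G.j a y) (G.j a' z) ^ 2 = ‖z - y‖ ^ 2 + w ^ 2)
    (hw' : ∀ y z, dist (phi G F (G.pc a) (G.j a y)) (phi G F (G.pc a') (G.j a' z)) ^ 2 =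
      ‖z - y + β‖ ^ 2 + w' ^ 2) {b0 b1 : ℝ} (hβ : b0 • G.v a + b1 • G.v a' = β) : b0 = 0 := by
  have : Nonempty (Line X) := ⟨G.L (G.pc a)⟩
  have t1 : G.v a' ≠ G.v a := h1 ▸ (G.trans a).1
  have t2 : G.v a' ≠ -G.v a := h1 ▸ (G.trans a).2
  have hc := twi_inner_lt (G.unit a) (G.unit a') t1 t2
  set i := G.pc a with hi
  set κ : ℝ := inner ℝ (G.v a) (G.v a') with hκ
  have hvv : inner ℝ (G.v a) (G.v a) = (1 : ℝ) := by
    rw [real_inner_self_eq_norm_sq, G.unit a]; norm_num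
  have hvv' : inner ℝ (G.v a') (G.v a') = (1 : ℝ) := by
    rw [real_inner_self_eq_norm_sq, G.unit a']; norm_num
  have hκ' : inner ℝ (G.v a') (G.v a) = κ := real_inner_comm _ _
  choose! r C hr using hPro m Γ X H M.dim M.gx G a
  choose d hd using fun x => M.gx.bus.exi (r x) ((G.L i).1 0)
  have hdQ : ∀ x, |x| < 1 → ∀ t, 0 ≤ t → (d x).1 t ∈ G.Q i := fun x hx =>
    (hd x).2.2 _ (G.closed i) (G.convex i) (G.base i 0) fun t _ => (hr x hx).1 t
  have hd' : ∀ x, ∃ e : Line Y, |x| < 1 → ∀ t, 0 ≤ t → e.1 t = phi G F i ((d x).1 t) := by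
    intro x
    by_cases hx : |x| < 1
    · obtain ⟨e, he⟩ := ray_extend H' (r := fun t => phi G F i ((d x).1 t)) fun s t hs ht => by
        rw [iso i _ (hdQ x hx s hs) _ (hdQ x hx t ht), Line.dist_eq]
      exact ⟨e, fun _ => he⟩
    · exact ⟨F (G.L i), fun k => absurd k hx⟩
  choose d' hd' using hd'
  set g : ℝ → ℝ := fun x => bus (d' x) ((F (rev (d x))).1 0) + b0 * x with hg
  have hsig : ∀ x (hx : |x| < 1), twi_sig F (r x) (twi_im iso (r x) (hr x hx).1) (rev (d x)) =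
      bus (d' x) ((F (rev (d x))).1 0) := by
    intro x hx
    have as : Asym (twi_im iso (r x) (hr x hx).1) (d' x) := by
      obtain ⟨D, hD⟩ := (hd x).2.1
      refine ⟨D, fun t ht => ?_⟩
      rw [hd' x hx t ht]
      exact (iso i _ ((hr x hx).1 t) _ (hdQ x hx t ht)).le.trans (hD t ht)
    rw [twi_sig, M.gy.bus.cocycle _ _ as, hd' x hx 0 le_rfl,
      twi_bus_im iso (r x) (hr x hx).1 (hdQ x hx 0 le_rfl)]
    simp
  have loc : ∀ x ∈ Set.Ioo (-1 : ℝ) 1, ∀ᶠ y in 𝓝[Set.Ioo (-1 : ℝ) 1] x, g x = g y ∧ g y = g x := by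
    intro x hx
    have hx' : |x| < 1 := abs_lt.2 hx
    have hκ1 : |κ| < 1 := by rwa [← sq_lt_one_iff_abs_lt_one]
    have hx2 : |-x * κ| < 1 := by
      rw [abs_mul, abs_neg]
      exact mul_lt_one_of_nonneg_of_lt_one_left (abs_nonneg _) hx' hκ1.le
    obtain ⟨r', C', k1, -, k3⟩ := hPro m Γ X H M.dim M.gx G a' (-x * κ) hx2
    set u : E m := (1 - κ ^ 2)⁻¹ • (G.v a - κ • G.v a') with hu
    have hne : 1 - κ ^ 2 ≠ 0 := by linarith
    have u1 : inner ℝ u (G.v a) = (1 : ℝ) := by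
      rw [hu, real_inner_smul_left, inner_sub_left, real_inner_smul_left, hvv, hκ']
      field_simp
    have u2 : inner ℝ u (G.v a') = (0 : ℝ) := by
      rw [hu, real_inner_smul_left, inner_sub_left, real_inner_smul_left, hvv', ← hκ]
      simp
    have key : ∀ y, |y| < 1 → ‖(-x) • G.v a + (x - y) • u‖ < 1 →
        g y = b1 * (-x * κ) - twi_sig F r' (twi_im iso r' k1) r' := by
      intro y hy hn
      have q1 : inner ℝ ((-x) • G.v a + (x - y) • u) (G.v a) = -y := by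
        rw [inner_add_left, real_inner_smul_left, real_inner_smul_left, hvv, u1]; ring
      have q2 : inner ℝ ((-x) • G.v a + (x - y) • u) (G.v a') = -x * κ := by
        rw [inner_add_left, real_inner_smul_left, real_inner_smul_left, u2, ← hκ]; ring
      have m1 : G.v a ∈ Submodule.span ℝ {G.v a, G.v a'} := Submodule.subset_span (by simp)
      have m2 : G.v a' ∈ Submodule.span ℝ {G.v a, G.v a'} := Submodule.subset_span (by simp)
      have := (twi_step hPsi hVal M iso sep h1 h2 hw hw' (hr y hy).1 k1 (hr y hy).2.2 k3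
        (add_mem (Submodule.smul_mem _ _ m1) (Submodule.smul_mem _ _ (Submodule.smul_mem _ _
          (sub_mem m1 (Submodule.smul_mem _ _ m2))))) q1 q2 hn (c := rev (d y)) (c' := r')
        (by rw [rev_rev]; exact twi_asym_symm (hd y).2.1) ⟨0, fun t _ => by simp⟩).2.1
      rw [hsig y hy, ← hβ, inner_add_right, real_inner_smul_right, real_inner_smul_right, q1,
        q2] at this
      simp only [hg]
      linarith
    have hn0 : ‖(-x) • G.v a + (x - x) • u‖ < 1 := by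
      rw [sub_self, zero_smul, add_zero, norm_smul, G.unit a, mul_one, Real.norm_eq_abs, abs_neg]
      exact hx'
    have hev : ∀ᶠ y in 𝓝 x, ‖(-x) • G.v a + (x - y) • u‖ < 1 :=
      (Continuous.tendsto (f := fun y : ℝ => ‖(-x) • G.v a + (x - y) • u‖) (by fun_prop)
        x).eventually (gt_mem_nhds hn0)
    filter_upwards [self_mem_nhdsWithin, mem_nhdsWithin_of_mem_nhds hev] with y hy hn
    have := (key x hx' hn0).trans (key y (abs_lt.2 hy) hn).symm
    exact ⟨this, this.symm⟩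
  have cst : ∀ y ∈ Set.Ioo (-1 : ℝ) 1, g 0 = g y := fun y hy =>
    isPreconnected_Ioo.induction₂' (fun x y => g x = g y) loc (fun _ _ _ _ _ _ => Eq.trans)
      (by norm_num) hy
  have hL : ∀ t, (G.L i).1 t ∈ G.Q i := G.base i
  have lim : ∀ (τ : ℝ) (l : Filter ℝ) (c : Line X) (c' : Line Y), τ ^ 2 = 1 → l ≤ 𝓝 τ →
      (∀ᶠ x in l, |x| < 1) → c.1 0 = (G.L i).1 0 → c.1 1 = (G.L i).1 τ →
      c'.1 0 = phi G F i ((G.L i).1 0) → c'.1 1 = phi G F i ((G.L i).1 τ) →
      Tendsto g l (𝓝 (bus c' ((F (rev c)).1 0) + b0 * τ)) := by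
    intro τ l c c' hτ hl hev c0 c1 c0' c1'
    have dd : Tendsto (fun x => dist ((d x).1 1) ((G.L i).1 τ)) l (𝓝 0) := by
      have : Tendsto (fun x : ℝ => √(1 - 2 * τ * x + τ ^ 2)) l (𝓝 0) := by
        have := (Continuous.tendsto (f := fun x : ℝ => √(1 - 2 * τ * x + τ ^ 2)) (by fun_prop)
          τ).mono_left hl
        rwa [show 1 - 2 * τ * τ + τ ^ 2 = 0 by nlinarith, Real.sqrt_zero] at this
      refine this.congr' (hev.mono fun x hx => ?_)
      exact (twi_dist_one M (hd x).1 (hdQ x hx 1 zero_le_one)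
        (twi_height M (hr x hx).2.1 (hd x).1 (hd x).2.1 (hdQ x hx)) τ).symm
    have l1 : Tendsto d l (𝓝 c) := twi_tendsto_line H
      (Eventually.of_forall fun x => by rw [(hd x).1, c0])
      (by rw [c1]; exact tendsto_iff_dist_tendsto_zero.2 dd)
    have l2 : Tendsto d' l (𝓝 c') := twi_tendsto_line H'
      (hev.mono fun x hx => by rw [hd' x hx 0 le_rfl, (hd x).1, c0'])
      (by
        rw [c1', tendsto_iff_dist_tendsto_zero]
        refine dd.congr' (hev.mono fun x hx => ?_)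
        simp only
        rw [hd' x hx 1 zero_le_one, iso i _ (hdQ x hx 1 zero_le_one) _ (hL τ)])
    have l3 : Tendsto (fun x => (F (rev (d x))).1 0) l (𝓝 ((F (rev c)).1 0)) :=
      (((line_eval_cont 0).comp (M.conj.cont.comp rev_cont)).tendsto c).comp l1
    exact ((M.gy.bus.cont.tendsto (c', (F (rev c)).1 0)).comp (l2.prodMk_nhds l3)).add
      ((tendsto_id.mono_left hl).const_mul b0)
  have ev1 : ∀ᶠ x in 𝓝[<] (1 : ℝ), x ∈ Set.Ioo (-1 : ℝ) 1 := Ioo_mem_nhdsLT (by norm_num)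
  have ev2 : ∀ᶠ x in 𝓝[>] (-1 : ℝ), x ∈ Set.Ioo (-1 : ℝ) 1 := Ioo_mem_nhdsGT (by norm_num)
  have L1 := lim 1 (𝓝[<] 1) (G.L i) (twi_im iso (G.L i) hL) (by norm_num) nhdsWithin_le_nhds
    (ev1.mono fun x hx => abs_lt.2 hx) rfl rfl rfl rfl
  have L2 := lim (-1) (𝓝[>] (-1)) (rev (G.L i)) (rev (twi_im iso (G.L i) hL)) (by norm_num)
    nhdsWithin_le_nhds (ev2.mono fun x hx => abs_lt.2 hx) (by simp) rfl
    (by simp [twi_im]) rfl
  have E1 := tendsto_nhds_unique L1 (tendsto_const_nhds.congr' (ev1.mono fun x hx => cst x hx))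
  have E2 := tendsto_nhds_unique L2 (tendsto_const_nhds.congr' (ev2.mono fun x hx => cst x hx))
  have hs0 : (F (G.L i)).1 0 = (twi_im iso (G.L i) hL).1 (sh G F i) := by
    simp only [twi_im]
    rw [twi_phi_L M, sub_self]
  have as : Asym (twi_im iso (G.L i) hL) (F (G.L i)) :=
    twi_asym_symm (twi_asym_im M iso hL ⟨0, fun t _ => by simp⟩)
  have v1 := M.gy.bus.cocycle _ _ as ((F (rev (G.L i))).1 0)
  rw [hs0, M.gy.bus.self] at v1
  have v2 := M.gy.bus.self (rev (twi_im iso (G.L i) hL)) (-sh G F i)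
  rw [rev_apply, neg_neg, ← hs0] at v2
  rw [rev_rev, v2] at E2
  rw [v1] at E1
  have v3 : bus (F (G.L i)) ((F (rev (G.L i))).1 0) = 2 * sh G F i := by rw [sh]; ring
  linarith

end

theorem twi_main (hPsi : SpPsi) (hVal : SpVal) (hPro : SpPro) : SpTwi := by
  intro m Γ X Y _ _ _ _ _ _ H H' G b F M iso sep a y z
  obtain ⟨w, hw⟩ := G.width a
  have iJ : ∀ a, Isometry fun z => phi G F (G.pc a) (G.j a z) := fun a =>
    Isometry.of_dist_eq fun u u' => by rw [iso _ _ (G.mem a u) _ (G.mem a u'), (G.flat a).dist_eq]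
  obtain ⟨β, w', -, hw'⟩ := M.gy.par.flats m _ _ (iJ a) (iJ (G.op a)) (by
    obtain ⟨K, hK⟩ := twi_close M (G.pc a)
    obtain ⟨K', hK'⟩ := twi_close M (G.pc (G.op a))
    refine ⟨K + (√(w ^ 2) + K'), fun u => ?_⟩
    obtain ⟨c, hc, -⟩ := exists_line H m.succ_pos (G.j a u) (G.j a u)
    have e1 := hK _ (G.mem a u) c
    have e2 := hK' _ (G.mem (G.op a) u) c
    rw [hc, dist_self, zero_add] at e1
    rw [hc, twi_sqrt (hw u u), sub_self, norm_zero, zero_pow two_ne_zero, zero_add] at e2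
    exact (dist_triangle_left _ _ _).trans (add_le_add e1 e2))
  obtain ⟨r, C, k1, -, k3⟩ := hPro m Γ X H M.dim M.gx G a 0 (by norm_num)
  obtain ⟨r', C', k1', -, k3'⟩ := hPro m Γ X H M.dim M.gx G (G.op a) 0 (by norm_num)
  obtain ⟨s1, -, s3⟩ := twi_step hPsi hVal M iso sep rfl (G.op_op a) hw hw' k1 k1' k3 k3'
    (p := 0) (zero_mem _) (by simp) (by simp) (by simp) (c := rev r) (c' := r')
    ⟨0, fun t _ => by simp⟩ ⟨0, fun t _ => by simp⟩
  obtain ⟨b0, b1, hβ⟩ := Submodule.mem_span_pair.1 s1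
  have z0 := twi_coef hPsi hVal hPro M iso sep rfl (G.op_op a) hw hw' hβ
  have z1 := twi_coef hPsi hVal hPro M iso sep (G.op_op a) rfl (β := -β) (w := w) (w' := w')
    (fun y z => by rw [dist_comm, hw, norm_sub_rev])
    (fun y z => by rw [dist_comm, hw', ← norm_neg]; congr 3; abel) (b0 := -b1) (b1 := -b0)
    (by rw [← hβ, neg_smul, neg_smul]; abel)
  rw [z0, neg_eq_zero.1 z1, zero_smul, zero_smul, add_zero] at hβ
  rw [twi_sqrt (hw' y z), twi_sqrt (hw y z), ← hβ, add_zero, s3]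

end Pool.Agent.MP_3ee8cb_gt.G76
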