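import Pool.Agent.MP_3ee8cb_gt.G76.Spec

open Filter Topology

namespace Pool.Agent.MP_3ee8cb_gt.G76

theorem twi_near_symm {α X : Type} [MetricSpace X] {f g : α → X} (h : Near f g) : Near g f := by
  obtain ⟨D, hD⟩ := h
  exact ⟨D, fun a => by rw [dist_comm]; exact hD a⟩

theorem twi_near_trans {α X : Type} [MetricSpace X] {f g k : α → X} (h : Near f g)
    (h' : Near g k) : Near f k := by
  obtain ⟨D, hD⟩ := h
  obtain ⟨D', hD'⟩ := h'
  exact ⟨D + D', fun a => (dist_triangle _ _ _).trans (add_le_add (hD a) (hD' a))⟩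

theorem twi_asym_symm {X : Type} [MetricSpace X] {c d : Line X} (h : Asym c d) : Asym d c := by
  obtain ⟨D, hD⟩ := h
  exact ⟨D, fun a ha => by rw [dist_comm]; exact hD a ha⟩

theorem twi_asym_trans {X : Type} [MetricSpace X] {c d e : Line X} (h : Asym c d)
    (h' : Asym d e) : Asym c e := by
  obtain ⟨D, hD⟩ := h
  obtain ⟨D', hD'⟩ := h'
  exact ⟨D + D', fun a ha => (dist_triangle _ _ _).trans (add_le_add (hD a ha) (hD' a ha))⟩

theorem twi_near_asym {X : Type} [MetricSpace X] {c d : Line X} (h : Near c.1 d.1) :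
    Asym c d := by
  obtain ⟨D, hD⟩ := h
  exact ⟨D, fun a _ => hD a⟩

theorem twi_near_flow {X : Type} [MetricSpace X] (c : Line X) (s : ℝ) :
    Near (flow s c).1 c.1 :=
  ⟨|s|, fun t => by rw [flow_apply, Line.dist_eq]; simp⟩

theorem twi_bus_map {X Y : Type} [MetricSpace X] [MetricSpace Y] {f : X → Y} (hf : Isometry f)
    (c : Line X) (p : X) : bus (mapL hf c) (f p) = bus c p := by
  simp only [bus, mapL_apply, hf.dist_eq]

theorem twi_asym_map {X Y : Type} [MetricSpace X] [MetricSpace Y] {f : X → Y} (hf : Isometry f)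
    {c d : Line X} (h : Asym c d) : Asym (mapL hf c) (mapL hf d) := by
  obtain ⟨D, hD⟩ := h
  exact ⟨D, fun t ht => by simpa only [mapL_apply, hf.dist_eq] using hD t ht⟩

/-- Lines with a fixed origin converge if they converge at time one. -/
theorem twi_tendsto_line {n : ℕ} {X : Type} [MetricSpace X] [ProperSpace X] (H : Hadamard n X)
    {α : Type} {l : Filter α} {d : α → Line X} {c : Line X} (h0 : ∀ᶠ x in l, (d x).1 0 = c.1 0)
    (h1 : Tendsto (fun x => (d x).1 1) l (𝓝 (c.1 1))) : Tendsto d l (𝓝 c) := by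
  rw [tendsto_subtype_rng, tendsto_pi_nhds]
  intro t
  have hc : Continuous fun y : X => ex H (c.1 0) (t • lg H (c.1 0) y) :=
    (ex_cont H _).comp ((lg_cont H _).const_smul t)
  have := (hc.tendsto _).comp h1
  rw [← (line_radial H c).2 t] at this
  refine this.congr' (h0.mono fun x hx => ?_)
  simp only [Function.comp]
  rw [(line_radial H (d x)).2 t, hx]

section

variable {m : ℕ} {Γ X Y : Type} [Group Γ] [MetricSpace X] [MetricSpace Y] [MulAction Γ X]
  {H : Hadamard (m + 1) X} {H' : Hadamard (m + 1) Y} {G : Graph m Γ X} {b : Γ → Y → Y}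
  {F : Line X → Line Y}

theorem twi_fib_eq (B : BusF H) {i : G.I} {p : X} (hp : p ∈ G.Q i) {c : Line X}
    (h0 : c.1 0 = p) (hc : Near c.1 (G.L i).1) : fib G i p = c :=
  B.uniq _ _ (twi_near_asym (twi_near_trans (fib_spec G hp).2.1 (twi_near_symm hc)))
    (by rw [(fib_spec G hp).1, h0])

theorem twi_phi_L (M : Main H H' G b F) (i : G.I) (t : ℝ) :
    phi G F i ((G.L i).1 t) = (F (G.L i)).1 (t - sh G F i) := by
  rw [phi, twi_fib_eq M.gx.bus (G.base i t) (c := flow t (G.L i)) (by simp) (twi_near_flow _ _),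
    M.conj.flo, flow_apply, neg_add_eq_sub]

theorem twi_phi_smul (M : Main H H' G b F) (a : G.A) {γ : Γ} {y : E m}
    (h1 : ∀ u, γ • G.j a u = G.j a (u + y)) (h2 : ∀ p ∈ G.Q (G.pc a), γ • p ∈ G.Q (G.pc a))
    {p : X} (hp : p ∈ G.Q (G.pc a)) :
    phi G F (G.pc a) (γ • p) = b γ (phi G F (G.pc a) p) := by
  have hn : Near (mapL (M.conj.isoX γ) (fib G (G.pc a) p)).1 (G.L (G.pc a)).1 := by
    obtain ⟨D, hD⟩ := twi_near_trans (fib_spec G hp).2.1 (twi_near_symm (G.dir a))
    refine twi_near_trans ⟨D + ‖y‖, fun t => ?_⟩ (G.dir a)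
    have e1 := hD t
    rw [← (M.conj.isoX γ).dist_eq, h1] at e1
    have e2 : dist (G.j a (t • G.v a + y)) (G.j a (t • G.v a)) = ‖y‖ := by
      rw [(G.flat a).dist_eq, dist_eq_norm, add_sub_cancel_left]
    exact (dist_triangle _ _ _).trans (add_le_add e1 e2.le)
  rw [phi, twi_fib_eq M.gx.bus (h2 p hp) (c := mapL (M.conj.isoX γ) (fib G (G.pc a) p))
    (by rw [mapL_apply, (fib_spec G hp).1]) hn, M.conj.equi, mapL_apply, phi]

theorem twi_close (M : Main H H' G b F) (i : G.I) : ∃ K : ℝ, ∀ p ∈ G.Q i, ∀ c : Line X,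
    dist ((F c).1 0) (phi G F i p) ≤ dist (c.1 0) p + K := by
  obtain ⟨K, hK⟩ := M.con.rough
  refine ⟨K + |sh G F i|, fun p hp c => ?_⟩
  have e1 := (abs_le.1 (hK c (fib G i p))).2
  rw [(fib_spec G hp).1] at e1
  have e2 : dist ((F (fib G i p)).1 0) (phi G F i p) = |sh G F i| := by
    rw [phi, Line.dist_eq]; simp
  linarith [dist_triangle ((F c).1 0) ((F (fib G i p)).1 0) (phi G F i p)]

/-- Image of a line of a piece. -/
noncomputable def twi_im (iso : IsoP G F) {i : G.I} (r : Line X) (hr : ∀ t, r.1 t ∈ G.Q i) :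
    Line Y :=
  ⟨fun t => phi G F i (r.1 t), Isometry.of_dist_eq fun s t => by
    rw [iso i _ (hr s) _ (hr t), r.2.dist_eq]⟩

theorem twi_bus_im (iso : IsoP G F) {i : G.I} (r : Line X) (hr : ∀ t, r.1 t ∈ G.Q i) {p : X}
    (hp : p ∈ G.Q i) : bus (twi_im iso r hr) (phi G F i p) = bus r p := by
  simp only [bus, twi_im, iso i _ hp _ (hr _)]

theorem twi_asym_im (M : Main H H' G b F) (iso : IsoP G F) {i : G.I} {r c : Line X}
    (hr : ∀ t, r.1 t ∈ G.Q i) (h : Asym c r) : Asym (F c) (twi_im iso r hr) := by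
  obtain ⟨D, hD⟩ := h
  obtain ⟨K, hK⟩ := twi_close M i
  refine ⟨D + K, fun t ht => ?_⟩
  have := hK _ (hr t) (flow t c)
  rw [M.conj.flo] at this
  simp only [flow_apply, zero_add] at this
  exact this.trans (by linarith [hD t ht])

theorem twi_asym_im' (M : Main H H' G b F) (iso : IsoP G F) {i : G.I} {r c : Line X}
    (hr : ∀ t, r.1 t ∈ G.Q i) (h : Asym (rev c) r) : Asym (rev (F c)) (twi_im iso r hr) := by
  obtain ⟨D, hD⟩ := h
  obtain ⟨K, hK⟩ := twi_close M i
  refine ⟨D + K, fun t ht => ?_⟩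
  have := hK _ (hr t) (flow (-t) c)
  rw [M.conj.flo] at this
  simp only [flow_apply, zero_add] at this
  have e := hD t ht
  rw [rev_apply] at e
  exact this.trans (by linarith)

/-- The time shift of a line with respect to two Busemann functions. -/
noncomputable def twi_sig (F : Line X → Line Y) (r : Line X) (r' : Line Y) (c : Line X) : ℝ :=
  bus r' ((F c).1 0) - bus r (c.1 0)

theorem twi_sig_fwd (M : Main H H' G b F) {r : Line X} {r' : Line Y} {c d : Line X}
    (hc : Asym c r) (hd : Asym d r) (h' : Asym (F c) r') :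
    twi_sig F r r' c = twi_sig F r r' d := by
  have e1 := M.gx.bus.cocycle r c (twi_asym_symm hc) (d.1 0)
  have e2 := M.gy.bus.cocycle r' (F c) (twi_asym_symm h') ((F d).1 0)
  have e3 := (M.con.sync c d (twi_asym_trans hc (twi_asym_symm hd))).2
  simp only [twi_sig]
  linarith

theorem twi_sig_back (M : Main H H' G b F) {r : Line X} {r' : Line Y} {c d : Line X}
    (hc : Asym (rev c) r) (hd : Asym (rev d) r) (h' : Asym (rev (F c)) r') :
    twi_sig F r r' c = twi_sig F r r' d := by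
  have e1 := M.gx.bus.cocycle r (rev c) (twi_asym_symm hc) (d.1 0)
  have e2 := M.gy.bus.cocycle r' (rev (F c)) (twi_asym_symm h') ((F d).1 0)
  have e3 := (M.con.back c d (twi_asym_trans hc (twi_asym_symm hd))).2
  simp only [rev_apply, neg_zero] at e1 e2
  simp only [twi_sig]
  linarith

end

theorem twi_prof_mono {m : ℕ} {v : E m} {x C C' : ℝ} {f : E m → ℝ} (h : Prof v x C f)
    (hC : C ≤ C') : Prof v x C' f := ⟨h.cvx, h.shift, fun z => (h.bound z).trans hC⟩

theorem twi_iInf_shift {m : ℕ} (f g : E m → ℝ) (y y' : E m) (w : ℝ) (k : E m × E m → ℝ)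
    (hk : ∀ z, k z = cost f g y' w (z.1 - y, z.2)) :
    Set.range k = Set.range (cost f g y' w) := by
  ext u
  constructor
  · rintro ⟨z, rfl⟩
    exact ⟨_, (hk z).symm⟩
  · rintro ⟨z, rfl⟩
    exact ⟨(z.1 + y, z.2), by rw [hk]; simp⟩

end Pool.Agent.MP_3ee8cb_gt.G76
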