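import Pool.Agent.MP_3ee8cb_gt.G76.TwiA

open Filter Topology

namespace Pool.Agent.MP_3ee8cb_gt.G76

section

variable {m : ℕ} {Γ X Y : Type} [Group Γ] [MetricSpace X] [ProperSpace X] [MetricSpace Y]
  [ProperSpace Y] [MulAction Γ X]
  {H : Hadamard (m + 1) X} {H' : Hadamard (m + 1) Y} {G : Graph m Γ X} {b : Γ → Y → Y}
  {F : Line X → Line Y}

theorem twi_sqrt {Z : Type} [MetricSpace Z] {p q : Z} {A : ℝ} (h : dist p q ^ 2 = A) :
    dist p q = √A := by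
  rw [← h, Real.sqrt_sq dist_nonneg]

/-- The crossing identity for one admissible pair of slopes. -/
theorem twi_step (hPsi : SpPsi) (hVal : SpVal) (M : Main H H' G b F) (iso : IsoP G F)
    (sep : SepP G F) {a a' : G.A} (h1 : G.op a = a') (h2 : G.op a' = a) {β : E m} {w w' : ℝ}
    (hw : ∀ y z, dist (G.j a y) (G.j a' z) ^ 2 = ‖z - y‖ ^ 2 + w ^ 2)
    (hw' : ∀ y z, dist (phi G F (G.pc a) (G.j a y)) (phi G F (G.pc a') (G.j a' z)) ^ 2 =
      ‖z - y + β‖ ^ 2 + w' ^ 2)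
    {x x' C C' : ℝ} {r r' : Line X} (hr : ∀ t, r.1 t ∈ G.Q (G.pc a))
    (hr' : ∀ t, r'.1 t ∈ G.Q (G.pc a')) (pf : Prof (G.v a) x C fun z => bus r (G.j a z))
    (pg : Prof (G.v a') x' C' fun z => bus r' (G.j a' z)) {p : E m}
    (hp : p ∈ Submodule.span ℝ {G.v a, G.v a'}) (hp1 : inner ℝ p (G.v a) = -x)
    (hp2 : inner ℝ p (G.v a') = x') (hp3 : ‖p‖ < 1) {c c' : Line X} (hc : Asym (rev c) r)
    (hc' : Asym c' r') :
    β ∈ Submodule.span ℝ {G.v a, G.v a'} ∧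
      twi_sig F r (twi_im iso r hr) c + twi_sig F r' (twi_im iso r' hr') c' = inner ℝ p β ∧
      w' ^ 2 = w ^ 2 := by
  have t1 : G.v a' ≠ G.v a := h1 ▸ (G.trans a).1
  have t2 : G.v a' ≠ -G.v a := h1 ▸ (G.trans a).2
  obtain ⟨P1, P2, P3⟩ := hPsi m (G.v a) (G.v a') p x x' (max C C') _ _ M.dim (G.unit a)
    (G.unit a') t1 t2 (twi_prof_mono pf (le_max_left _ _)) (twi_prof_mono pg (le_max_right _ _))
    hp hp1 hp2 hp3
  obtain ⟨R, hR⟩ := G.torus a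
  refine P3 R _ w w' β fun z => ?_
  obtain ⟨γ, y, hy, g1, g2⟩ := hR z
  refine ⟨y, hy, ?_⟩
  set s : Line X := mapL (M.conj.isoX γ) r with hs
  have hsQ : ∀ t, s.1 t ∈ G.Q (G.pc a) := fun t => g2 _ (hr t)
  have hbs : ∀ u, bus s (G.j a u) = bus r (G.j a (u - y)) := by
    intro u
    rw [← twi_bus_map (M.conj.isoX γ) r (G.j a (u - y)), g1, sub_add_cancel]
  have sx1 : ∀ p ∈ G.Q (G.pc a), ∀ q ∈ G.Q (G.pc a'), ∃ z, Btw p (G.j a z) q := h1 ▸ G.sep a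
  have sx2 : ∀ p ∈ G.Q (G.pc a), ∀ q ∈ G.Q (G.pc a'), ∃ z, Btw p (G.j a' z) q := by
    intro p hp q hq
    obtain ⟨z, hz⟩ := G.sep a' q hq p (h2.symm ▸ hp)
    exact ⟨z, hz.symm⟩
  have kx : ∀ u : E m × E m, bus s (G.j a u.1) + dist (G.j a u.1) (G.j a' u.2) +
      bus r' (G.j a' u.2) = cost (fun z => bus r (G.j a z)) (fun z => bus r' (G.j a' z)) y w
        (u.1 - y, u.2) := by
    intro u
    rw [cost, hbs, twi_sqrt (hw _ _)]
    simp only [sub_sub, sub_add_cancel]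
  have rx := twi_iInf_shift _ _ y y w _ kx
  obtain ⟨V1, V2⟩ := hVal m X H M.gx.bus (G.Q (G.pc a)) (G.Q (G.pc a')) (G.j a) (G.j a') s r'
    (G.flat a) (G.mem a) sx1 sx2 hsQ hr' (rx ▸ P1 y w)
  obtain ⟨e, he1, he2⟩ := V2 fun B => by
    obtain ⟨ρ, hρ⟩ := P2 y w B
    refine ⟨ρ + ‖y‖, fun z z' hz => ?_⟩
    have := hρ (z - y, z') (by rw [← kx (z, z')]; exact hz)
    calc ‖z‖ = ‖(z - y) + y‖ := by rw [sub_add_cancel]
      _ ≤ ‖z - y‖ + ‖y‖ := norm_add_le _ _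
      _ ≤ _ := by simpa using this
  have vx := V1 e he1 he2
  have ky : ∀ u : E m × E m, bus (twi_im iso s hsQ) (phi G F (G.pc a) (G.j a u.1)) +
      dist (phi G F (G.pc a) (G.j a u.1)) (phi G F (G.pc a') (G.j a' u.2)) +
      bus (twi_im iso r' hr') (phi G F (G.pc a') (G.j a' u.2)) =
      cost (fun z => bus r (G.j a z)) (fun z => bus r' (G.j a' z)) (y - β) w' (u.1 - y, u.2) := by
    intro u
    rw [cost, twi_bus_im iso s hsQ (G.mem a _), twi_bus_im iso r' hr' (G.mem a' _), hbs,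
      twi_sqrt (hw' _ _)]
    have : u.2 - (u.1 - y) - (y - β) = u.2 - u.1 + β := by abel
    simp only [this]
  have ry := twi_iInf_shift _ _ y (y - β) w' _ ky
  have sy1 : ∀ p ∈ phi G F (G.pc a) '' G.Q (G.pc a), ∀ q ∈ phi G F (G.pc a') '' G.Q (G.pc a'),
      ∃ z, Btw p (phi G F (G.pc a) (G.j a z)) q := by
    rintro _ ⟨p, hp0, rfl⟩ _ ⟨q, hq, rfl⟩
    obtain ⟨z, hz⟩ := sep a p hp0 q (h1.symm ▸ hq)
    rw [h1] at hz
    exact ⟨z, hz⟩
  have sy2 : ∀ p ∈ phi G F (G.pc a) '' G.Q (G.pc a), ∀ q ∈ phi G F (G.pc a') '' G.Q (G.pc a'),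
      ∃ z, Btw p (phi G F (G.pc a') (G.j a' z)) q := by
    rintro _ ⟨p, hp, rfl⟩ _ ⟨q, hq, rfl⟩
    obtain ⟨z, hz⟩ := sep a' q hq p (h2.symm ▸ hp)
    rw [h2] at hz
    exact ⟨z, hz.symm⟩
  obtain ⟨W1, -⟩ := hVal m Y H' M.gy.bus (phi G F (G.pc a) '' G.Q (G.pc a))
    (phi G F (G.pc a') '' G.Q (G.pc a')) (fun z => phi G F (G.pc a) (G.j a z))
    (fun z => phi G F (G.pc a') (G.j a' z)) (twi_im iso s hsQ) (twi_im iso r' hr')
    (Isometry.of_dist_eq fun u u' => by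
      rw [iso _ _ (G.mem a u) _ (G.mem a u'), (G.flat a).dist_eq])
    (fun z => ⟨_, G.mem a z, rfl⟩) sy1 sy2 (fun t => ⟨_, hsQ t, rfl⟩) (fun t => ⟨_, hr' t, rfl⟩)
    (ry ▸ P1 (y - β) w')
  have ae1 := twi_asym_im' M iso hsQ he1
  have ae2 := twi_asym_im M iso hr' he2
  have vy := W1 (F e) ae1 ae2
  rw [iInf, rx] at vx
  rw [iInf, ry] at vy
  have s1 := twi_sig_fwd M he2 hc' ae2
  have hγc : Asym (rev (mapL (M.conj.isoX γ) c)) s := twi_asym_map (M.conj.isoX γ) hc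
  have s2 := twi_sig_back M he1 hγc ae1
  have him : twi_im iso s hsQ = mapL (M.conj.isoY γ) (twi_im iso r hr) := by
    apply Subtype.ext
    funext t
    exact twi_phi_smul M a g1 g2 (hr t)
  have s3 : twi_sig F s (twi_im iso s hsQ) (mapL (M.conj.isoX γ) c) =
      twi_sig F r (twi_im iso r hr) c := by
    rw [twi_sig, twi_sig, him, M.conj.equi, mapL_apply, twi_bus_map, hs, mapL_apply, twi_bus_map]
  rw [← s3, ← s2, ← s1, Psi, Psi, iInf, iInf, ← vx, ← vy, twi_sig, twi_sig]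
  ring

end

end Pool.Agent.MP_3ee8cb_gt.G76
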