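import Pool.Agent.MP_3ee8cb_gt.G76.Spec

/-! An isometry at bounded distance from the identity is the identity. -/

open Filter Topology

namespace Pool.Agent.MP_3ee8cb_gt.G76

variable {n m : ℕ} {X : Type} [MetricSpace X]

/-- a line in a flat -/
def uni_fl {j : E m → X} (hj : Isometry j) (z e : E m) (he : ‖e‖ = 1) : Line X :=
  ⟨fun t => j (z + t • e), Isometry.of_dist_eq fun s t => by
    rw [hj.dist_eq, dist_add_left, dist_eq_norm, ← sub_smul, norm_smul, he, mul_one,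
      Real.norm_eq_abs, Real.dist_eq]⟩

theorem uni_asym {c c' : Line X} (h : Near c.1 c'.1) : Asym c c' :=
  let ⟨D, hD⟩ := h; ⟨D, fun t _ => hD t⟩

theorem uni_zero {x C : ℝ} (hx : 0 ≤ x) (h : ∀ t : ℝ, 0 ≤ t → t * x ≤ C) : x = 0 := by
  by_contra h0
  have hp : 0 < x := lt_of_le_of_ne hx (Ne.symm h0)
  have h1 := h ((|C| + 1) / x) (by positivity)
  rw [div_mul_cancel₀ _ h0] at h1
  linarith [le_abs_self C]

/-- a parallel class that fills the space -/
theorem uni_class (H : Hadamard n X) (hn : 0 < n) (hP : ParF H) {T : X → X} (hT : Isometry T)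
    (hN : Near T id) {x : X} (hx : T x ≠ x) :
    ∃ A : X → Line X, (∀ p, (A p).1 0 = p) ∧ ∀ p q, Near (A p).1 (A q).1 := by
  obtain ⟨D, hD⟩ := hN
  have nr : ∀ c : Line X, Near c.1 (mapL hT c).1 := fun c =>
    ⟨D, fun t => by rw [dist_comm]; exact hD _⟩
  have hδ : 0 < dist x (T x) := dist_pos.2 hx.symm
  have cst : ∀ p, dist p (T p) = dist x (T x) := fun p => by
    obtain ⟨c, h0, h1⟩ := exists_line H hn x p
    have := hP.const c _ (nr c) (dist x p)
    simpa only [mapL_apply, h0, h1] using this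
  set δ := dist x (T x) with hδe
  choose A h0 h1 using fun p => exists_line H hn p (T p)
  simp only [cst] at h1
  have sh : ∀ p t, T ((A p).1 t) = (A p).1 (t + δ) := fun p t => by
    have e1 := hP.strip (A p) _ (nr (A p)) δ 0
    have e2 := hP.strip (A p) _ (nr (A p)) (t + δ) t
    simp only [mapL_apply, h0, h1, cst, dist_self] at e1 e2
    have e3 : bus (A p) (T p) = -δ := by
      refine mul_left_cancel₀ hδ.ne' ?_
      nlinarith
    rw [e3] at e2
    have e4 : dist ((A p).1 (t + δ)) (T ((A p).1 t)) ^ 2 = 0 := by rw [e2]; ring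
    exact (dist_eq_zero.1 (pow_eq_zero_iff two_ne_zero |>.1 e4)).symm
  refine ⟨A, h0, fun p q => ⟨dist p q + 2 * δ, fun t => ?_⟩⟩
  have per : Function.Periodic (fun t => dist ((A p).1 t) ((A q).1 t)) δ := fun t => by
    simp only [← sh, hT.dist_eq]
  obtain ⟨u, hu, e⟩ := per.exists_mem_Ico₀ hδ t
  refine e.trans_le ?_
  have e1 := dist_triangle4 ((A p).1 u) ((A p).1 0) ((A q).1 0) ((A q).1 u)
  rw [Line.dist_eq, Line.dist_eq (A q), h0, h0, sub_zero, zero_sub, abs_neg,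
    abs_of_nonneg hu.1] at e1
  linarith [hu.2]

/-- a line that leaves a flat goes far away from it -/
theorem uni_far (H : Hadamard (m + 1) X) (hF : FlaF H) {j : E m → X} (hj : Isometry j)
    (c : Line X) (h0 : c.1 0 = j 0) (h1 : c.1 1 ∉ Set.range j) :
    ∃ ρ : ℝ, 0 < ρ ∧ ∀ t z, |t| * ρ ≤ dist (c.1 t) (j z) := by
  obtain ⟨L, hL⟩ := hF.lin j hj 0
  simp only [zero_add] at hL
  obtain ⟨-, hc⟩ := line_radial H c
  rw [h0] at hc
  set θ := lg H (j 0) (c.1 1) with hθ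
  have hn : θ ∉ (LinearMap.range L.toLinearMap : Set (E (m + 1))) := by
    rintro ⟨u, hu⟩
    refine h1 ⟨u, ?_⟩
    rw [← hL, hc 1, one_smul, ← hu]
    rfl
  have hcl : IsClosed (LinearMap.range L.toLinearMap : Set (E (m + 1))) :=
    Submodule.closed_of_finiteDimensional _
  refine ⟨_, (hcl.notMem_iff_infDist_pos ⟨0, zero_mem _⟩).1 hn, fun t z => ?_⟩
  rcases eq_or_ne t 0 with rfl | ht
  · simp
  rw [hc t, ← hL z]
  refine le_trans ?_ (ex_exp H _ _ _)
  have e : t • θ - L z = t • (θ - L (t⁻¹ • z)) := by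
    rw [map_smul, smul_sub, smul_smul, mul_inv_cancel₀ ht, one_smul]
  rw [e, norm_smul, Real.norm_eq_abs, ← dist_eq_norm]
  exact mul_le_mul_of_nonneg_left (Metric.infDist_le_dist_of_mem ⟨t⁻¹ • z, rfl⟩) (abs_nonneg t)

/-- lines parallel to a transverse line meet the flat -/
theorem uni_meet (H : Hadamard (m + 1) X) (hF : FlaF H) {j : E m → X} (hj : Isometry j)
    (c d : Line X) (h0 : c.1 0 = j 0) (h1 : c.1 1 ∉ Set.range j) (hn : Near c.1 d.1) :
    ∃ u z, d.1 u = j z := by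
  obtain ⟨ρ, hρ, far⟩ := uni_far H hF hj c h0 h1
  obtain ⟨D, hD⟩ := hn
  obtain ⟨s, hs⟩ := hF.side j hj
  obtain ⟨t, ht⟩ : ∃ t : ℝ, t = (|D| + 1) / ρ := ⟨_, rfl⟩
  have t0 : 0 < t := by rw [ht]; positivity
  have t1 : t * ρ = |D| + 1 := by rw [ht, div_mul_cancel₀ _ hρ.ne']
  have key : ∀ τ : ℝ, |τ| = t → 0 < s (c.1 τ) * s (d.1 τ) := fun τ hτ => by
    by_contra hc
    obtain ⟨z, hz⟩ := hs.cross _ _ (not_lt.1 hc)
    have e1 := far τ z
    have e2 : dist (c.1 τ) (j z) + dist (j z) (d.1 τ) = dist (c.1 τ) (d.1 τ) := hz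
    rw [hτ, t1] at e1
    linarith [hD τ, le_abs_self D, dist_nonneg (x := j z) (y := d.1 τ)]
  have k1 := key t (abs_of_pos t0)
  have k2 := key (-t) (by rw [abs_neg, abs_of_pos t0])
  have k3 : s (c.1 (-t)) * s (c.1 t) ≤ 0 := by
    by_contra hc
    refine hs.same _ _ 0 (not_le.1 hc) ?_
    rw [← h0]
    exact btw_line c (by linarith) t0.le
  have k4 : s (d.1 (-t)) * s (d.1 t) ≤ 0 := by
    by_contra hc
    have k5 := mul_pos (mul_pos k1 k2) (not_le.1 hc)
    nlinarith [mul_nonneg (neg_nonneg.2 k3) (sq_nonneg (s (d.1 (-t)) * s (d.1 t)))]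
  obtain ⟨z, hz⟩ := hs.cross _ _ k4
  obtain ⟨u, -, -, hu⟩ := hz.line H d (by linarith)
  exact ⟨u, z, hu.symm⟩

/-- a flat parallel to a flat in `Q` through a point of `Q` lies in `Q` -/
theorem uni_in {H : Hadamard n X} (hB : BusF H) {j k : E m → X} (hj : Isometry j)
    (hk : Isometry k) (hn : Near k j) {Q : Set X} (hQ : IsClosed Q) (hc : Cvx Q)
    (hm : ∀ z, j z ∈ Q) {z0 : E m} (h0 : k z0 ∈ Q) (z : E m) : k z ∈ Q := by
  rcases eq_or_ne z z0 with rfl | hz
  · exact h0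
  have hp : 0 < ‖z - z0‖ := norm_pos_iff.2 (sub_ne_zero.2 hz)
  have he : ‖‖z - z0‖⁻¹ • (z - z0)‖ = 1 := by
    rw [norm_smul, norm_inv, norm_norm, inv_mul_cancel₀ hp.ne']
  obtain ⟨c, c0, ⟨D, hD⟩, hc'⟩ := hB.exi (uni_fl hj z0 _ he) (k z0)
  obtain ⟨D', hD'⟩ := hn
  have e : uni_fl hk z0 _ he = c := by
    refine hB.uniq _ _ ⟨D' + D, fun t ht => ?_⟩ (by rw [c0]; simp [uni_fl])
    exact (dist_triangle _ ((uni_fl hj z0 _ he).1 t) _).trans (add_le_add (hD' _) (hD t ht))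
  have h1 := hc' Q hQ hc h0 (fun t _ => hm _) ‖z - z0‖ hp.le
  rw [← e] at h1
  simpa [uni_fl, smul_smul, mul_inv_cancel₀ hp.ne'] using h1

theorem uni_tan {Γ : Type} [Group Γ] [MulAction Γ X] {H : Hadamard (m + 1) X} (hG : Geo H)
    (G : Graph m Γ X) (hW : WalF G) (A : X → Line X) (h0 : ∀ p, (A p).1 0 = p)
    (hA : ∀ p q, Near (A p).1 (A q).1) (a : G.A) :
    ∃ θ : E m, ‖θ‖ = 1 ∧ ∀ t : ℝ, (A (G.j a 0)).1 t = G.j a (t • θ) := by
  have hj := G.flat a
  by_cases h1 : (A (G.j a 0)).1 1 ∈ Set.range (G.j a)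
  · obtain ⟨θ, hθ⟩ := h1
    have n1 : ‖θ‖ = 1 := by
      have e := Line.dist_eq (A (G.j a 0)) 1 0
      rw [← hθ, h0, hj.dist_eq, dist_zero_right] at e
      simpa using e
    have e : A (G.j a 0) = uni_fl hj 0 θ n1 :=
      line_ext H (s := 0) (t := 1) zero_ne_one (by rw [h0]; simp [uni_fl])
        (by rw [← hθ]; simp [uni_fl])
    exact ⟨θ, n1, fun t => by rw [e]; simp [uni_fl]⟩
  · exfalso
    obtain ⟨p, hp, hp'⟩ := hW.off a
    obtain ⟨u, z, hu⟩ := uni_meet H hG.fla hj _ (A p) (h0 _) h1 (hA _ _)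
    have e : flow u (A p) = A (G.j a z) := by
      obtain ⟨D, hD⟩ := hA p (G.j a z)
      refine hG.bus.uniq _ _ ⟨|u| + D, fun t _ => ?_⟩ (by rw [h0, flow_apply, zero_add, hu])
      refine (dist_triangle _ ((A p).1 t) _).trans (add_le_add ?_ (hD t))
      rw [flow_apply, Line.dist_eq, add_sub_cancel_left]
    have hk : Isometry fun y => (A (G.j a y)).1 (-u) := Isometry.of_dist_eq fun y y' => by
      rw [hG.par.const _ _ (hA _ _), h0, h0, hj.dist_eq]
    have hn : Near (fun y => (A (G.j a y)).1 (-u)) (G.j a) := ⟨|u|, fun y => by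
      have e := Line.dist_eq (A (G.j a y)) (-u) 0
      rw [h0, sub_zero, abs_neg] at e
      exact e.le⟩
    have e1 : (A (G.j a z)).1 (-u) = p := by rw [← e, flow_apply, neg_add_cancel, h0]
    have hq := uni_in hG.bus hj hk hn (G.closed _) (G.convex _) (G.mem a) (z0 := z) (e1 ▸ hp)
    exact hp' (e1 ▸ G.thin a _ hk hn hq z)

theorem uni_main : SpUni := by
  intro m Γ X _ _ _ _ H _ hG G hW T hT hN x
  by_contra hx
  obtain ⟨A, h0, hA⟩ := uni_class H (Nat.succ_pos m) hG.par hT hN hx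
  choose θ n1 hθ using uni_tan hG G hW A h0 hA
  have bd : ∀ a a' (t : ℝ), dist (G.j a (t • θ a)) (G.j a' (t • θ a')) =
      dist (G.j a 0) (G.j a' 0) := fun a a' t => by
    rw [← hθ, ← hθ, hG.par.const _ _ (hA _ _), h0, h0]
  have dir : ∀ a, θ a = G.v a ∨ θ a = -G.v a := fun a => by
    obtain ⟨a', C, -, hv⟩ := G.visible a
    have e1 : ‖perp (G.v a) (θ a)‖ = 0 := by
      refine uni_zero (C := dist (G.j a 0) (G.j a' 0) + C) (norm_nonneg _) fun t ht => ?_
      have e := hv (t • θ a) (t • θ a')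
      have e' : perp (G.v a) (t • θ a) = t • perp (G.v a) (θ a) := by
        rw [perp, perp, real_inner_smul_left, smul_sub, smul_smul]
      rw [bd, e', norm_smul, Real.norm_eq_abs, abs_of_nonneg ht] at e
      linarith [norm_nonneg (perp (G.v a') (t • θ a'))]
    have e2 : θ a = inner ℝ (θ a) (G.v a) • G.v a := sub_eq_zero.1 (norm_eq_zero.1 e1)
    have e3 := congrArg norm e2
    rw [n1, norm_smul, G.unit, mul_one, Real.norm_eq_abs] at e3
    rcases (abs_eq zero_le_one).1 e3.symm with h | h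
    · left; rw [e2, h, one_smul]
    · right; rw [e2, h, neg_smul, one_smul]
  obtain ⟨a⟩ := G.ne
  obtain ⟨w, hw⟩ := G.width a
  have e : θ (G.op a) = θ a := by
    refine sub_eq_zero.1 (norm_eq_zero.1 (uni_zero (C := 0) (norm_nonneg _) fun t ht => ?_))
    have e1 := hw (t • θ a) (t • θ (G.op a))
    rw [bd, hw, sub_self, norm_zero, ← smul_sub, norm_smul, Real.norm_eq_abs,
      abs_of_nonneg ht] at e1
    have e2 : (t * ‖θ (G.op a) - θ a‖) ^ 2 = 0 := by linarith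
    exact (pow_eq_zero_iff two_ne_zero |>.1 e2).le
  obtain ⟨t1, t2⟩ := G.trans a
  rcases dir a with h | h <;> rcases dir (G.op a) with h' | h'
  · exact t1 (h'.symm.trans (e.trans h))
  · exact t2 (by rw [← h, ← e, h', neg_neg])
  · exact t2 (h'.symm.trans (e.trans h))
  · exact t1 (neg_injective (h'.symm.trans (e.trans h)))

end Pool.Agent.MP_3ee8cb_gt.G76
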