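import Pool.Agent.MP_3ee8cb_gt.G76.Spec

open Filter Topology

namespace Pool.Agent.MP_3ee8cb_gt.G76

theorem val_near {n : ℕ} {X : Type} [MetricSpace X] (H : Hadamard n X) (c r : Line X)
    {D u S t : ℝ} (hD : dist (c.1 0) (r.1 0) ≤ D) (hu : 0 ≤ u) (hS : 0 < S) (h : c.1 u = r.1 S)
    (ht : 0 ≤ t) (htS : t ≤ S) : dist (c.1 t) (r.1 t) ≤ 2 * D := by
  have h0 : 0 ≤ t / S := div_nonneg ht hS.le
  have h1 : t / S ≤ 1 := (div_le_one hS).2 htS
  have hD0 : 0 ≤ D := dist_nonneg.trans hD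
  have e1 := line_conv H c r 0 u 0 S h0 h1
  rw [h, dist_self, mul_zero, mul_zero, zero_add, zero_add, add_zero,
    div_mul_cancel₀ t hS.ne'] at e1
  have e2 : |u - S| ≤ D := by
    have a1 : dist (c.1 0) (r.1 S) = u := by
      rw [← h, Line.dist_eq, zero_sub, abs_neg, abs_of_nonneg hu]
    have a2 : dist (r.1 0) (r.1 S) = S := by
      rw [Line.dist_eq, zero_sub, abs_neg, abs_of_pos hS]
    have a3 := abs_dist_sub_le (c.1 0) (r.1 0) (r.1 S)
    rw [a1, a2] at a3
    exact a3.trans hD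
  have e3 : dist (c.1 t) (c.1 (t / S * u)) ≤ D := by
    rw [Line.dist_eq, show t - t / S * u = t / S * (S - u) by field_simp, abs_mul,
      abs_of_nonneg h0, abs_sub_comm]
    nlinarith [abs_nonneg (u - S)]
  have e4 := dist_triangle (c.1 t) (c.1 (t / S * u)) (r.1 t)
  nlinarith [dist_nonneg (x := c.1 0) (y := r.1 0)]

theorem val_main : SpVal := by
  intro m X _ _ H hB Q Q' j k r r' hj hjQ hsj hsk hr hr' hbdd
  have key : ∀ S : ℝ, ∃ z z' : E m, Btw (r.1 S) (j z) (r'.1 S) ∧
      bus r (j z) + dist (j z) (k z') + bus r' (k z') ≤ dist (r.1 S) (r'.1 S) - 2 * S := by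
    intro S
    obtain ⟨z, hz⟩ := hsj _ (hr S) _ (hr' S)
    obtain ⟨z', hz'⟩ := hsk _ (hjQ z) _ (hr' S)
    refine ⟨z, z', hz, ?_⟩
    have a1 := hB.le r (j z) S
    have a2 := hB.le r' (k z') S
    rw [dist_comm] at a1
    unfold Btw at hz hz'
    linarith
  refine ⟨fun c h1 h2 => le_antisymm (le_ciInf fun z => ?_) ?_, fun hco => ?_⟩
  · have a1 := hB.cocycle _ _ h1
    have a2 := hB.cocycle _ _ h2
    have a3 := hB.self (rev c) 0
    have a4 := hB.self c 0
    rw [rev_apply, neg_zero] at a3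
    rw [neg_zero] at a4
    have a5 := (abs_le.1 (hB.lip c (j z.1) (k z.2))).2
    have a6 := hB.sum c (j z.1)
    linarith [a1 (c.1 0), a1 (j z.1), a2 (c.1 0), a2 (k z.2)]
  · refine ge_of_tendsto' ((hB.tend r (c.1 0)).add (hB.tend r' (c.1 0))) fun S => ?_
    obtain ⟨z, z', -, hz⟩ := key S
    have a1 := ciInf_le hbdd (z, z')
    have a2 := dist_triangle_left (r.1 S) (r'.1 S) (c.1 0)
    linarith
  · obtain ⟨ρ, hρ⟩ := hco (dist (r.1 0) (r'.1 0))
    have hK : IsCompact (j '' Metric.closedBall 0 ρ) :=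
      (isCompact_closedBall 0 ρ).image hj.continuous
    set D : ℝ := dist (j 0) (r.1 0) + ρ with hD
    set D' : ℝ := dist (j 0) (r'.1 0) + ρ with hD'
    let C : ℕ → Set (Line X) := fun N => {c | c.1 0 ∈ j '' Metric.closedBall 0 ρ} ∩
      ⋂ t : ℝ, ⋂ _ : 0 ≤ t, ⋂ _ : t ≤ N + 1,
        ({c | dist (c.1 (-t)) (r.1 t) ≤ 2 * D} ∩ {c | dist (c.1 t) (r'.1 t) ≤ 2 * D'})
    have hcl : ∀ N, IsClosed (C N) := fun N =>
      (hK.isClosed.preimage (line_eval_cont 0)).inter (isClosed_iInter fun t =>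
        isClosed_iInter fun _ => isClosed_iInter fun _ =>
          (isClosed_le ((line_eval_cont (-t)).dist continuous_const) continuous_const).inter
            (isClosed_le ((line_eval_cont t).dist continuous_const) continuous_const))
    have hne : ∀ N, (C N).Nonempty := by
      intro N
      have hS : (0 : ℝ) < N + 1 := by positivity
      obtain ⟨z, z', hb, hz⟩ := key (N + 1)
      have hzρ : ‖z‖ ≤ ρ := by
        refine hρ z z' (hz.trans ?_)
        have b1 := dist_triangle4 (r.1 (N + 1)) (r.1 0) (r'.1 0) (r'.1 (N + 1))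
        rw [Line.dist_eq, Line.dist_eq, sub_zero, zero_sub, abs_neg, abs_of_pos hS] at b1
        linarith
      obtain ⟨e, he0, he1⟩ := exists_line H (Nat.succ_pos m) (r.1 (N + 1)) (r'.1 (N + 1))
      obtain ⟨u, hu0, hu1, hu⟩ := Btw.line H e (dist_nonneg (x := r.1 (N + 1))
        (y := r'.1 (N + 1))) (x := j z) (by rw [he0, he1]; exact hb)
      have hj0 : dist (j z) (j 0) ≤ ρ := by rw [hj.dist_eq, dist_zero_right]; exact hzρ
      have h00 : (flow u e).1 0 = j z := by rw [flow_apply, zero_add, hu]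
      refine ⟨flow u e, ⟨z, mem_closedBall_zero_iff.2 hzρ, h00.symm⟩, ?_⟩
      simp only [Set.mem_iInter, Set.mem_inter_iff, Set.mem_ofPred_eq]
      intro t ht htS
      constructor
      · refine val_near H (rev (flow u e)) r (u := u) ?_ hu0 hS ?_ ht htS
        · rw [rev_apply, neg_zero, h00]
          linarith [dist_triangle (j z) (j 0) (r.1 0)]
        · rw [rev_apply, flow_apply, neg_add_cancel, he0]
      · refine val_near H (flow u e) r' (u := dist (r.1 (N + 1)) (r'.1 (N + 1)) - u) ?_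
          (sub_nonneg.2 hu1) hS ?_ ht htS
        · rw [h00]
          linarith [dist_triangle (j z) (j 0) (r'.1 0)]
        · rw [flow_apply, sub_add_cancel, he1]
    have hanti : ∀ N, C (N + 1) ⊆ C N := by
      intro N c hc
      refine ⟨hc.1, ?_⟩
      have h2 := hc.2
      simp only [Set.mem_iInter] at h2 ⊢
      intro t ht htS
      exact h2 t ht (by push_cast; linarith)
    obtain ⟨c, hc⟩ := IsCompact.nonempty_iInter_of_sequence_nonempty_isCompact_isClosed C hanti
      hne ((lines_compact hK).of_isClosed_subset (hcl 0) Set.inter_subset_left) hcl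
    have hfin : ∀ t : ℝ, 0 ≤ t → dist (c.1 (-t)) (r.1 t) ≤ 2 * D ∧
        dist (c.1 t) (r'.1 t) ≤ 2 * D' := by
      intro t ht
      have h2 := (Set.mem_iInter.1 hc ⌈t⌉₊).2
      simp only [Set.mem_iInter] at h2
      exact h2 t ht (by linarith [Nat.le_ceil t])
    exact ⟨c, ⟨2 * D, fun t ht => (hfin t ht).1⟩, ⟨2 * D', fun t ht => (hfin t ht).2⟩⟩

end Pool.Agent.MP_3ee8cb_gt.G76
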