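import Pool.Agent.MP_3ee8cb_gt.G76.Spec

/-
Walls of the graph structure: one sidedness, good directions span, points off a wall.
-/

open Filter Topology

namespace Pool.Agent.MP_3ee8cb_gt.G76

section aux

variable {m : ℕ} {X : Type} [MetricSpace X]

theorem wal_near_symm {α : Type} {f g : α → X} (h : Near f g) : Near g f :=
  h.imp fun _ hD a => by rw [dist_comm]; exact hD a

theorem wal_near_trans {α : Type} {f g k : α → X} (h : Near f g) (h' : Near g k) : Near f k := by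
  obtain ⟨D, hD⟩ := h
  obtain ⟨D', hD'⟩ := h'
  exact ⟨D + D', fun a => (dist_triangle _ (g a) _).trans (add_le_add (hD a) (hD' a))⟩

theorem wal_asym {c c' : Line X} (h : Near c.1 c'.1) : Asym c c' :=
  h.imp fun _ hD t _ => hD t

theorem wal_perp_big (hm : 2 ≤ m) (v : E m) (C : ℝ) : ∃ z, C < ‖perp v z‖ := by
  have h : ∃ z, perp v z ≠ 0 := by
    by_contra hn
    push Not at hn
    have e : ∀ i k : Fin m, (EuclideanSpace.single i (1 : ℝ) : E m) k = v i * v k := by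
      intro i k
      have h1 := sub_eq_zero.1 (hn (EuclideanSpace.single i (1 : ℝ)))
      have h2 : inner ℝ (EuclideanSpace.single i (1 : ℝ) : E m) v = v i := by
        rw [EuclideanSpace.inner_single_left]; simp
      rw [h2] at h1
      rw [h1]; simp
    have a0 := e ⟨0, by omega⟩ ⟨0, by omega⟩
    have a1 := e ⟨1, by omega⟩ ⟨1, by omega⟩
    have a2 := e ⟨0, by omega⟩ ⟨1, by omega⟩
    simp at a0 a1 a2
    rcases a2 with h | h
    · rw [h] at a0; simp at a0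
    · rw [h] at a1; simp at a1
  obtain ⟨z, hz⟩ := h
  have hp : 0 < ‖perp v z‖ := norm_pos_iff.2 hz
  refine ⟨((|C| + 1) / ‖perp v z‖) • z, ?_⟩
  have h1 : perp v (((|C| + 1) / ‖perp v z‖) • z) = ((|C| + 1) / ‖perp v z‖) • perp v z := by
    rw [perp, real_inner_smul_left, mul_smul, ← smul_sub]; rfl
  rw [h1, norm_smul, Real.norm_eq_abs, abs_of_pos (by positivity), div_mul_cancel₀ _ hp.ne']
  linarith [le_abs_self C]

/-- A straight line in a flat. -/
def wal_ln {j : E m → X} (hj : Isometry j) (z : E m) {θ : E m} (hθ : ‖θ‖ = 1) : Line X :=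
  ⟨fun t => j (z + t • θ), Isometry.of_dist_eq fun s t => by
    rw [hj.dist_eq, dist_eq_norm, add_sub_add_left_eq_sub, ← sub_smul, norm_smul, hθ, mul_one,
      Real.dist_eq, Real.norm_eq_abs]⟩

theorem wal_ln_apply {j : E m → X} (hj : Isometry j) (z : E m) {θ : E m} (hθ : ‖θ‖ = 1) (t : ℝ) :
    (wal_ln hj z hθ).1 t = j (z + t • θ) := rfl

theorem wal_ln_zero {j : E m → X} (hj : Isometry j) (z : E m) {θ : E m} (hθ : ‖θ‖ = 1) :
    (wal_ln hj z hθ).1 0 = j z := by rw [wal_ln_apply, zero_smul, add_zero]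

theorem wal_ln_near {j : E m → X} (hj : Isometry j) (z z' : E m) {θ : E m} (hθ : ‖θ‖ = 1) :
    Near (wal_ln hj z hθ).1 (wal_ln hj z' hθ).1 :=
  ⟨dist z z', fun t => by rw [wal_ln_apply, wal_ln_apply, hj.dist_eq, dist_add_right]⟩

theorem wal_ln_bus {n : ℕ} {H : Hadamard n X} (hP : ParF H) {j : E m → X} (hj : Isometry j)
    (y : E m) {θ : E m} (hθ : ‖θ‖ = 1) : bus (wal_ln hj 0 hθ) (j y) = -inner ℝ y θ := by
  have h := hP.strip _ _ (wal_ln_near hj 0 y hθ) 0 1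
  rw [wal_ln_zero, wal_ln_zero, wal_ln_apply, hj.dist_eq, hj.dist_eq, one_smul, dist_zero_left,
    dist_zero_left, norm_add_sq_real, hθ] at h
  linarith

/-- A line parallel to a line of a closed convex set and starting in it stays in it. -/
theorem wal_stay {n : ℕ} {H : Hadamard n X} (hB : BusF H) {R : Set X} (hc : IsClosed R)
    (hv : Cvx R) {c c₀ : Line X} (hn : Near c.1 c₀.1) (h0 : c.1 0 ∈ R) (h : ∀ t, c₀.1 t ∈ R)
    (t : ℝ) : c.1 t ∈ R := by
  have key : ∀ c c₀ : Line X, Near c.1 c₀.1 → c.1 0 ∈ R → (∀ t, c₀.1 t ∈ R) →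
      ∀ t, 0 ≤ t → c.1 t ∈ R := by
    intro c c₀ hn h0 h t ht
    obtain ⟨c', e0, ⟨D', hD'⟩, hs⟩ := hB.exi c₀ (c.1 0)
    obtain ⟨D, hD⟩ := hn
    have e : c = c' := hB.uniq c c' ⟨D + D', fun u hu =>
      (dist_triangle _ (c₀.1 u) _).trans (add_le_add (hD u) (hD' u hu))⟩ e0.symm
    rw [e]
    exact hs R hc hv h0 (fun u _ => h u) t ht
  rcases le_total 0 t with ht | ht
  · exact key c c₀ hn h0 h t ht
  · have := key (rev c) (rev c₀) (hn.imp fun _ hD u => hD (-u)) (by simpa using h0)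
      (fun u => h (-u)) (-t) (by linarith)
    simpa using this

/-- The parallel class of a line. -/
def wal_cls (l : Line X) : Set X := {q | ∃ c : Line X, c.1 0 = q ∧ Near c.1 l.1}

theorem wal_cls_pt {n : ℕ} {H : Hadamard n X} (hP : ParF H) {l : Line X} {p q : X}
    (hp : p ∈ wal_cls l) (hq : q ∈ wal_cls l) {s : ℝ} (h0 : 0 ≤ s) (h1 : s ≤ 1) :
    pt H p q s ∈ wal_cls l := by
  obtain ⟨c, rfl, hc⟩ := hp
  obtain ⟨c', rfl, hc'⟩ := hq
  obtain ⟨d, hd, -, he⟩ := hP.mid c c' (wal_near_trans hc (wal_near_symm hc')) s h0 h1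
  refine ⟨d, ?_, wal_near_trans (wal_near_symm hd) hc⟩
  rw [he 0 0]; simp

theorem wal_cls_cvx {n : ℕ} {H : Hadamard n X} (hP : ParF H) (l : Line X) : Cvx (wal_cls l) := by
  intro p hp q hq x hx
  obtain ⟨s, h0, h1, rfl⟩ := hx.exists_pt H
  exact wal_cls_pt hP hp hq h0 h1

theorem wal_cls_closed [ProperSpace X] {n : ℕ} {H : Hadamard n X} (hP : ParF H) (l : Line X) :
    IsClosed (wal_cls l) := by
  have hp : IsProperMap fun c : Line X => c.1 0 :=
    isProperMap_iff_isCompact_preimage.2 ⟨line_eval_cont 0, fun K hK => lines_compact hK⟩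
  have e : wal_cls l = (fun c : Line X => c.1 0) ''
      ⋂ t, {c : Line X | dist (c.1 t) (l.1 t) = dist (c.1 0) (l.1 0)} := by
    ext q
    simp only [Set.mem_image, Set.mem_iInter, Set.mem_ofPred_eq]
    constructor
    · rintro ⟨c, rfl, hc⟩
      exact ⟨c, hP.const c l hc, rfl⟩
    · rintro ⟨c, hc, rfl⟩
      exact ⟨c, rfl, _, fun t => (hc t).le⟩
  rw [e]
  exact hp.isClosedMap _ (isClosed_iInter fun t => isClosed_eq
    ((line_eval_cont t).dist continuous_const) ((line_eval_cont 0).dist continuous_const))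

/-- A flat contains the whole line through two of its points. -/
theorem wal_ext {H : Hadamard (m + 1) X} (hF : FlaF H) {j : E m → X} (hj : Isometry j) (y : E m)
    {a : E (m + 1)} {s : ℝ} (hs : s ≠ 0) (h : ex H (j y) (s • a) ∈ Set.range j) :
    ex H (j y) a ∈ Set.range j := by
  obtain ⟨L, hL⟩ := hF.lin j hj y
  obtain ⟨z, hz⟩ := h
  have e : s • a = L (z - y) := ex_inj H (j y) (by rw [hL, add_sub_cancel, hz])
  have e2 : a = L (s⁻¹ • (z - y)) := by
    rw [map_smul, ← e, smul_smul, inv_mul_cancel₀ hs, one_smul]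
  exact ⟨_, by rw [e2, hL]⟩

theorem wal_pt_pt {n : ℕ} (H : Hadamard n X) (p q : X) (s t : ℝ) :
    pt H p (pt H p q s) t = pt H p q (t * s) := by
  rw [pt, pt, pt, lg_ex, smul_smul]

/-- Points of a segment issuing from the wall see the wall behind them. -/
theorem wal_behind [ProperSpace X] {H : Hadamard (m + 1) X} (hF : FlaF H) {j : E m → X}
    (hj : Isometry j) {p : X} (hp : p ∉ Set.range j) (p₁ : X) :
    ∀ᶠ η in 𝓝 (0 : ℝ), ∃ z, Btw p (j z) (pt H p (pt H (j 0) p₁ η) 2) := by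
  obtain ⟨s, hs⟩ := hF.side j hj
  have hc : Continuous fun η : ℝ => s p * s (pt H p (pt H (j 0) p₁ η) 2) := by
    refine continuous_const.mul (hs.cont.comp ?_)
    unfold pt
    have h1 := ex_cont H p
    have h2 := lg_cont H p
    have h3 := ex_cont H (j 0)
    fun_prop
  have hm : j 0 = pt H p (pt H p (j 0) 2) (1 / 2) := by
    rw [wal_pt_pt]; norm_num
  have h0 : s p * s (pt H p (pt H (j 0) p₁ 0) 2) < 0 := by
    rw [pt_zero]
    have hb : Btw p (j 0) (pt H p (j 0) 2) := by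
      have := btw_pt H p (pt H p (j 0) 2) (s := 1 / 2) (by norm_num) (by norm_num)
      rwa [← hm] at this
    refine lt_of_le_of_ne (not_lt.1 fun h => hs.same _ _ 0 h hb) (mul_ne_zero
      (fun h => hp ((hs.zero p).1 h)) fun h => hp ?_)
    have h1 := lg_pt_opp H p (pt H p (j 0) 2) (s := 1 / 2) (by norm_num) (by norm_num)
    rw [← hm] at h1
    have h2 := (hs.zero _).1 h
    rw [← ex_lg H (j 0) (pt H p (j 0) 2), h1] at h2
    have := wal_ext hF hj 0 (by norm_num) h2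
    rwa [ex_lg] at this
  filter_upwards [hc.continuousAt.eventually_lt continuousAt_const h0] with η hη
  exact hs.cross _ _ hη.le

/-- A finite spanning set of unit vectors outside a proper subspace. -/
theorem wal_fin (U : Submodule ℝ (E m)) (hU : U ≠ ⊤) : ∃ T : Finset (E m),
    (∀ θ ∈ T, ‖θ‖ = 1 ∧ θ ∉ U) ∧ Submodule.span ℝ (T : Set (E m)) = ⊤ := by
  obtain ⟨ν, hν⟩ : ∃ ν, ν ∉ U := by
    by_contra hn
    push Not at hn
    exact hU (Submodule.eq_top_iff'.2 hn)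
  have h1 : ∀ x, x ∉ U → x ∈ Submodule.span ℝ {θ : E m | ‖θ‖ = 1 ∧ θ ∉ U} := by
    intro x hx
    have hx0 : x ≠ 0 := fun h => hx (h ▸ U.zero_mem)
    have hn : ‖x‖ ≠ 0 := norm_ne_zero_iff.2 hx0
    have e : x = ‖x‖ • (‖x‖⁻¹ • x) := by rw [smul_smul, mul_inv_cancel₀ hn, one_smul]
    rw [e]
    refine Submodule.smul_mem _ _ (Submodule.subset_span ⟨?_, fun h => hx ?_⟩)
    · rw [norm_smul, norm_inv, norm_norm, inv_mul_cancel₀ hn]
    · rw [e]; exact U.smul_mem _ h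
  have h2 : Submodule.span ℝ {θ : E m | ‖θ‖ = 1 ∧ θ ∉ U} = ⊤ := by
    refine Submodule.eq_top_iff'.2 fun x => ?_
    by_cases hx : x ∈ U
    · have := Submodule.sub_mem _ (h1 (x + ν) fun h => hν ((U.add_mem_iff_right hx).1 h)) (h1 ν hν)
      rwa [add_sub_cancel_right] at this
    · exact h1 x hx
  obtain ⟨T, hT, e⟩ := (Submodule.fg_span_iff_fg_span_finset_subset (R := ℝ)
    {θ : E m | ‖θ‖ = 1 ∧ θ ∉ U}).1 (IsNoetherian.noetherian _)
  exact ⟨T, fun θ h => hT h, by rw [← e, h2]⟩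

/-- A point in the parallel classes of a spanning set of directions lies on a parallel flat. -/
theorem wal_flat [ProperSpace X] {n : ℕ} {H : Hadamard n X} (hB : BusF H) (hP : ParF H)
    {j : E m → X} (hj : Isometry j) {Q : Set X} (hc : IsClosed Q) (hv : Cvx Q)
    (hQ : ∀ z, j z ∈ Q) {T : Set (E m)} (hT : ∀ θ ∈ T, ‖θ‖ = 1)
    (hs : Submodule.span ℝ T = ⊤) {q₀ : X} (hq : q₀ ∈ Q)
    (hq' : ∀ θ (h : θ ∈ T), q₀ ∈ wal_cls (wal_ln hj 0 (hT θ h))) :
    ∃ k : E m → X, Isometry k ∧ (∀ z, k z ∈ Q) ∧ ∀ y z, dist (k y) (j (y + z)) = dist q₀ (j z) := by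
  set Tr : E m × X → Prop := fun x => x.2 ∈ Q ∧
    (∀ θ (h : θ ∈ T), x.2 ∈ wal_cls (wal_ln hj 0 (hT θ h))) ∧
    ∀ z, dist x.2 (j (x.1 + z)) = dist q₀ (j z) with hTr
  set St : E m × X → E m × X → Prop := fun x x' => ∃ θ, ∃ h : θ ∈ T, ∃ (c : Line X) (t : ℝ),
    c.1 0 = x.2 ∧ Near c.1 (wal_ln hj 0 (hT θ h)).1 ∧ x'.1 = x.1 + t • θ ∧ x'.2 = c.1 t with hSt
  have step : ∀ x x', Tr x → St x x' → Tr x' := by
    rintro ⟨y, q⟩ ⟨y', q'⟩ ⟨h1, h2, h3⟩ ⟨θ, h, c, t, e0, hn, e1, e2⟩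
    simp only at h1 h2 h3 e0 e1 e2
    subst e0 e1 e2
    refine ⟨wal_stay hB hc hv hn h1 (fun u => hQ _) t, fun θ' h' =>
      wal_stay hB (wal_cls_closed hP _) (wal_cls_cvx hP _) hn (h2 θ' h')
        (fun u => ⟨wal_ln hj _ (hT θ' h'), wal_ln_zero hj _ _, wal_ln_near hj _ _ _⟩) t,
      fun z => ?_⟩
    have := hP.const c _ (wal_near_trans hn (wal_ln_near hj 0 (y + z) (hT θ h))) t
    rw [wal_ln_zero, wal_ln_apply, h3] at this
    simp only
    rw [← this, add_right_comm]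
  have hbus : ∀ x, Tr x → ∀ θ (h : θ ∈ T), bus (wal_ln hj 0 (hT θ h)) x.2 =
      bus (wal_ln hj 0 (hT θ h)) q₀ - inner ℝ x.1 θ := by
    rintro ⟨y, q⟩ ⟨-, -, h3⟩ θ h
    simp only at h3 ⊢
    rw [hB.cocycle _ _ (wal_asym (wal_ln_near hj 0 y (hT θ h))) q, wal_ln_zero, wal_ln_bus hP,
      ← sub_eq_add_neg]
    refine congrArg (· - inner ℝ y θ) ?_
    unfold bus
    refine iInf_congr fun S => ?_
    rw [wal_ln_apply, wal_ln_apply, h3, zero_add]
  have move : ∀ x x' x'', Tr x → Tr x' → dist x.2 x'.2 = dist x.1 x'.1 → St x' x'' →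
      dist x.2 x''.2 = dist x.1 x''.1 := by
    rintro x x' x'' hx hx' hd ⟨θ, h, c', t, e0, hn, e1, e2⟩
    obtain ⟨c, f0, hc⟩ := hx.2.1 θ h
    have h1 := hP.strip c c' (wal_near_trans hc (wal_near_symm hn)) 0 t
    have h2 := hB.cocycle _ c (wal_asym (wal_near_symm hc)) x'.2
    rw [f0, hbus x hx θ h, hbus x' hx' θ h] at h2
    rw [f0, e0, ← e2, hd] at h1
    have h3 : dist x.1 x''.1 ^ 2 = dist x.1 x'.1 ^ 2 + 2 * t * (inner ℝ x'.1 θ - inner ℝ x.1 θ)
        + t ^ 2 := by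
      rw [e1, dist_comm x.1, dist_comm x.1, dist_eq_norm, dist_eq_norm, add_sub_right_comm,
        norm_add_sq_real, real_inner_smul_right, inner_sub_left, norm_smul, hT θ h, mul_one,
        Real.norm_eq_abs, sq_abs]
      ring
    refine (pow_left_inj₀ dist_nonneg dist_nonneg two_ne_zero).1 ?_
    rw [h1, h3, show bus c x'.2 = -(inner ℝ x'.1 θ - inner ℝ x.1 θ) by linarith]
    ring
  have base : Tr (0, q₀) := ⟨hq, hq', fun z => by simp⟩
  have reach : ∀ x, Relation.ReflTransGen St (0, q₀) x → Tr x := by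
    intro x hx
    induction hx with
    | refl => exact base
    | tail _ h ih => exact step _ _ ih h
  have moves : ∀ x, Tr x → dist x.2 q₀ = dist x.1 0 → ∀ x',
      Relation.ReflTransGen St (0, q₀) x' → dist x.2 x'.2 = dist x.1 x'.1 := by
    intro x hx h0 x' hx'
    induction hx' with
    | refl => exact h0
    | tail hr h ih => exact move _ _ _ hx (reach _ hr) ih h
  have all : ∀ u : E m, ∀ (t : ℝ) (y : E m) (q : X), Relation.ReflTransGen St (0, q₀) (y, q) →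
      ∃ q', Relation.ReflTransGen St (0, q₀) (y + t • u, q') := by
    intro u
    have hu : u ∈ Submodule.span ℝ T := by rw [hs]; trivial
    induction hu using Submodule.span_induction with
    | mem θ h =>
      intro t y q hr
      obtain ⟨c, e0, hn⟩ := (reach _ hr).2.1 θ h
      exact ⟨c.1 t, hr.tail ⟨θ, h, c, t, e0, hn, rfl, rfl⟩⟩
    | zero => intro t y q hr; exact ⟨q, by rwa [smul_zero, add_zero]⟩
    | add u w _ _ ih ih' =>
      intro t y q hr
      obtain ⟨q', hq'⟩ := ih t y q hr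
      obtain ⟨q'', hq''⟩ := ih' t _ q' hq'
      exact ⟨q'', by rwa [smul_add, ← add_assoc]⟩
    | smul a u _ ih =>
      intro t y q hr
      obtain ⟨q', hq'⟩ := ih (t * a) y q hr
      exact ⟨q', by rwa [smul_smul]⟩
  have all' : ∀ y : E m, ∃ q, Relation.ReflTransGen St (0, q₀) (y, q) := fun y => by
    have := all y 1 0 q₀ .refl
    rwa [zero_add, one_smul] at this
  choose k hk using all'
  refine ⟨k, Isometry.of_dist_eq fun y y' => ?_, fun z => (reach _ (hk z)).1,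
    fun y z => (reach _ (hk y)).2.2 z⟩
  refine moves (y, k y) (reach _ (hk y)) ?_ (y', k y') (hk y')
  rw [dist_comm, dist_comm y]
  exact moves (0, q₀) base (by simp) (y, k y) (hk y)

end aux

section graph

variable {m : ℕ} {Γ X : Type} [Group Γ] [MetricSpace X] [MulAction Γ X]

theorem wal_off (hm : 3 ≤ m) (G : Graph m Γ X) (a : G.A) :
    ∃ p ∈ G.Q (G.pc a), p ∉ Set.range (G.j a) := by
  obtain ⟨a', C, e, h⟩ := G.visible a
  obtain ⟨z', hz⟩ := wal_perp_big (by omega) (G.v a') C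
  refine ⟨G.j a' z', e ▸ G.mem a' z', ?_⟩
  rintro ⟨z, hzz⟩
  have := h z z'
  rw [hzz, dist_self] at this
  linarith [norm_nonneg (perp (G.v a) z)]

theorem wal_one {H : Hadamard (m + 1) X} (hm : 3 ≤ m) (hF : FlaF H) (G : Graph m Γ X) (a : G.A) :
    ∀ p ∈ G.Q (G.pc a), ∀ q ∈ G.Q (G.pc a), ∀ z, Btw p (G.j a z) q →
      p ∈ Set.range (G.j a) ∨ q ∈ Set.range (G.j a) := by
  intro p hp q hq z hb
  obtain ⟨s, hs⟩ := hF.side _ (G.flat a)
  obtain ⟨a', C, e, h⟩ := G.visible (G.op a)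
  obtain ⟨w, hw⟩ := G.width a
  obtain ⟨z', hz⟩ := wal_perp_big (by omega) (G.v a') (|w| + C)
  have h0 : s (G.j a' z') ≠ 0 := by
    intro h0
    obtain ⟨y, hy⟩ := (hs.zero _).1 h0
    have h1 := h y z'
    have h2 := hw y y
    rw [sub_self, norm_zero, hy, dist_comm] at h2
    have h3 : dist (G.j (G.op a) y) (G.j a' z') ≤ |w| :=
      abs_le_of_sq_le_sq' (by rw [h2, sq_abs]; norm_num) (abs_nonneg w) |>.2
    linarith [norm_nonneg (perp (G.v (G.op a)) y)]
  have hsd : ∀ x ∈ G.Q (G.pc a), s x * s (G.j a' z') ≤ 0 := fun x hx => by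
    obtain ⟨u, hu⟩ := G.sep a x hx _ (e ▸ G.mem a' z')
    exact not_lt.1 fun h => hs.same _ _ u h hu
  by_contra hn
  push Not at hn
  have hp0 : s p ≠ 0 := fun h => hn.1 ((hs.zero _).1 h)
  have hq0 : s q ≠ 0 := fun h => hn.2 ((hs.zero _).1 h)
  have h1 := lt_of_le_of_ne (hsd p hp) (mul_ne_zero hp0 h0)
  have h2 := lt_of_le_of_ne (hsd q hq) (mul_ne_zero hq0 h0)
  refine hs.same p q z ?_ hb
  have h3 := mul_pos_of_neg_of_neg h1 h2
  have h4 : 0 < s (G.j a' z') ^ 2 := by positivity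
  by_contra h5
  nlinarith [mul_nonneg (neg_nonneg.2 (not_lt.1 h5)) h4.le]

theorem wal_span [ProperSpace X] {H : Hadamard (m + 1) X} (hm : 3 ≤ m) (hG : Geo H)
    (G : Graph m Γ X) (a : G.A) : Submodule.span ℝ {θ | Good G a θ} = ⊤ := by
  by_contra hU
  obtain ⟨T, hT, hs⟩ := wal_fin _ hU
  have hj := G.flat a
  obtain ⟨p₁, hp₁, hp₁'⟩ := wal_off hm G a
  have hq : ∀ η : ℝ, 0 < η → η ≤ 1 → pt H (G.j a 0) p₁ η ∈ G.Q (G.pc a) ∧
      pt H (G.j a 0) p₁ η ∉ Set.range (G.j a) := fun η h0 h1 =>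
    ⟨G.convex _ _ (G.mem a 0) _ hp₁ _ (btw_pt H _ _ h0.le h1), fun h => hp₁' (by
      have := wal_ext hG.fla hj 0 h0.ne' h
      rwa [ex_lg] at this)⟩
  have hev : ∀ θ : T, ∀ᶠ η in 𝓝[>] (0 : ℝ),
      pt H (G.j a 0) p₁ η ∈ wal_cls (wal_ln hj 0 (hT θ θ.2).1) := by
    intro θ
    have hb : ¬ Good G a θ := fun h => (hT θ θ.2).2 (Submodule.subset_span h)
    rw [Good, not_and] at hb
    have hb' := hb (hT θ θ.2).1
    push Not at hb'
    obtain ⟨c, hcQ, hn, hp⟩ := hb'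
    have hcl : c.1 0 ∈ wal_cls (wal_ln hj 0 (hT θ θ.2).1) :=
      ⟨c, rfl, hn.imp fun D hD t => by rw [wal_ln_apply, zero_add]; exact hD t⟩
    filter_upwards [nhdsWithin_le_nhds (wal_behind hG.fla hj hp p₁), Ioc_mem_nhdsGT zero_lt_one]
      with η ⟨z, hz⟩ hη
    obtain ⟨u, u0, u1, e⟩ := hz.exists_pt H
    rw [wal_pt_pt] at e
    obtain ⟨hq1, hq2⟩ := hq η hη.1 hη.2
    have hu : 1 < u * 2 := by
      by_contra hle
      have hb := btw_pt H (c.1 0) (pt H (G.j a 0) p₁ η) (s := u * 2) (by positivity) (not_lt.1 hle)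
      rw [← e] at hb
      exact (wal_one hm hG.fla G a _ (hcQ 0) _ hq1 z hb).elim hp hq2
    have hu0 : 0 < u * 2 := by linarith
    have e2 : pt H (G.j a 0) p₁ η = pt H (c.1 0) (G.j a z) (u * 2)⁻¹ := by
      rw [e, wal_pt_pt, inv_mul_cancel₀ hu0.ne', pt_one]
    rw [e2]
    exact wal_cls_pt hG.par hcl ⟨wal_ln hj z (hT θ θ.2).1, wal_ln_zero hj _ _,
      wal_ln_near hj _ _ _⟩ (by positivity) (inv_le_one_of_one_le₀ hu.le)
  obtain ⟨η, h1, hη⟩ := ((eventually_all.2 hev).and (Ioc_mem_nhdsGT zero_lt_one)).exists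
  obtain ⟨hq1, hq2⟩ := hq η hη.1 hη.2
  obtain ⟨k, hk, hkQ, hd⟩ := wal_flat hG.bus hG.par hj (G.closed _) (G.convex _) (G.mem a)
    (T := (T : Set (E m))) (fun θ h => (hT θ h).1) hs hq1 fun θ h => h1 ⟨θ, h⟩
  obtain ⟨z, hz⟩ := G.thin a k hk ⟨_, fun y => by
    have := hd y 0
    rw [add_zero] at this
    exact this.le⟩ hkQ 0
  have := hd 0 z
  rw [zero_add, hz, dist_self] at this
  exact hq2 ⟨z, hz.trans (dist_eq_zero.1 this.symm).symm⟩

end graph

theorem wal_main : SpWal := fun _ _ _ _ _ _ _ _ hm hG G =>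
  ⟨wal_one hm hG.fla G, wal_span hm hG G, wal_off hm G⟩

end Pool.Agent.MP_3ee8cb_gt.G76
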